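import Pool.Agent.Work.MP_c95a57_al.Bd.B01

/-! Bundle of small proof modules (one section per former module). -/

section

/-!
# V: the part before the first `y` is constant outside `N`
-/

open Set

namespace MLTG

theorem V_ii (h : ClaimFP) (g : MM) (f : FF) (hg : sgn g.left ≠ none) :
    pre (g * SemidirectProduct.inl (ii f)).left = pre g.left ∧
      sgn (g * SemidirectProduct.inl (ii f)).left = sgn g.left := by
  obtain ⟨h1, h2, h3, h4, h5, h6, h7⟩ := h (Option Bool)
  have e : (g * SemidirectProduct.inl (ii f)).left = g.left * ii (act1 g.right f) := by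
    rw [SemidirectProduct.mul_left, SemidirectProduct.left_inl]
    show g.left * ext act1 coc1 g.right (ii f) = _
    rw [ext_ii]
  rw [e]
  exact h3 _ _ hg

theorem V_yp (h : ClaimFP) (g : MM) (b : Bool) (hg : sgn g.left ≠ none)
    (hh : sgn (g * SemidirectProduct.inl (yp b)).left ≠ none) :
    pre (g * SemidirectProduct.inl (yp b)).left = pre g.left ∧
      sgn (g * SemidirectProduct.inl (yp b)).left = sgn g.left := by
  obtain ⟨h1, h2, h3, h4, h5, h6, h7⟩ := h (Option Bool)
  cases b with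
  | true =>
    have e : (g * SemidirectProduct.inl (yp true)).left =
        g.left * yp true * ii (coc1.u g.right) := by
      rw [SemidirectProduct.mul_left, SemidirectProduct.left_inl]
      show g.left * ext act1 coc1 g.right yy = _
      rw [ext_yy, ← mul_assoc]
      rfl
    rw [e] at hh ⊢
    by_cases hs : sgn (g.left * yp true) = none
    · exfalso
      apply hh
      have e2 : g.left * yp true * ii (coc1.u g.right) =
          ii (pre (g.left * yp true) * coc1.u g.right) := by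
        conv_lhs => rw [h2 _ hs]
        rw [map_mul]
      rw [e2, (h1 _).2]
    · rw [(h3 _ _ hs).1, (h3 _ _ hs).2, h4, h7 _ _ hg hs]
      exact ⟨rfl, rfl⟩
  | false =>
    have e : (g * SemidirectProduct.inl (yp false)).left =
        g.left * ii (coc1.u g.right)⁻¹ * yp false := by
      rw [SemidirectProduct.mul_left, SemidirectProduct.left_inl]
      show g.left * ext act1 coc1 g.right yy⁻¹ = _
      rw [map_inv, ext_yy, mul_inv_rev, map_inv, ← mul_assoc]
      rfl
    rw [e] at hh ⊢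
    have hs0 : sgn (g.left * ii (coc1.u g.right)⁻¹) ≠ none := by
      rw [(h3 _ _ hg).2]; exact hg
    rw [h4, h7 _ _ hs0 hh, (h3 _ _ hg).1, (h3 _ _ hg).2]
    exact ⟨rfl, rfl⟩

theorem V_inr (g : MM) (s : TT) : (g * SemidirectProduct.inr s).left = g.left := by
  simp

theorem V_step (h : ClaimFP) (g k : MM) (ha : Adj SS g k) (hg : sgn g.left ≠ none)
    (hk : sgn k.left ≠ none) : pre k.left = pre g.left ∧ sgn k.left = sgn g.left := by
  rcases ha with rfl | ⟨s, hs, rfl⟩
  · exact ⟨rfl, rfl⟩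
  have key : (∃ b, s = SemidirectProduct.inl (yp b)) ∨ (∃ f : FF, s = SemidirectProduct.inl (ii f)) ∨
      ∃ t : TT, s = SemidirectProduct.inr t := by
    rcases hs with hs | hs
    · rcases hs with (hs | ⟨z, hz⟩) | ⟨z, hz⟩
      · left
        refine ⟨true, ?_⟩
        rw [mem_singleton_iff.mp hs]
        rfl
      · right; left
        exact ⟨FreeGroup.of z, hz.symm⟩
      · right; right
        exact ⟨FreeGroup.of z, hz.symm⟩
    · rcases hs with (hs | ⟨z, hz⟩) | ⟨z, hz⟩
      · left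
        refine ⟨false, ?_⟩
        rw [← inv_inv s, mem_singleton_iff.mp hs]
        show (SemidirectProduct.inl yy)⁻¹ = (SemidirectProduct.inl (yy⁻¹) : MM)
        rw [map_inv]
      · right; left
        refine ⟨(FreeGroup.of z)⁻¹, ?_⟩
        rw [← inv_inv s, ← hz, map_inv, map_inv]
        rfl
      · right; right
        refine ⟨(FreeGroup.of z)⁻¹, ?_⟩
        rw [← inv_inv s, ← hz, map_inv]
        rfl
  rcases key with ⟨b, rfl⟩ | ⟨f, rfl⟩ | ⟨t, rfl⟩
  · exact V_yp h g b hg hk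
  · exact V_ii h g f hg
  · rw [V_inr]
    exact ⟨rfl, rfl⟩

theorem thm_V (hFP : ClaimFP) : ClaimV := by
  intro n p hp hs
  induction n with
  | zero => exact ⟨rfl, rfl⟩
  | succ n ih =>
    have h1 := ih (fun i hi => hp i (by omega)) (fun i hi => hs i (by omega))
    have h2 := V_step hFP (p n) (p (n + 1)) (hp n (by omega)) (hs n (by omega))
      (hs (n + 1) le_rfl)
    exact ⟨h2.1.trans h1.1, h2.2.trans h1.2⟩

end MLTG

end

section

/-!
# W: word length basics
-/

namespace MLTG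

section WordLength

variable {G : Type} [Group G] {S : Set G}

theorem wordLen_le_of_list {g : G} (l : List G) (hl : ∀ a ∈ l, a ∈ S ∨ a⁻¹ ∈ S)
    (hg : l.prod = g) : wordLen S g ≤ l.length :=
  Nat.sInf_le ⟨l, rfl, hl, hg⟩

theorem wordLen_exists_list (hS : Subgroup.closure S = ⊤) (g : G) :
    ∃ l : List G, l.length = wordLen S g ∧ (∀ a ∈ l, a ∈ S ∨ a⁻¹ ∈ S) ∧ l.prod = g := by
  have hne : {n | ∃ l : List G, l.length = n ∧ (∀ a ∈ l, a ∈ S ∨ a⁻¹ ∈ S) ∧
      l.prod = g}.Nonempty := by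
    have hg : g ∈ (Subgroup.closure S).toSubmonoid := by
      rw [hS]
      exact Subgroup.mem_top g
    rw [Subgroup.closure_toSubmonoid] at hg
    obtain ⟨l, h1, h2⟩ := Submonoid.exists_list_of_mem_closure hg
    refine ⟨l.length, l, rfl, fun a ha => ?_, h2⟩
    rcases h1 a ha with h | h
    · exact Or.inl h
    · exact Or.inr (Set.mem_inv.1 h)
  exact Nat.sInf_mem hne

theorem wordLen_one : wordLen S (1 : G) = 0 :=
  Nat.le_zero.1 (wordLen_le_of_list ([] : List G) (by simp) (by simp))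

theorem wordLen_mul_le (hS : Subgroup.closure S = ⊤) (g h : G) :
    wordLen S (g * h) ≤ wordLen S g + wordLen S h := by
  obtain ⟨l, h1, h2, h3⟩ := wordLen_exists_list hS g
  obtain ⟨l', h1', h2', h3'⟩ := wordLen_exists_list hS h
  rw [← h1, ← h1', ← List.length_append]
  apply wordLen_le_of_list
  · intro a ha
    rcases List.mem_append.1 ha with ha | ha
    · exact h2 a ha
    · exact h2' a ha
  · rw [List.prod_append, h3, h3']

theorem wordLen_inv_le (hS : Subgroup.closure S = ⊤) (g : G) :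
    wordLen S g⁻¹ ≤ wordLen S g := by
  obtain ⟨l, h1, h2, h3⟩ := wordLen_exists_list hS g
  have h4 : ((l.map (fun x => x⁻¹)).reverse).length = wordLen S g := by
    rw [List.length_reverse, List.length_map, h1]
  rw [← h4]
  apply wordLen_le_of_list
  · intro a ha
    rw [List.mem_reverse, List.mem_map] at ha
    obtain ⟨b, hb, rfl⟩ := ha
    rcases h2 b hb with h | h
    · right
      rwa [inv_inv]
    · left
      exact h
  · rw [← List.prod_inv_reverse, h3]

theorem wordLen_inv (hS : Subgroup.closure S = ⊤) (g : G) :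
    wordLen S g⁻¹ = wordLen S g := by
  apply le_antisymm (wordLen_inv_le hS g)
  have := wordLen_inv_le hS g⁻¹
  rwa [inv_inv] at this

theorem wordLen_le_one_of_adj {g : G} (h : Adj S 1 g) : wordLen S g ≤ 1 := by
  rcases h with h | ⟨s, hs, h⟩
  · rw [← h, wordLen_one]
    exact Nat.zero_le _
  · apply wordLen_le_of_list [s]
    · intro a ha
      rw [List.mem_singleton.1 ha]
      exact hs
    · rw [h, one_mul, List.prod_singleton]

end WordLength

theorem thm_W : ClaimW := by
  intro G _ S hS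
  refine ⟨?_, wordLen_inv hS, wordLen_mul_le hS, fun g => wordLen_le_one_of_adj, ?_, ?_⟩
  · intro g
    constructor
    · intro h
      obtain ⟨l, h1, _, h3⟩ := wordLen_exists_list hS g
      rw [h, List.length_eq_zero_iff] at h1
      rw [← h3, h1, List.prod_nil]
    · rintro rfl
      exact wordLen_one
  · intro g h
    obtain ⟨l, h1, h2, h3⟩ := wordLen_exists_list hS (g⁻¹ * h)
    have hd : wordDist S g h = l.length := h1.symm
    rw [hd]
    refine ⟨fun i => g * (l.take i).prod, by simp, ?_, ?_⟩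
    · simp only
      rw [List.take_length, h3, mul_inv_cancel_left]
    · intro i hi
      right
      refine ⟨l[i], h2 _ (List.getElem_mem hi), ?_⟩
      simp only
      rw [List.prod_take_succ l i hi, mul_assoc]
  · intro n p hp i j hij hj
    obtain ⟨k, rfl⟩ := Nat.exists_eq_add_of_le hij
    rw [Nat.add_sub_cancel_left]
    induction k with
    | zero =>
      unfold wordDist
      rw [Nat.add_zero, inv_mul_cancel, wordLen_one]
    | succ k ih =>
      have h1 := ih (by omega) (by omega)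
      have h2 : wordLen S ((p (i + k))⁻¹ * p (i + (k + 1))) ≤ 1 := by
        apply wordLen_le_one_of_adj
        rcases hp (i + k) (by omega) with h | ⟨s, hs, h⟩
        · left
          rw [h, ← add_assoc, inv_mul_cancel]
        · right
          refine ⟨s, hs, ?_⟩
          rw [← add_assoc, h, inv_mul_cancel_left, one_mul]
      have h3 := wordLen_mul_le hS ((p i)⁻¹ * p (i + k)) ((p (i + k))⁻¹ * p (i + (k + 1)))
      have h4 : (p i)⁻¹ * p (i + k) * ((p (i + k))⁻¹ * p (i + (k + 1))) =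
          (p i)⁻¹ * p (i + (k + 1)) := by group
      rw [h4] at h3
      unfold wordDist at h1 ⊢
      omega

end MLTG

end

section

/-!
# W2: comparison of word lengths
-/

namespace MLTG

theorem thm_W2 (hW : ClaimW) : ClaimW2 := by
  intro G _ S S' hS hcl hcl'
  classical
  obtain ⟨_, _, _, _, w5, _⟩ := hW G S hcl
  obtain ⟨v1, v2, v3, _, _, _⟩ := hW G S' hcl'
  refine ⟨hS.toFinset.sup (wordLen S'), fun g => ?_⟩
  have hK : ∀ s, (s ∈ S ∨ s⁻¹ ∈ S) → wordLen S' s ≤ hS.toFinset.sup (wordLen S') := by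
    rintro s (h | h)
    · exact Finset.le_sup (by simpa using h)
    · rw [← v2]
      exact Finset.le_sup (by simpa using h)
  obtain ⟨p, hp0, hpn, hp⟩ := w5 1 g
  have key : ∀ i ≤ wordDist S 1 g, wordLen S' (p i) ≤ hS.toFinset.sup (wordLen S') * i := by
    intro i
    induction i with
    | zero =>
      intro _
      rw [hp0, (v1 1).2 rfl]
      exact Nat.zero_le _
    | succ i ih =>
      intro hi
      have h1 := ih (by omega)
      rcases hp i (by omega) with h | ⟨s, hs, h⟩
      · rw [← h]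
        exact h1.trans (Nat.mul_le_mul_left _ (Nat.le_succ i))
      · rw [h]
        calc wordLen S' (p i * s) ≤ wordLen S' (p i) + wordLen S' s := v3 _ _
          _ ≤ hS.toFinset.sup (wordLen S') * i + hS.toFinset.sup (wordLen S') :=
            add_le_add h1 (hK s hs)
          _ = hS.toFinset.sup (wordLen S') * (i + 1) := by ring
  have h3 := key _ le_rfl
  rw [hpn] at h3
  have h2 : wordDist S 1 g = wordLen S g := by rw [wordDist, inv_one, one_mul]
  rwa [h2] at h3

end MLTG

end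

section

/-!
# The generating set and the exotic relations
-/

namespace MLTG

theorem act1_ii (t : TT) (δ : DD) : act1 t (ii δ) = ii δ := by
  have h := ext_ii act0 coc0 t δ
  rw [act1, h]
  rfl

theorem act1_xx (t : TT) : act1 t xx = xx * ii (eta t) := ext_yy act0 coc0 t

theorem coc1_of (z : Option Bool) : coc1.u (FreeGroup.of z) = FreeGroup.of z := by
  show (iota (FreeGroup.of z)).left = FreeGroup.of z
  simp [iota]

/-- The section of `D` in `T`. -/
def tau : DD →* TT := FreeGroup.lift fun b => FreeGroup.of (some b)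

theorem coc1_tau (δ : DD) : coc1.u (tau δ) = ii δ := by
  induction δ using FreeGroup.induction_on with
  | C1 => rw [map_one, coc1.one, map_one]
  | of b =>
    have h : tau (FreeGroup.of b) = FreeGroup.of (some b) := by simp [tau]
    rw [h, coc1_of]
    simp [ii]
  | inv_of b hb =>
    have h := coc1.mul (tau (FreeGroup.of b)) (tau (FreeGroup.of b))⁻¹
    rw [mul_inv_cancel, coc1.one, hb] at h
    have h2 : act1 (tau (FreeGroup.of b)) (coc1.u (tau (FreeGroup.of b))⁻¹) =
        ii (FreeGroup.of b)⁻¹ := by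
      rw [map_inv]
      exact eq_inv_of_mul_eq_one_right h.symm
    have h3 : coc1.u (tau (FreeGroup.of b))⁻¹ =
        (act1 (tau (FreeGroup.of b)))⁻¹ (ii (FreeGroup.of b)⁻¹) := by
      rw [← h2, MulAut.inv_apply_self]
    rw [map_inv, h3, ← map_inv, act1_ii]
  | mul x y hx hy => rw [map_mul, coc1.mul, hx, hy, act1_ii, map_mul]

theorem exists_coc (n : ℕ) : ∃ s : TT, coc1.u s = xx ^ n := by
  induction n with
  | zero => exact ⟨1, by rw [coc1.one, pow_zero]⟩
  | succ n ih =>
    obtain ⟨s, hs⟩ := ih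
    refine ⟨s * (FreeGroup.of none * tau (eta s)⁻¹), ?_⟩
    rw [coc1.mul, coc1.mul, hs, coc1_of, coc1_tau, act1_ii, map_mul, act1_ii]
    have h : act1 s (FreeGroup.of none) = xx * ii (eta s) := act1_xx s
    rw [h, map_inv, mul_assoc xx, mul_inv_cancel, mul_one, pow_succ]

theorem gx_pow (n : ℕ) : gx ^ n = SemidirectProduct.inl (ii (xx ^ n)) := by
  rw [map_pow, map_pow]
  rfl

theorem exotic (n : ℕ) : ∃ σ : MM, σ * gy * σ⁻¹ = gy * gx ^ n := by
  obtain ⟨s, hs⟩ := exists_coc n
  refine ⟨SemidirectProduct.inr s, ?_⟩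
  have h : act2 s yy = yy * ii (coc1.u s) := ext_yy act1 coc1 s
  rw [gx_pow, gy, ← map_inv, ← SemidirectProduct.inl_aut, h, hs, map_mul]

theorem closureSS : Subgroup.closure SS = ⊤ := by
  have hl : ∀ k : PP, (SemidirectProduct.inl k : MM) ∈ Subgroup.closure SS := by
    intro k
    induction k using FreeGroup.induction_on with
    | C1 => rw [map_one]; exact one_mem _
    | of b =>
      apply Subgroup.subset_closure
      cases b with
      | none => exact Or.inl (Or.inl rfl)
      | some z => exact Or.inl (Or.inr ⟨z, by simp [gz, ii]⟩)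
    | inv_of b hb => rw [map_inv]; exact inv_mem hb
    | mul x y hx hy => rw [map_mul]; exact mul_mem hx hy
  have hr : ∀ k : TT, (SemidirectProduct.inr k : MM) ∈ Subgroup.closure SS := by
    intro k
    induction k using FreeGroup.induction_on with
    | C1 => rw [map_one]; exact one_mem _
    | of b =>
      apply Subgroup.subset_closure
      exact Or.inr ⟨b, rfl⟩
    | inv_of b hb => rw [map_inv]; exact inv_mem hb
    | mul x y hx hy => rw [map_mul]; exact mul_mem hx hy
  rw [eq_top_iff]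
  intro g _
  rw [← SemidirectProduct.inl_left_mul_inr_right g]
  exact mul_mem (hl _) (hr _)

/-- Item X. -/
theorem thm_X : ClaimX := by
  refine ⟨?_, closureSS, exotic⟩
  exact ((Set.finite_singleton _).union (Set.finite_range _)).union (Set.finite_range _)

end MLTG

end

section

/-!
# MP_c95a57_al: item Z, failure of the local-to-global property
-/

open Set

namespace MLTG

namespace ItemZ

section group

variable {G : Type} [Group G]

/-- Prefixes of the periodic word `(y xⁿ)^∞`. -/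
def P (y x : G) (n k : ℕ) : G := (y * x ^ n) ^ (k / (n + 1)) * lineOf y x ((k % (n + 1) : ℕ) : ℤ)

/-- Window lemma. -/
theorem P_eq (y x : G) (n a k : ℕ) (h1 : a * (n + 1) ≤ k + n) (h2 : k ≤ a * (n + 1) + n) :
    P y x n k = (y * x ^ n) ^ a * lineOf y x ((k : ℤ) - (a * (n + 1) : ℕ)) := by
  rcases le_or_gt (a * (n + 1)) k with h | h
  · obtain ⟨j, rfl⟩ := Nat.exists_eq_add_of_le h
    have hj : j < n + 1 := by omega
    have e1 : (a * (n + 1) + j) / (n + 1) = a := by
      rw [mul_comm a, Nat.mul_add_div (by omega), Nat.div_eq_of_lt hj, add_zero]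
    have e2 : (a * (n + 1) + j) % (n + 1) = j := by
      rw [mul_comm a, Nat.mul_add_mod, Nat.mod_eq_of_lt hj]
    unfold P
    rw [e1, e2]
    congr 2
    push_cast
    ring
  · rcases a with _ | b
    · omega
    · have e0 : (b + 1) * (n + 1) = b * (n + 1) + (n + 1) := by ring
      rw [e0] at h h1 h2 ⊢
      obtain ⟨j, hj⟩ : ∃ j, k = b * (n + 1) + j := ⟨k - b * (n + 1), by omega⟩
      subst hj
      have hj1 : 1 ≤ j := by omega
      have hj2 : j < n + 1 := by omega
      have e1 : (b * (n + 1) + j) / (n + 1) = b := by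
        rw [mul_comm b, Nat.mul_add_div (by omega), Nat.div_eq_of_lt hj2, add_zero]
      have e2 : (b * (n + 1) + j) % (n + 1) = j := by
        rw [mul_comm b, Nat.mul_add_mod, Nat.mod_eq_of_lt hj2]
      unfold P
      rw [e1, e2, pow_succ]
      have e3 : lineOf y x ((j : ℕ) : ℤ) = y * x ^ ((j : ℤ) - 1) := by
        unfold lineOf
        rw [if_neg (by omega)]
      have e4 : lineOf y x (((b * (n + 1) + j : ℕ) : ℤ) - ((b * (n + 1) + (n + 1) : ℕ) : ℤ)) =
          x ^ ((j : ℤ) - (n + 1)) := by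
        unfold lineOf
        rw [if_pos (by push_cast; omega)]
        congr 1
        push_cast
        ring
      rw [e3, e4, mul_assoc, mul_assoc]
      congr 2
      rw [← zpow_natCast x n, ← zpow_add]
      congr 1
      ring

theorem P_zero (y x : G) (n : ℕ) : P y x n 0 = 1 := by
  simp [P, lineOf]

theorem P_mul (y x : G) (n k : ℕ) : P y x n (k * (n + 1)) = (y * x ^ n) ^ k := by
  unfold P
  rw [Nat.mul_div_cancel _ (by omega), Nat.mul_mod_left]
  simp [lineOf]

theorem wordDist_mul_left (S : Set G) (g a b : G) :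
    wordDist S (g * a) (g * b) = wordDist S a b := by
  unfold wordDist
  congr 1
  group

theorem wordLen_pow_le {S : Set G} (hW : ∀ g h, wordLen S (g * h) ≤ wordLen S g + wordLen S h)
    (h1 : wordLen S 1 = 0) (g : G) (k : ℕ) : wordLen S (g ^ k) ≤ k * wordLen S g := by
  induction k with
  | zero => simp [h1]
  | succ k ih =>
    rw [pow_succ]
    have := hW (g ^ k) g
    nlinarith

end group

section metric

variable {X : Type} [PseudoMetricSpace X]

theorem CG_mono {K K' : ℝ} (h : K ≤ K') (hX : CG X K) : CG X K' := by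
  intro a b
  obtain ⟨n, z, h1, h2, h3, h4⟩ := hX a b
  refine ⟨n, z, ?_, h2, h3, fun k hk => (h4 k hk).trans h⟩
  have : 0 ≤ dist a b := dist_nonneg
  nlinarith

end metric

/-- floors. -/
theorem abs_floor_sub (u v : ℝ) (hu : 0 ≤ u) (hv : 0 ≤ v) :
    |(((⌊u⌋₊ : ℕ) : ℝ) - ((⌊v⌋₊ : ℕ) : ℝ))| ≤ |u - v| + 1 ∧
      |u - v| - 1 ≤ |(((⌊u⌋₊ : ℕ) : ℝ) - ((⌊v⌋₊ : ℕ) : ℝ))| := by
  have h1 := Nat.floor_le hu
  have h2 := Nat.floor_le hv
  have h3 := Nat.lt_floor_add_one u
  have h4 := Nat.lt_floor_add_one v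
  constructor
  · rw [abs_le]
    have := abs_le.mp (le_refl |u - v|)
    constructor <;> linarith [this.1, this.2]
  · have : |u - v| ≤ |((⌊u⌋₊ : ℕ) : ℝ) - ((⌊v⌋₊ : ℕ) : ℝ)| + 1 := by
      rw [abs_le]
      have := abs_le.mp (le_refl |((⌊u⌋₊ : ℕ) : ℝ) - ((⌊v⌋₊ : ℕ) : ℝ)|)
      constructor <;> linarith [this.1, this.2]
    linarith

end ItemZ

open ItemZ in
/-- Item Z. -/
theorem thm_Z (hW : ClaimW) (hCG : ClaimCG) (hMA : ClaimMA) (hMB : ClaimMB) : ClaimZ := by
  intro G _ S y x hD X _ f hf hX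
  obtain ⟨K, hK, hqi⟩ := hf
  have hqi' : IsQIK S K f := hqi
  obtain ⟨K', hKK', hCG'⟩ := hCG K hK
  have hCGX : CG X K' := hCG' G S hD.gen X f hqi'
  obtain ⟨C, hC⟩ := hD.bot
  obtain ⟨CJ, hCJ⟩ := hMA G S (lineOf y x) C hD.gen hC K hK
  obtain ⟨hw1, hw2, hw3, -, -, -⟩ := hW G S hD.gen
  -- the constant
  set K2 : ℝ := K' + 2 * K ^ 2 + 2 * K + 1 with hK2
  have hK'0 : 1 ≤ K' := hK.trans hKK'
  have hK21 : 1 ≤ K2 := by nlinarith
  have hK'2 : K' ≤ K2 := by nlinarith
  have hCG2 : CG X K2 := CG_mono hK'2 hCGX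
  have hup : ∀ (g : G) (i j : ℤ), dist (f (g * lineOf y x i)) (f (g * lineOf y x j)) ≤
      K * |(i : ℝ) - j| + K := by
    intro g i j
    have h1 := (hqi.1 (g * lineOf y x i) (g * lineOf y x j)).2
    rw [wordDist_mul_left] at h1
    have h2 : ((wordDist S (lineOf y x i) (lineOf y x j) : ℕ) : ℝ) ≤ |(i : ℝ) - j| := by
      have := hD.up i j
      have h3 : (((wordDist S (lineOf y x i) (lineOf y x j) : ℕ) : ℤ) : ℝ) ≤ ((|i - j| : ℤ) : ℝ) := by
        exact_mod_cast this
      push_cast at h3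
      exact h3
    nlinarith
  have hlow : ∀ (g : G) (i j : ℤ), |(i : ℝ) - j| ≤
      2 * K * dist (f (g * lineOf y x i)) (f (g * lineOf y x j)) + 2 * K ^ 2 + 1 := by
    intro g i j
    have h1 := (hqi.1 (g * lineOf y x i) (g * lineOf y x j)).1
    rw [wordDist_mul_left] at h1
    have h2 : |(i : ℝ) - j| ≤ 2 * ((wordDist S (lineOf y x i) (lineOf y x j) : ℕ) : ℝ) + 1 := by
      have := hD.low i j
      have h3 : ((|i - j| : ℤ) : ℝ) ≤
          ((2 * (wordDist S (lineOf y x i) (lineOf y x j) : ℤ) + 1 : ℤ) : ℝ) := by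
        exact_mod_cast this
      push_cast at h3
      exact h3
    have h4 : ((wordDist S (lineOf y x i) (lineOf y x j) : ℕ) : ℝ) ≤
        K * (dist (f (g * lineOf y x i)) (f (g * lineOf y x j)) + K) := by
      have h5 : ((wordDist S (lineOf y x i) (lineOf y x j) : ℕ) : ℝ) / K ≤
        dist (f (g * lineOf y x i)) (f (g * lineOf y x j)) + K := by linarith
      rw [div_le_iff₀ (by linarith)] at h5
      linarith
    nlinarith
  -- Morse gauge
  have hMB' : ∀ lam eps : ℝ, ∃ B : ℝ, 0 ≤ B ∧ (1 ≤ lam → 0 ≤ eps → ∀ (g : G)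
      (η : ℝ → X) (c d : ℝ), c ≤ d → IsQG η c d lam eps → ∀ i j : ℤ, i ≤ j →
        (η c = f (g * lineOf y x i) ∧ η d = f (g * lineOf y x j) ∨
          η c = f (g * lineOf y x j) ∧ η d = f (g * lineOf y x i)) →
        ∀ t ∈ Icc c d, ∃ m, i ≤ m ∧ m ≤ j ∧ dist (η t) (f (g * lineOf y x m)) ≤ B) := by
    intro lam eps
    by_cases h : 1 ≤ lam ∧ 0 ≤ eps
    · obtain ⟨B, hB0, hB⟩ := hMB K2 CJ lam eps hK21 h.1 h.2
      refine ⟨B, hB0, fun _ _ g η c d hcd hη i j hij hends t ht => ?_⟩
      refine hB X (fun i => f (g * lineOf y x i)) hCG2 ?_ ?_ (fun J => hCJ X f hqi' g J)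
        η c d hcd hη i j hij hends t ht
      · intro i j
        have h1 := hup g i j
        have h2 : 0 ≤ |(i : ℝ) - j| := abs_nonneg _
        show dist (f (g * lineOf y x i)) (f (g * lineOf y x j)) ≤ K2 * |(i : ℝ) - j| + K2
        nlinarith
      · intro i j
        have h1 := hlow g i j
        have h2 : 0 ≤ dist (f (g * lineOf y x i)) (f (g * lineOf y x j)) := dist_nonneg
        show |(i : ℝ) - j| ≤ K2 * dist (f (g * lineOf y x i)) (f (g * lineOf y x j)) + K2
        nlinarith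
    · exact ⟨0, le_refl _, fun h1 h2 => absurd ⟨h1, h2⟩ h⟩
  choose M0 hM00 hM0 using hMB'
  obtain ⟨L, M', lam', eps', hL, -, hlam', heps', hmain⟩ :=
    hX M0 hM00 (2 * K) (2 * K) (by linarith) (by linarith)
  -- choose `n`
  obtain ⟨n, hn⟩ := exists_nat_gt (max (L + 1) (lam' * (K * wordLen S y)))
  have hnL : L + 1 < n := (le_max_left _ _).trans_lt hn
  have hny : lam' * (K * wordLen S y) < n := (le_max_right _ _).trans_lt hn
  set γ : ℝ → X := fun s => f (P y x n ⌊s⌋₊) with hγ
  have hlocal : ∀ b : ℝ, IsLocalMorse L M0 (2 * K) (2 * K) γ 0 b := by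
    intro b s t hs hst _ htL
    set k1 : ℕ := ⌊s⌋₊ with hk1
    set k2 : ℕ := ⌊t⌋₊ with hk2
    have ht : 0 ≤ t := hs.trans hst
    have hk12 : k2 ≤ k1 + n := by
      have h1 := Nat.floor_le ht
      have h2 := Nat.lt_floor_add_one s
      have h3 : ((k2 : ℕ) : ℝ) < k1 + n := by
        rw [hk2, hk1]
        linarith
      have h4 : ((k2 : ℕ) : ℝ) < ((k1 + n : ℕ) : ℝ) := by
        push_cast
        exact h3
      exact (Nat.cast_lt.mp h4).le
    set a : ℕ := (k1 + n) / (n + 1) with ha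
    have ha1 : a * (n + 1) ≤ k1 + n := Nat.div_mul_le_self _ _
    have ha2 : k1 ≤ a * (n + 1) := by
      have h5 := Nat.div_add_mod (k1 + n) (n + 1)
      have h6 : (k1 + n) % (n + 1) < n + 1 := Nat.mod_lt _ (by omega)
      rw [← ha] at h5
      have h7 : (n + 1) * a = a * (n + 1) := mul_comm _ _
      omega
    set g : G := (y * x ^ n) ^ a with hg
    have hval : ∀ u : ℝ, s ≤ u → u ≤ t →
        γ u = f (g * lineOf y x (((⌊u⌋₊ : ℕ) : ℤ) - (a * (n + 1) : ℕ))) := by
      intro u hsu hut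
      have h1 : k1 ≤ ⌊u⌋₊ := Nat.floor_le_floor hsu
      have h2 : ⌊u⌋₊ ≤ k2 := Nat.floor_le_floor hut
      show f (P y x n ⌊u⌋₊) = _
      rw [P_eq y x n a ⌊u⌋₊ (by omega) (by omega)]
    refine ⟨?_, ?_⟩
    · intro u hu v hv
      rw [hval u hu.1 hu.2, hval v hv.1 hv.2]
      have h1 := hup g (((⌊u⌋₊ : ℕ) : ℤ) - (a * (n + 1) : ℕ)) (((⌊v⌋₊ : ℕ) : ℤ) - (a * (n + 1) : ℕ))
      have h2 := hlow g (((⌊u⌋₊ : ℕ) : ℤ) - (a * (n + 1) : ℕ))
        (((⌊v⌋₊ : ℕ) : ℤ) - (a * (n + 1) : ℕ))
      have h3 : ((((((⌊u⌋₊ : ℕ) : ℤ) - (a * (n + 1) : ℕ)) : ℤ) : ℝ) -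
          (((((⌊v⌋₊ : ℕ) : ℤ) - (a * (n + 1) : ℕ)) : ℤ) : ℝ)) =
          ((⌊u⌋₊ : ℕ) : ℝ) - ((⌊v⌋₊ : ℕ) : ℝ) := by
        push_cast
        ring
      rw [h3] at h1 h2
      obtain ⟨h4, h5⟩ := abs_floor_sub u v (hs.trans hu.1) (hs.trans hv.1)
      set δ : ℝ := dist (f (g * lineOf y x (((⌊u⌋₊ : ℕ) : ℤ) - (a * (n + 1) : ℕ))))
        (f (g * lineOf y x (((⌊v⌋₊ : ℕ) : ℤ) - (a * (n + 1) : ℕ)))) with hδ
      have h6 : 0 ≤ |u - v| := abs_nonneg _
      constructor
      · have h7 : |u - v| ≤ 2 * K * δ + 2 * K ^ 2 + 2 := by linarith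
        have h8 : |u - v| ≤ (δ + 2 * K) * (2 * K) := by nlinarith
        have h9 : |u - v| / (2 * K) ≤ δ + 2 * K := by
          rw [div_le_iff₀ (by linarith)]
          exact h8
        linarith
      · nlinarith
    · intro lam eps hlam heps η c d hcd hη hc hd r hr
      obtain ⟨u, ⟨hu1, hu2⟩, hu3⟩ := hc
      obtain ⟨v, ⟨hv1, hv2⟩, hv3⟩ := hd
      rw [hval u hu1 hu2] at hu3
      rw [hval v hv1 hv2] at hv3
      -- the key: points of the line between floors are on `γ`
      have key : ∀ w1 w2 : ℝ, s ≤ w1 → w1 ≤ t → s ≤ w2 → w2 ≤ t → ∀ m : ℤ,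
          ((⌊w1⌋₊ : ℕ) : ℤ) - (a * (n + 1) : ℕ) ≤ m → m ≤ ((⌊w2⌋₊ : ℕ) : ℤ) - (a * (n + 1) : ℕ) →
          f (g * lineOf y x m) ∈ γ '' Icc s t := by
        intro w1 w2 h1 h2 h3 h4 m hm1 hm2
        obtain ⟨N, hN⟩ : ∃ N : ℕ, (N : ℤ) = m + (a * (n + 1) : ℕ) :=
          ⟨(m + (a * (n + 1) : ℕ)).toNat, Int.toNat_of_nonneg (by omega)⟩
        have hN1 : ⌊w1⌋₊ ≤ N := by omega
        have hN2 : N ≤ ⌊w2⌋₊ := by omega
        have hw10 : 0 ≤ w1 := hs.trans h1
        have hw20 : 0 ≤ w2 := hs.trans h3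
        have hfl : ⌊max w1 (N : ℝ)⌋₊ = N := by
          rcases hN1.eq_or_lt with h | h
          · have : ((N : ℕ) : ℝ) ≤ w1 := by
              rw [← h]
              exact Nat.floor_le hw10
            rw [max_eq_left this, h]
          · have : w1 ≤ (N : ℝ) := by
              have h5 := Nat.lt_floor_add_one w1
              have h6 : ((⌊w1⌋₊ + 1 : ℕ) : ℝ) ≤ (N : ℝ) := by exact_mod_cast h
              push_cast at h6
              linarith
            rw [max_eq_right this, Nat.floor_natCast]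
        have hle : max w1 (N : ℝ) ≤ t := by
          refine max_le h2 ?_
          have h5 : (N : ℝ) ≤ ((⌊w2⌋₊ : ℕ) : ℝ) := by exact_mod_cast hN2
          exact h5.trans ((Nat.floor_le hw20).trans h4)
        have hge : s ≤ max w1 (N : ℝ) := h1.trans (le_max_left _ _)
        refine ⟨max w1 (N : ℝ), ⟨hge, hle⟩, ?_⟩
        rw [hval _ hge hle, hfl]
        congr 3
        omega
      rcases le_total (((⌊u⌋₊ : ℕ) : ℤ) - (a * (n + 1) : ℕ))
        (((⌊v⌋₊ : ℕ) : ℤ) - (a * (n + 1) : ℕ)) with h | h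
      · obtain ⟨m, hm1, hm2, hm3⟩ := hM0 lam eps hlam heps g η c d hcd hη _ _ h
          (Or.inl ⟨hu3.symm, hv3.symm⟩) r hr
        exact (Metric.infDist_le_dist_of_mem (key u v hu1 hu2 hv1 hv2 m hm1 hm2)).trans hm3
      · obtain ⟨m, hm1, hm2, hm3⟩ := hM0 lam eps hlam heps g η c d hcd hη _ _ h
          (Or.inr ⟨hu3.symm, hv3.symm⟩) r hr
        exact (Metric.infDist_le_dist_of_mem (key v u hv1 hv2 hu1 hu2 m hm1 hm2)).trans hm3
  -- the contradiction
  obtain ⟨σ, hσ⟩ := hD.exo n
  have hword : ∀ k : ℕ, wordLen S ((y * x ^ n) ^ k) ≤ 2 * wordLen S σ + k * wordLen S y := by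
    intro k
    rw [← hσ, conj_pow]
    have h1 := hw3 (σ * y ^ k) σ⁻¹
    have h2 := hw3 σ (y ^ k)
    have h3 := wordLen_pow_le hw3 ((hw1 1).2 rfl) y k
    rw [hw2] at h1
    omega
  have hqg : ∀ k : ℕ, ((k : ℝ) * (n + 1)) / lam' - eps' ≤
      K * (2 * wordLen S σ + k * wordLen S y) + K := by
    intro k
    have hb : (0 : ℝ) ≤ ((k * (n + 1) : ℕ) : ℝ) := Nat.cast_nonneg _
    have h1 := (hmain γ 0 ((k * (n + 1) : ℕ) : ℝ) hb (hlocal _)).1 0 (left_mem_Icc.mpr hb)
      ((k * (n + 1) : ℕ) : ℝ) (right_mem_Icc.mpr hb)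
    have h2 : γ 0 = f 1 := by
      show f (P y x n ⌊(0 : ℝ)⌋₊) = _
      rw [Nat.floor_zero, P_zero]
    have h3 : γ ((k * (n + 1) : ℕ) : ℝ) = f ((y * x ^ n) ^ k) := by
      show f (P y x n ⌊((k * (n + 1) : ℕ) : ℝ)⌋₊) = _
      rw [Nat.floor_natCast, P_mul]
    rw [h2, h3] at h1
    have h4 := (hqi.1 1 ((y * x ^ n) ^ k)).2
    have h5 : wordDist S 1 ((y * x ^ n) ^ k) = wordLen S ((y * x ^ n) ^ k) := by
      unfold wordDist
      rw [inv_one, one_mul]
    rw [h5] at h4
    have h6 : ((wordLen S ((y * x ^ n) ^ k) : ℕ) : ℝ) ≤ 2 * wordLen S σ + k * wordLen S y := by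
      exact_mod_cast hword k
    have h7 : |(0 : ℝ) - ((k * (n + 1) : ℕ) : ℝ)| = (k : ℝ) * (n + 1) := by
      rw [zero_sub, abs_neg, abs_of_nonneg hb]
      push_cast
      ring
    rw [h7] at h1
    have h8 : K * ((wordLen S ((y * x ^ n) ^ k) : ℕ) : ℝ) ≤
        K * (2 * wordLen S σ + k * wordLen S y) :=
      mul_le_mul_of_nonneg_left h6 (by linarith)
    linarith [h1.1]
  -- large `k`
  have hpos : 0 < ((n : ℝ) + 1) / lam' - K * wordLen S y := by
    have h1 : (0 : ℝ) < lam' := by linarith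
    rw [sub_pos, lt_div_iff₀ h1]
    nlinarith
  obtain ⟨k, hk⟩ := exists_nat_gt ((K * (2 * wordLen S σ) + K + eps') /
    (((n : ℝ) + 1) / lam' - K * wordLen S y))
  rw [div_lt_iff₀ hpos] at hk
  have h1 := hqg k
  have h2 : ((k : ℝ) * (n + 1)) / lam' = k * (((n : ℝ) + 1) / lam') := by
    rw [mul_div_assoc]
  rw [h2] at h1
  nlinarith

end MLTG

end
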