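import Pool.Agent.Work.MP_c95a57_al.Defs

/-! Bundle of small proof modules (one section per former module). -/

section

/-!
# Statements of the items
-/

open Set

namespace MLTG

/-- P: the group is finitely presented. -/
def ClaimP : Prop := Group.IsFinitelyPresented MM

/-- X: the generating set, and the exotic relations `σ y σ⁻¹ = y xⁿ`. -/
def ClaimX : Prop :=
  SS.Finite ∧ Subgroup.closure SS = ⊤ ∧ ∀ n : ℕ, ∃ σ : MM, σ * gy * σ⁻¹ = gy * gx ^ n

/-- E: `η` does not decrease lengths. -/
def ClaimE : Prop := ∀ t : TT, t.norm ≤ (eta t).norm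

/-- W: word length. -/
def ClaimW : Prop :=
  ∀ (G : Type) [Group G] (S : Set G), Subgroup.closure S = ⊤ →
    (∀ g, wordLen S g = 0 ↔ g = 1) ∧ (∀ g, wordLen S g⁻¹ = wordLen S g) ∧
    (∀ g h, wordLen S (g * h) ≤ wordLen S g + wordLen S h) ∧
    (∀ g, Adj S 1 g → wordLen S g ≤ 1) ∧
    (∀ g h, ∃ p : ℕ → G, p 0 = g ∧ p (wordDist S g h) = h ∧ IsPath S (wordDist S g h) p) ∧
    (∀ (n : ℕ) (p : ℕ → G), IsPath S n p → ∀ i j, i ≤ j → j ≤ n →
      wordDist S (p i) (p j) ≤ j - i)

/-- W2: comparison of word lengths. -/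
def ClaimW2 : Prop :=
  ∀ (G : Type) [Group G] (S S' : Set G), S.Finite → Subgroup.closure S = ⊤ →
    Subgroup.closure S' = ⊤ → ∃ K : ℕ, ∀ g, wordLen S' g ≤ K * wordLen S g

/-- FP: the part before the first stable letter. -/
def ClaimFP : Prop :=
  ∀ (α : Type) [DecidableEq α],
    (∀ f : FreeGroup α, pre (ii f) = f ∧ sgn (ii f) = none) ∧
    (∀ k : FreeGroup (Option α), sgn k = none → k = ii (pre k)) ∧
    (∀ (k : FreeGroup (Option α)) (f : FreeGroup α), sgn k ≠ none →
      pre (k * ii f) = pre k ∧ sgn (k * ii f) = sgn k) ∧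
    (∀ (k : FreeGroup (Option α)) (b : Bool), pre (k * yp b) = pre k) ∧
    (∀ (k : FreeGroup (Option α)) (b : Bool), sgn k = none → sgn (k * yp b) = some b) ∧
    (∀ (k : FreeGroup (Option α)) (b : Bool), sgn k ≠ none → sgn (k * yp b) = none →
      sgn k = some (!b)) ∧
    (∀ (k : FreeGroup (Option α)) (b : Bool), sgn k ≠ none → sgn (k * yp b) ≠ none →
      sgn (k * yp b) = sgn k)

/-- R: the retraction and right multiplications. -/
def ClaimR : Prop :=
  ∀ (α : Type) [DecidableEq α] (T : Type) [Group T] (φ : T →* MulAut (FreeGroup α)) (c : Coc φ),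
    (∀ (f : FreeGroup α) (t : T), ret φ c ⟨ii f, t⟩ = ⟨f, t⟩) ∧
    (∀ (g : SemidirectProduct (FreeGroup (Option α)) T (ext φ c)) (f : FreeGroup α),
      ret φ c (g * SemidirectProduct.inl (ii f)) =
        if sgn g.left = none then ret φ c g * SemidirectProduct.inl f else ret φ c g) ∧
    (∀ (g : SemidirectProduct (FreeGroup (Option α)) T (ext φ c)) (b : Bool),
      ret φ c (g * SemidirectProduct.inl (yp b)) = ret φ c g) ∧
    (∀ (g : SemidirectProduct (FreeGroup (Option α)) T (ext φ c)) (s : T),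
      ret φ c (g * SemidirectProduct.inr s) =
        if sgn g.left = some false then ret φ c g * sec φ c s
        else ret φ c g * SemidirectProduct.inr s)

/-- L: `rho` is 2-Lipschitz: if `g, h` are adjacent in `M`, then `rho h = rho g * a * b` where
`a` and `b` are trivial or generators of `N` or inverses of generators; in particular the distance
in `M` (where `N` is embedded by `(f, t) ↦ (ii f, t)`) at most doubles. -/
def ClaimL : Prop :=
  ∀ (g h : MM), wordDist SS (⟨ii (rho g).left, (rho g).right⟩ : MM)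
    ⟨ii (rho h).left, (rho h).right⟩ ≤ 2 * wordDist SS g h

/-- G: the key lower bound. -/
def ClaimG : Prop :=
  ∀ (q : ℤ) (g h : MM) (t t' : TT), rho g = ⟨xx ^ q, t⟩ → rho h = ⟨xx ^ (q + 1), t'⟩ →
    t.norm ≤ 6 * wordDist SS g h

/-- C1: crossing of one edge. -/
def ClaimC1 : Prop :=
  (∀ (q : ℤ) (g h : MM), Adj SS g h → ¬ Pos q (rho g).left → Pos q (rho h).left →
    (rho g).left = xx ^ q ∧ (rho h).left = xx ^ (q + 1) * ii (eta (rho g).right) ∧
    sgn g.left ≠ some true) ∧
  (∀ (q : ℤ) (k : FF), Pos (q + 1) k → Pos q k) ∧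
  (∀ (q : ℤ) (δ : DD), ¬ Pos q (xx ^ q * ii δ)) ∧
  (∀ q j : ℤ, Pos q (xx ^ j) ↔ q < j)

/-- C2: crossing times of a path. -/
def ClaimC2 : Prop :=
  ∀ (n : ℕ) (p : ℕ → MM), IsPath SS n p → ∀ a b : ℤ, a < b → ¬ Pos a (rho (p 0)).left →
    Pos (b - 1) (rho (p n)).left → ∃ (i : ℤ → ℕ) (t : ℤ → TT),
      (∀ q, a ≤ q → q < b → i q < n ∧ rho (p (i q)) = ⟨xx ^ q, t q⟩ ∧
        sgn (p (i q)).left ≠ some true) ∧
      (∀ q, a ≤ q → q + 1 < b → i q < i (q + 1) ∧ (t q).norm ≤ 6 * (i (q + 1) - i q))

/-- S: sparseness. -/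
def ClaimS : Prop :=
  ∀ (f : FF) (t t' : TT) (q q' : ℤ) (R : ℕ), t.norm ≤ R → t'.norm ≤ R →
    f * coc1.u t = xx ^ q → f * coc1.u t' = xx ^ q' → q ≤ q' → (q' - q) ^ 2 ≤ 400 * (R + 1)

/-- V: the part before the first `y` is constant along a path which does not visit `N`. -/
def ClaimV : Prop :=
  ∀ (n : ℕ) (p : ℕ → MM), IsPath SS n p → (∀ i ≤ n, sgn (p i).left ≠ none) →
    pre (p n).left = pre (p 0).left ∧ sgn (p n).left = sgn (p 0).left

/-- B: the bottleneck. -/
def ClaimB : Prop :=
  ∃ C : ℕ, ∀ (n r : ℕ) (p : ℕ → MM) (c a b : ℤ), IsPath SS n p →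
    (∀ i ≤ n, r ≤ wordDist SS (p i) (gx ^ c)) → (∀ q, a ≤ q → q ≤ b → 4 * |q - c| ≤ r) →
    (r : ℤ) < 4 * (b - a) + 4 → ¬ Pos a (rho (p 0)).left → Pos (b - 1) (rho (p n)).left →
    r ^ 3 ≤ C * (n + 1) ^ 2

/-- The line through `1` and `y` in direction `x`. -/
def lineOf {G : Type*} [Group G] (y x : G) (j : ℤ) : G := if j ≤ 0 then x ^ j else y * x ^ (j - 1)

/-- All facts about the group and the line needed for the conclusion. -/
structure Data {G : Type} [Group G] (S : Set G) (y x : G) : Prop where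
  gen : Subgroup.closure S = ⊤
  up : ∀ i j, (wordDist S (lineOf y x i) (lineOf y x j) : ℤ) ≤ |i - j|
  low : ∀ i j, |i - j| ≤ 2 * (wordDist S (lineOf y x i) (lineOf y x j) : ℤ) + 1
  bot : ∃ C : ℕ, ∀ (i m j : ℤ) (n : ℕ) (p : ℕ → G), i ≤ m → m ≤ j → IsPath S n p →
    p 0 = lineOf y x i → p n = lineOf y x j →
    ∀ r : ℕ, (∀ k ≤ n, r ≤ wordDist S (p k) (lineOf y x m)) → r ^ 3 ≤ C * (n + 1) ^ 2
  exo : ∀ n : ℕ, ∃ σ : G, σ * y * σ⁻¹ = y * x ^ n

/-- A: the group `M` has these properties. -/
def ClaimA : Prop := Data SS gy gx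

/-- Quasi-isometries with constant `K`. -/
def IsQIK {G : Type*} [Group G] (S : Set G) (K : ℝ) {X : Type*} [PseudoMetricSpace X]
    (f : G → X) : Prop :=
  (∀ g h, (wordDist S g h : ℝ) / K - K ≤ dist (f g) (f h) ∧
    dist (f g) (f h) ≤ K * wordDist S g h + K) ∧ ∀ x, ∃ g, dist x (f g) ≤ K

/-- Bottleneck property of a line in a metric space, for discrete paths with jumps at most `J`. -/
def Bot {X : Type*} [PseudoMetricSpace X] (l : ℤ → X) (J C : ℝ) : Prop :=
  ∀ (i m j : ℤ) (n : ℕ) (x : ℕ → X), i ≤ m → m ≤ j → x 0 = l i → x n = l j →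
    (∀ k < n, dist (x k) (x (k + 1)) ≤ J) → ∀ r : ℝ, 0 ≤ r →
    (∀ k ≤ n, r ≤ dist (x k) (l m)) → r ^ 3 ≤ C * (n + 1) ^ 2

/-- MA: the bottleneck property passes to quasi-isometric spaces, with uniform constants. -/
def ClaimMA : Prop :=
  ∀ (G : Type) [Group G] (S : Set G) (l : ℤ → G) (C : ℕ), Subgroup.closure S = ⊤ →
    (∀ (i m j : ℤ) (n : ℕ) (p : ℕ → G), i ≤ m → m ≤ j → IsPath S n p → p 0 = l i → p n = l j →
      ∀ r : ℕ, (∀ k ≤ n, r ≤ wordDist S (p k) (l m)) → r ^ 3 ≤ C * (n + 1) ^ 2) →
    ∀ K : ℝ, 1 ≤ K → ∃ CJ : ℝ → ℝ, ∀ (X : Type) [PseudoMetricSpace X] (f : G → X),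
      IsQIK S K f → ∀ g : G, ∀ J : ℝ, Bot (fun i => f (g * l i)) J (CJ J)

/-- Coarsely geodesic spaces: points can be joined by discrete paths with jumps at most `K` of
controlled length. -/
def CG (X : Type*) [PseudoMetricSpace X] (K : ℝ) : Prop :=
  ∀ x y : X, ∃ (n : ℕ) (z : ℕ → X), (n : ℝ) ≤ K * dist x y + K ∧ z 0 = x ∧ z n = y ∧
    ∀ k < n, dist (z k) (z (k + 1)) ≤ K

/-- CG: spaces quasi-isometric to a group are coarsely geodesic, with uniform constants. -/
def ClaimCG : Prop :=
  ∀ K : ℝ, 1 ≤ K → ∃ K' : ℝ, K ≤ K' ∧ ∀ (G : Type) [Group G] (S : Set G),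
    Subgroup.closure S = ⊤ → ∀ (X : Type) [PseudoMetricSpace X] (f : G → X), IsQIK S K f → CG X K'

/-- MB: bottlenecks give the Morse property, with uniform constants. -/
def ClaimMB : Prop :=
  ∀ (K : ℝ) (CJ : ℝ → ℝ) (lam eps : ℝ), 1 ≤ K → 1 ≤ lam → 0 ≤ eps → ∃ B : ℝ, 0 ≤ B ∧
    ∀ (X : Type) [PseudoMetricSpace X] (l : ℤ → X), CG X K →
      (∀ i j : ℤ, dist (l i) (l j) ≤ K * |(i : ℝ) - j| + K) →
      (∀ i j : ℤ, |(i : ℝ) - j| ≤ K * dist (l i) (l j) + K) → (∀ J, Bot l J (CJ J)) →
      ∀ (η : ℝ → X) (c d : ℝ), c ≤ d → IsQG η c d lam eps → ∀ i j : ℤ, i ≤ j →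
        (η c = l i ∧ η d = l j ∨ η c = l j ∧ η d = l i) →
        ∀ t ∈ Icc c d, ∃ m, i ≤ m ∧ m ≤ j ∧ dist (η t) (l m) ≤ B

/-- Z: failure of the local-to-global property. -/
def ClaimZ : Prop :=
  ∀ (G : Type) [Group G] (S : Set G) (y x : G), Data S y x →
    ∀ (X : Type) [PseudoMetricSpace X] (f : G → X), IsQI S f → ¬ HasMLTG X

end MLTG

end

section

/-!
# The line in `M`
-/

open Set

namespace MLTG

theorem A_wordDist_mul {G : Type*} [Group G] (S : Set G) (g a b : G) :
    wordDist S (g * a) (g * b) = wordDist S a b := by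
  unfold wordDist
  congr 1
  group

theorem A_wordDist_comm (hW : ClaimW) {G : Type} [Group G] (S : Set G)
    (hS : Subgroup.closure S = ⊤) (a b : G) : wordDist S a b = wordDist S b a := by
  unfold wordDist
  rw [← (hW G S hS).2.1 (a⁻¹ * b)]
  congr 1
  group

theorem A_adj_mul {G : Type*} [Group G] {S : Set G} {a b : G} (g : G) (h : Adj S a b) :
    Adj S (g * a) (g * b) := by
  rcases h with h | ⟨s, hs, h⟩
  · left; rw [h]
  · right; exact ⟨s, hs, by rw [h, mul_assoc]⟩

theorem A_isPath_mul {G : Type*} [Group G] {S : Set G} {n : ℕ} {p : ℕ → G} (g : G)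
    (h : IsPath S n p) : IsPath S n fun k => g * p k := fun i hi => A_adj_mul g (h i hi)

theorem A_line_adj (j : ℤ) : Adj SS (lineOf gy gx j) (lineOf gy gx (j + 1)) := by
  have hx : gx ∈ SS := Or.inl (Or.inr ⟨none, rfl⟩)
  have hy : gy ∈ SS := Or.inl (Or.inl rfl)
  right
  rcases lt_trichotomy j 0 with h | h | h
  · refine ⟨gx, Or.inl hx, ?_⟩
    unfold lineOf
    rw [if_pos (by omega), if_pos (by omega), zpow_add_one]
  · subst h
    refine ⟨gy, Or.inl hy, ?_⟩
    unfold lineOf
    simp
  · refine ⟨gx, Or.inl hx, ?_⟩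
    unfold lineOf
    rw [if_neg (by omega), if_neg (by omega), mul_assoc, ← zpow_add_one]
    congr 2
    ring

theorem A_up_aux (hW : ClaimW) (hX : ClaimX) (i : ℤ) (n : ℕ) :
    wordDist SS (lineOf gy gx i) (lineOf gy gx (i + n)) ≤ n := by
  have h := (hW MM SS hX.2.1).2.2.2.2.2 n (fun k => lineOf gy gx (i + k)) (fun k _ => by
    have := A_line_adj (i + k)
    push_cast
    rwa [add_assoc] at this) 0 n (Nat.zero_le _) le_rfl
  simpa using h

theorem A_up (hW : ClaimW) (hX : ClaimX) (i j : ℤ) :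
    (wordDist SS (lineOf gy gx i) (lineOf gy gx j) : ℤ) ≤ |i - j| := by
  rcases le_total i j with h | h
  · obtain ⟨n, rfl⟩ := Int.le.dest h
    have := A_up_aux hW hX i n
    have h2 : |i - (i + (n : ℤ))| = n := by
      rw [show i - (i + (n : ℤ)) = -n by ring, abs_neg, Nat.abs_cast]
    rw [h2]
    exact_mod_cast this
  · obtain ⟨n, rfl⟩ := Int.le.dest h
    have := A_up_aux hW hX j n
    rw [A_wordDist_comm hW SS hX.2.1]
    have h2 : |j + (n : ℤ) - j| = n := by
      rw [show j + (n : ℤ) - j = n by ring, Nat.abs_cast]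
    rw [h2]
    exact_mod_cast this

theorem A_gx_zpow (j : ℤ) : gx ^ j = (⟨ii (xx ^ j), 1⟩ : MM) := by
  have h1 : gx = SemidirectProduct.inl (ii xx) := rfl
  rw [h1, ← map_zpow, ← map_zpow]
  rfl

theorem A_rho_gx (hR : ClaimR) (j : ℤ) : rho (gx ^ j) = ⟨xx ^ j, 1⟩ := by
  rw [A_gx_zpow]
  exact (hR (Option Bool) TT act1 coc1).1 _ _

theorem A_gx_zpow' (j : ℤ) : gx ^ j = (SemidirectProduct.inl (ii (xx ^ j)) : MM) := by
  rw [A_gx_zpow]; rfl

theorem A_rho_one (hR : ClaimR) : rho 1 = ⟨1, 1⟩ := by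
  have := A_rho_gx hR 0
  simpa using this

theorem A_rho_yp (hR : ClaimR) (b : Bool) :
    rho (SemidirectProduct.inl (yp b) : MM) = ⟨1, 1⟩ := by
  have h := (hR (Option Bool) TT act1 coc1).2.2.1 1 b
  rw [one_mul] at h
  rw [← A_rho_one hR]
  exact h

theorem A_sgn_yp (hFP : ClaimFP) (b : Bool) : sgn (yp b : PP) = some b := by
  have h0 : sgn (1 : PP) = none := by
    have := ((hFP (Option Bool)).1 1).2
    simpa using this
  have h := (hFP (Option Bool)).2.2.2.2.1 1 b h0
  rwa [one_mul] at h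

theorem A_rho_yp_gx (hR : ClaimR) (hFP : ClaimFP) (b : Bool) (j : ℤ) :
    rho ((SemidirectProduct.inl (yp b) : MM) * gx ^ j) = ⟨1, 1⟩ := by
  rw [A_gx_zpow']
  have h := (hR (Option Bool) TT act1 coc1).2.1 (SemidirectProduct.inl (yp b)) (xx ^ j)
  have h1 : sgn (SemidirectProduct.inl (yp b) : MM).left ≠ none := by
    rw [SemidirectProduct.left_inl, A_sgn_yp hFP]; simp
  rw [← A_rho_yp hR b]
  exact h.trans (if_neg h1)

theorem A_gy : gy = (SemidirectProduct.inl (yp true) : MM) := rfl

theorem A_gy_inv : gy⁻¹ = (SemidirectProduct.inl (yp false) : MM) := by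
  rw [gy, ← map_inv]; rfl

/-- The `F`-part of the image of a point of the line. -/
theorem A_rho_line (hR : ClaimR) (hFP : ClaimFP) (j : ℤ) :
    (rho (lineOf gy gx j)).left = xx ^ (min j 0) := by
  unfold lineOf
  split_ifs with h
  · rw [A_rho_gx hR, min_eq_left h]
  · rw [A_gy, A_rho_yp_gx hR hFP, min_eq_right (by omega), zpow_zero]

theorem A_rho_line' (hR : ClaimR) (hFP : ClaimFP) (j : ℤ) :
    (rho (gy⁻¹ * lineOf gy gx j)).left = xx ^ (max (j - 1) 0) := by
  unfold lineOf
  split_ifs with h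
  · rw [A_gy_inv, A_rho_yp_gx hR hFP, max_eq_right (by omega), zpow_zero]
  · rw [inv_mul_cancel_left, A_rho_gx hR, max_eq_left (by omega)]

/-- A path crosses the edges of the `x`-axis one after the other. -/
theorem A_cross (hC1 : ClaimC1) (hC2 : ClaimC2) (n : ℕ) (p : ℕ → MM) (hp : IsPath SS n p)
    (a b : ℤ) (ha : (rho (p 0)).left = xx ^ a) (hb : (rho (p n)).left = xx ^ b) :
    b - a ≤ n := by
  rcases le_or_gt b a with h | h
  · have : (0 : ℤ) ≤ n := Int.natCast_nonneg n
    omega
  obtain ⟨i, t, h1, h2⟩ := hC2 n p hp a b h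
    (by rw [ha, hC1.2.2.2]; omega) (by rw [hb, hC1.2.2.2]; omega)
  have key : ∀ k : ℕ, a + k < b → (k : ℤ) ≤ i (a + k) := by
    intro k
    induction k with
    | zero => intro _; simp
    | succ k ih =>
      intro hk
      push_cast at hk ⊢
      have h3 := ih (by omega)
      have h4 := (h2 (a + k) (by omega) (by omega)).1
      rw [← add_assoc]
      omega
  obtain ⟨k, hk⟩ := Int.le.dest (show a ≤ b - 1 by omega)
  have h5 := key k (by omega)
  have h6 := (h1 (a + k) (by omega) (by omega)).1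
  omega

theorem A_low_aux (hW : ClaimW) (hX : ClaimX) (hC1 : ClaimC1) (hC2 : ClaimC2) (hR : ClaimR)
    (hFP : ClaimFP) (i j : ℤ) (h : i ≤ j) :
    j - i ≤ 2 * (wordDist SS (lineOf gy gx i) (lineOf gy gx j) : ℤ) + 1 := by
  obtain ⟨p, hp0, hpn, hp⟩ := (hW MM SS hX.2.1).2.2.2.2.1 (lineOf gy gx i) (lineOf gy gx j)
  set n := wordDist SS (lineOf gy gx i) (lineOf gy gx j) with hn
  have h1 := A_cross hC1 hC2 n p hp (min i 0) (min j 0)
    (by rw [hp0, A_rho_line hR hFP]) (by rw [hpn, A_rho_line hR hFP])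
  have h2 := A_cross hC1 hC2 n _ (A_isPath_mul gy⁻¹ hp) (max (i - 1) 0) (max (j - 1) 0)
    (by rw [hp0, A_rho_line' hR hFP]) (by rw [hpn, A_rho_line' hR hFP])
  omega

theorem A_low (hW : ClaimW) (hX : ClaimX) (hC1 : ClaimC1) (hC2 : ClaimC2) (hR : ClaimR)
    (hFP : ClaimFP) (i j : ℤ) :
    |i - j| ≤ 2 * (wordDist SS (lineOf gy gx i) (lineOf gy gx j) : ℤ) + 1 := by
  rcases le_total i j with h | h
  · have := A_low_aux hW hX hC1 hC2 hR hFP i j h
    rw [abs_of_nonpos (by omega)]
    omega
  · have := A_low_aux hW hX hC1 hC2 hR hFP j i h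
    rw [A_wordDist_comm hW SS hX.2.1 (lineOf gy gx i)]
    rw [abs_of_nonneg (by omega)]
    omega

theorem A_bot (hW : ClaimW) (hX : ClaimX) (hB : ClaimB) (hC1 : ClaimC1) (hR : ClaimR)
    (hFP : ClaimFP) : ∃ C : ℕ, ∀ (i m j : ℤ) (n : ℕ) (p : ℕ → MM), i ≤ m → m ≤ j →
    IsPath SS n p → p 0 = lineOf gy gx i → p n = lineOf gy gx j →
    ∀ r : ℕ, (∀ k ≤ n, r ≤ wordDist SS (p k) (lineOf gy gx m)) → r ^ 3 ≤ C * (n + 1) ^ 2 := by
  obtain ⟨C, hC⟩ := hB
  refine ⟨C, fun i m j n p him hmj hp hp0 hpn r hr => ?_⟩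
  have e1 : (r : ℤ) ≤ m - i := by
    have h1 := hr 0 (Nat.zero_le _)
    rw [hp0] at h1
    have h2 := A_up hW hX i m
    rw [abs_of_nonpos (by omega)] at h2
    have h3 : (r : ℤ) ≤ wordDist SS (lineOf gy gx i) (lineOf gy gx m) := by exact_mod_cast h1
    omega
  have e2 : (r : ℤ) ≤ j - m := by
    have h1 := hr n le_rfl
    rw [hpn] at h1
    have h2 := A_up hW hX j m
    rw [abs_of_nonneg (by omega)] at h2
    have h3 : (r : ℤ) ≤ wordDist SS (lineOf gy gx j) (lineOf gy gx m) := by exact_mod_cast h1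
    omega
  rcases le_or_gt m 0 with hm | hm
  · refine hC n r p m (m - (r : ℤ) / 4) m hp ?_ ?_ ?_ ?_ ?_
    · intro k hk
      have := hr k hk
      rwa [lineOf, if_pos hm] at this
    · intro q hq1 hq2
      rw [abs_of_nonpos (by omega)]
      omega
    · omega
    · rw [hp0, A_rho_line hR hFP, hC1.2.2.2]
      omega
    · rw [hpn, A_rho_line hR hFP, hC1.2.2.2]
      omega
  · refine hC n r (fun k => gy⁻¹ * p k) (m - 1) (m - 1) (m - 1 + (r : ℤ) / 4)
      (A_isPath_mul gy⁻¹ hp) ?_ ?_ ?_ ?_ ?_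
    · intro k hk
      have := hr k hk
      rw [lineOf, if_neg (by omega), ← A_wordDist_mul SS gy⁻¹, inv_mul_cancel_left] at this
      exact this
    · intro q hq1 hq2
      rw [abs_of_nonneg (by omega)]
      omega
    · omega
    · show ¬ Pos (m - 1) (rho (gy⁻¹ * p 0)).left
      rw [hp0, A_rho_line' hR hFP, hC1.2.2.2]
      omega
    · show Pos _ (rho (gy⁻¹ * p n)).left
      rw [hpn, A_rho_line' hR hFP, hC1.2.2.2]
      omega

theorem thm_A (hW : ClaimW) (hX : ClaimX) (hB : ClaimB) (hC1 : ClaimC1) (hC2 : ClaimC2)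
    (hR : ClaimR) (hFP : ClaimFP) : ClaimA where
  gen := hX.2.1
  up := A_up hW hX
  low := A_low hW hX hC1 hC2 hR hFP
  bot := A_bot hW hX hB hC1 hR hFP
  exo := hX.2.2

end MLTG

end

section

/-!
# MP_c95a57_al, item B (helper88): the bottleneck
-/

open Set

namespace MLTG

namespace ItemB

/-- word metric facts for `MM` and `SS` -/
structure WD : Prop where
  one : wordLen SS (1 : MM) = 0
  inv : ∀ g : MM, wordLen SS g⁻¹ = wordLen SS g
  mul : ∀ g h : MM, wordLen SS (g * h) ≤ wordLen SS g + wordLen SS h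
  gen : ∀ g : MM, Adj SS 1 g → wordLen SS g ≤ 1
  path : ∀ (n : ℕ) (p : ℕ → MM), IsPath SS n p → ∀ i j, i ≤ j → j ≤ n →
      wordDist SS (p i) (p j) ≤ j - i

lemma wd (hW : ClaimW) (hX : ClaimX) : WD := by
  obtain ⟨h1, h2, h3, h4, -, h6⟩ := hW MM SS hX.2.1
  exact ⟨(h1 1).2 rfl, h2, h3, h4, h6⟩

lemma WD.tri (w : WD) (g h k : MM) :
    wordDist SS g k ≤ wordDist SS g h + wordDist SS h k := by
  unfold wordDist
  have := w.mul (g⁻¹ * h) (h⁻¹ * k)
  rwa [show g⁻¹ * h * (h⁻¹ * k) = g⁻¹ * k by group] at this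

lemma WD.symm (w : WD) (g h : MM) : wordDist SS g h = wordDist SS h g := by
  unfold wordDist
  have := w.inv (g⁻¹ * h)
  rwa [show (g⁻¹ * h)⁻¹ = h⁻¹ * g by group, eq_comm] at this

lemma WD.gx_pow (w : WD) (n : ℕ) : wordLen SS (gx ^ n) ≤ n := by
  induction n with
  | zero => simp [w.one]
  | succ n ih =>
    rw [pow_succ]
    have h1 := w.mul (gx ^ n) gx
    have h2 : wordLen SS gx ≤ 1 := w.gen _ (Or.inr ⟨gx, Or.inl (by
      unfold SS
      exact Or.inl (Or.inr ⟨none, rfl⟩)), by simp⟩)
    omega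

lemma WD.gx_zpow (w : WD) (j : ℤ) : (wordLen SS (gx ^ j) : ℤ) ≤ |j| := by
  rcases le_total 0 j with h | h
  · lift j to ℕ using h
    rw [zpow_natCast, abs_of_nonneg (by positivity)]
    exact_mod_cast w.gx_pow j
  · obtain ⟨k, rfl⟩ : ∃ k : ℕ, j = -(k : ℤ) := ⟨j.natAbs, by omega⟩
    rw [zpow_neg, zpow_natCast, w.inv, abs_neg, abs_of_nonneg (by positivity)]
    exact_mod_cast w.gx_pow k

lemma WD.inr_mk (w : WD) (L : List (Option Bool × Bool)) :
    wordLen SS (SemidirectProduct.inr (FreeGroup.mk L) : MM) ≤ L.length := by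
  induction L with
  | nil =>
    have : (FreeGroup.mk [] : TT) = 1 := rfl
    rw [this, map_one, w.one]
    simp
  | cons z L ih =>
    have h0 : (FreeGroup.mk (z :: L) : TT) = FreeGroup.mk [z] * FreeGroup.mk L := by
      rw [FreeGroup.mul_mk]; rfl
    rw [h0, map_mul]
    have h1 := w.mul (SemidirectProduct.inr (FreeGroup.mk [z]) : MM)
      (SemidirectProduct.inr (FreeGroup.mk L))
    have h2 : wordLen SS (SemidirectProduct.inr (FreeGroup.mk [z]) : MM) ≤ 1 := by
      obtain ⟨z, b⟩ := z
      have hz : gt z ∈ SS := Or.inr ⟨z, rfl⟩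
      cases b with
      | true =>
        have : (FreeGroup.mk [(z, true)] : TT) = FreeGroup.of z := rfl
        rw [this]
        exact w.gen _ (Or.inr ⟨gt z, Or.inl hz, by rw [one_mul]; rfl⟩)
      | false =>
        have : (FreeGroup.mk [(z, false)] : TT) = (FreeGroup.of z)⁻¹ := by
          rw [FreeGroup.of, FreeGroup.inv_mk]; rfl
        rw [this, map_inv, w.inv]
        exact w.gen _ (Or.inr ⟨gt z, Or.inl hz, by rw [one_mul]; rfl⟩)
    simp only [List.length_cons]
    omega

lemma WD.inr_norm (w : WD) (t : TT) :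
    wordLen SS (SemidirectProduct.inr t : MM) ≤ t.norm := by
  have := w.inr_mk t.toWord
  rwa [FreeGroup.mk_toWord] at this

/-- the point of `N` in `M` -/
def img (g : NN) : MM := ⟨ii g.left, g.right⟩

lemma gx_zpow_left (q : ℤ) : (gx ^ q : MM) = SemidirectProduct.inl (ii (xx ^ q)) := by
  have : (gx : MM) = SemidirectProduct.inl (ii xx) := rfl
  rw [this, map_zpow, map_zpow]

lemma img_eq (q : ℤ) (t : TT) : img ⟨xx ^ q, t⟩ = gx ^ q * SemidirectProduct.inr t := by
  rw [gx_zpow_left]
  rw [← SemidirectProduct.mk_eq_inl_mul_inr]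
  rfl

/-- distance from a low point to the centre -/
lemma WD.low (w : WD) (q c : ℤ) (t : TT) :
    (wordDist SS (img ⟨xx ^ q, t⟩) (gx ^ c) : ℤ) ≤ |q - c| + t.norm := by
  rw [img_eq]
  unfold wordDist
  have h0 : (gx ^ q * SemidirectProduct.inr t : MM)⁻¹ * gx ^ c =
      (SemidirectProduct.inr t)⁻¹ * gx ^ (c - q) := by
    rw [mul_inv_rev, mul_assoc, ← zpow_neg, ← zpow_add]
    congr 2
    ring
  rw [h0]
  have h1 := w.mul (SemidirectProduct.inr t : MM)⁻¹ (gx ^ (c - q))
  rw [w.inv] at h1
  have h2 := w.inr_norm t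
  have h3 := w.gx_zpow (c - q)
  rw [abs_sub_comm q c]
  have h1' : (wordLen SS ((SemidirectProduct.inr t : MM)⁻¹ * gx ^ (c - q)) : ℤ) ≤
    wordLen SS (SemidirectProduct.inr t : MM) + wordLen SS (gx ^ (c - q)) := by exact_mod_cast h1
  have h2' : (wordLen SS (SemidirectProduct.inr t : MM) : ℤ) ≤ t.norm := by exact_mod_cast h2
  linarith

/-- points of `M` without stable letter are in the image of `N` -/
lemma eq_img (hR : ClaimR) (hFP : ClaimFP) (g : MM) (hg : sgn g.left = none) :
    g = img (rho g) := by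
  have h1 : g.left = ii (pre g.left) := (hFP (Option Bool)).2.1 g.left hg
  have h2 : g = (⟨ii (pre g.left), g.right⟩ : MM) := SemidirectProduct.ext h1 rfl
  have h3 : rho g = ⟨pre g.left, g.right⟩ := by
    have h4 := (hR (Option Bool) TT act1 coc1).1 (pre g.left) g.right
    have h5 : rho (⟨ii (pre g.left), g.right⟩ : MM) = ⟨pre g.left, g.right⟩ := h4
    rwa [← h2] at h5
  rw [h3]
  exact h2

/-- monotonicity of the crossing times -/
lemma mono_i {a b : ℤ} {i : ℤ → ℕ}
    (hi : ∀ q, a ≤ q → q + 1 < b → i q < i (q + 1)) (q : ℤ) (hq : a ≤ q) (k : ℕ)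
    (hk : q + k < b) : i q ≤ i (q + k) := by
  induction k with
  | zero => simp
  | succ k ih =>
    have h1 := ih (by push_cast at hk; linarith)
    have h2 := hi (q + k) (by linarith [Int.natCast_nonneg k]) (by push_cast at hk; linarith)
    have h3 : q + ((k + 1 : ℕ) : ℤ) = q + k + 1 := by push_cast; ring
    rw [h3]
    omega

/-- two low crossings without visiting `N` nearby are close -/
lemma two_low (w : WD) (hS : ClaimS) (hV : ClaimV) (hL : ClaimL) (hR : ClaimR) (hFP : ClaimFP)
    {n r : ℕ} {p : ℕ → MM} {c q q' : ℤ} (hr : 0 < r) (hp : IsPath SS n p)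
    (hfar : ∀ i ≤ n, r ≤ wordDist SS (p i) (gx ^ c))
    (hqc : 4 * |q - c| ≤ r) (hqc' : 4 * |q' - c| ≤ r) (hqq : q ≤ q')
    {j j' : ℕ} (hjj : j ≤ j') (hj' : j' ≤ n) {t t' : TT}
    (h1 : rho (p j) = ⟨xx ^ q, t⟩) (h1' : rho (p j') = ⟨xx ^ q', t'⟩)
    (h2 : sgn (p j).left ≠ some true) (h2' : sgn (p j').left ≠ some true)
    (h3 : 4 * t.norm ≤ r) (h3' : 4 * t'.norm ≤ r)
    (hB : 400 * ((r : ℤ) + 1) < (q' - q) ^ 2) : r ≤ 2 * (j' - j) := by
  -- distances of the images from the centre
  have d1 : 2 * wordDist SS (img (rho (p j))) (gx ^ c) ≤ r := by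
    have := w.low q c t
    rw [h1]
    have h4 : (4 * t.norm : ℤ) ≤ r := by exact_mod_cast h3
    have : (2 * wordDist SS (img ⟨xx ^ q, t⟩) (gx ^ c) : ℤ) ≤ r := by linarith
    exact_mod_cast this
  have d1' : 2 * wordDist SS (img (rho (p j'))) (gx ^ c) ≤ r := by
    have := w.low q' c t'
    rw [h1']
    have h4 : (4 * t'.norm : ℤ) ≤ r := by exact_mod_cast h3'
    have : (2 * wordDist SS (img ⟨xx ^ q', t'⟩) (gx ^ c) : ℤ) ≤ r := by linarith
    exact_mod_cast this
  by_cases hex : ∃ i, j ≤ i ∧ i ≤ j' ∧ sgn (p i).left = none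
  · obtain ⟨i, hi1, hi2, hi3⟩ := hex
    have e1 : p i = img (rho (p i)) := eq_img hR hFP _ hi3
    have f1 := hfar i (by omega)
    have a1 : wordDist SS (img (rho (p i))) (img (rho (p j))) ≤ 2 * wordDist SS (p i) (p j) :=
      hL (p i) (p j)
    have a2 : wordDist SS (img (rho (p i))) (img (rho (p j'))) ≤ 2 * wordDist SS (p i) (p j') :=
      hL (p i) (p j')
    have b1 : wordDist SS (p i) (p j) ≤ i - j := by
      rw [w.symm]
      exact w.path n p hp j i hi1 (by omega)
    have b2 : wordDist SS (p i) (p j') ≤ j' - i := w.path n p hp i j' hi2 hj'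
    have c1 := w.tri (img (rho (p i))) (img (rho (p j))) (gx ^ c)
    have c2 := w.tri (img (rho (p i))) (img (rho (p j'))) (gx ^ c)
    rw [← e1] at c1 c2 a1 a2
    omega
  · exfalso
    push Not at hex
    -- both are `some false`
    have s1 : sgn (p j).left = some false := by
      have := hex j le_rfl hjj
      match hs : sgn (p j).left with
      | none => exact absurd hs this
      | some true => exact absurd hs h2
      | some false => rfl
    have s1' : sgn (p j').left = some false := by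
      have := hex j' hjj le_rfl
      match hs : sgn (p j').left with
      | none => exact absurd hs this
      | some true => exact absurd hs h2'
      | some false => rfl
    have g1 : rho (p j) = ⟨pre (p j).left * coc1.u (p j).right, (p j).right⟩ := by
      show ret act1 coc1 (p j) = _
      unfold ret
      rw [if_pos s1]
    have g1' : rho (p j') = ⟨pre (p j').left * coc1.u (p j').right, (p j').right⟩ := by
      show ret act1 coc1 (p j') = _
      unfold ret
      rw [if_pos s1']
    rw [g1] at h1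
    rw [g1'] at h1'
    have l1 : pre (p j).left * coc1.u (p j).right = xx ^ q := congrArg SemidirectProduct.left h1
    have r1 : (p j).right = t := congrArg SemidirectProduct.right h1
    have l1' : pre (p j').left * coc1.u (p j').right = xx ^ q' :=
      congrArg SemidirectProduct.left h1'
    have r1' : (p j').right = t' := congrArg SemidirectProduct.right h1'
    have hv := hV (j' - j) (fun k => p (j + k)) (by
      intro k hk
      have := hp (j + k) (by omega)
      exact this) (by
      intro k hk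
      exact hex (j + k) (by omega) (by omega))
    simp only [add_zero] at hv
    rw [show j + (j' - j) = j' by omega] at hv
    rw [hv.1, r1'] at l1'
    rw [r1] at l1
    have := hS (pre (p j).left) t t' q q' r (by omega) (by omega) l1 l1' hqq
    push_cast at this
    linarith

end ItemB

open ItemB in
/-- [c95a57 B] the bottleneck -/
theorem thm_B (hW : ClaimW) (hX : ClaimX) (hC2 : ClaimC2) (hS : ClaimS) (hV : ClaimV)
    (hL : ClaimL) (hR : ClaimR) (hFP : ClaimFP) : ClaimB := by
  have w := wd hW hX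
  refine ⟨50176 ^ 3 + 71368704, fun n r p c a b hp hfar hqc hrb ha hb => ?_⟩
  rcases Nat.eq_zero_or_pos r with hr0 | hr
  · subst hr0
    simp
  have hpos : 1 ≤ (n + 1) ^ 2 := Nat.one_le_pow _ _ (by omega)
  rcases le_or_gt b a with hba | hab
  · have : r < 4 := by omega
    have h27 : r ^ 3 ≤ 4 ^ 3 := Nat.pow_le_pow_left (by omega) 3
    calc r ^ 3 ≤ 4 ^ 3 := h27
      _ ≤ (50176 ^ 3 + 71368704) * 1 := by norm_num
      _ ≤ (50176 ^ 3 + 71368704) * (n + 1) ^ 2 := Nat.mul_le_mul_left _ hpos
  obtain ⟨i, t, hi1, hi2⟩ := hC2 n p hp a b hab ha hb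
  have hmono := mono_i (i := i) (a := a) (b := b) (fun q hq hq' => (hi2 q hq hq').1)
  -- the block length
  set B : ℕ := Nat.sqrt (400 * (r + 1)) + 1 with hBdef
  have hB1 : 400 * (r + 1) < B ^ 2 := by
    have := Nat.lt_succ_sqrt (400 * (r + 1))
    rw [hBdef, pow_two]
    exact this
  have hB2 : (B - 1) ^ 2 ≤ 400 * (r + 1) := by
    rw [hBdef, Nat.add_sub_cancel]
    exact Nat.sqrt_le' _
  have step : ∀ q : ℤ, a ≤ q → q + (B + 1) < b → r + 24 * i q ≤ 24 * i (q + (B + 1)) := by
    intro q hq hqb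
    have m1 : i (q + 1) ≤ i (q + (B + 1)) := by
      have := hmono (q + 1) (by linarith) B (by linarith)
      rwa [show q + 1 + (B : ℤ) = q + (B + 1) by ring] at this
    have m2 : i q ≤ i (q + B) := hmono q hq B (by linarith)
    have hbq : q + B < b := by linarith
    have haB : a ≤ q + B := by linarith [Int.natCast_nonneg B]
    obtain ⟨n1, n2⟩ := hi2 q hq (by linarith [Int.natCast_nonneg B])
    obtain ⟨n1', n2'⟩ := hi2 (q + B) haB (by linarith)
    rw [show q + (B : ℤ) + 1 = q + (B + 1) by ring] at n1' n2'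
    by_cases hh : r < 4 * (t q).norm
    · omega
    by_cases hh' : r < 4 * (t (q + B)).norm
    · omega
    push Not at hh hh'
    obtain ⟨x1, x2, x3⟩ := hi1 q hq (by linarith [Int.natCast_nonneg B])
    obtain ⟨x1', x2', x3'⟩ := hi1 (q + B) haB hbq
    have := two_low w hS hV hL hR hFP hr hp hfar (hqc q hq (by linarith [Int.natCast_nonneg B]))
      (hqc (q + B) haB (by linarith)) (by linarith [Int.natCast_nonneg B]) m2 (by omega)
      x2 x2' x3 x3' hh hh' (by
        rw [show q + (B : ℤ) - q = B by ring]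
        exact_mod_cast hB1)
    omega
  -- iterate
  have iter : ∀ m : ℕ, a + m * (B + 1) < b → m * r ≤ 24 * i (a + m * (B + 1)) := by
    intro m
    induction m with
    | zero => intro _; simp
    | succ m ih =>
      intro hm
      push_cast at hm
      have hm' : a + (m : ℤ) * (B + 1) + (B + 1) < b := by linarith [hm]
      have h1 := ih (by linarith [Int.natCast_nonneg B])
      have h2 := step (a + m * (B + 1)) (by
        have : (0 : ℤ) ≤ m * (B + 1) := by positivity
        linarith) hm'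
      have h3 : a + ((m + 1 : ℕ) : ℤ) * (B + 1) = a + m * (B + 1) + (B + 1) := by
        push_cast; ring
      rw [h3]
      have h4 : (m + 1) * r = m * r + r := by ring
      omega
  obtain ⟨L, hL'⟩ : ∃ L : ℕ, b - a = L + 1 := ⟨(b - a - 1).toNat, by omega⟩
  set m : ℕ := L / (B + 1) with hm
  have hm1 : m * (B + 1) ≤ L := Nat.div_mul_le_self _ _
  have hm2 : L < (m + 1) * (B + 1) := by
    have := Nat.lt_div_mul_add (a := L) (b := B + 1) (by omega)
    rw [← hm] at this
    linarith [this]
  have hmn : m * r ≤ 24 * n := by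
    have hlt : a + (m : ℤ) * (B + 1) < b := by
      have : ((m * (B + 1) : ℕ) : ℤ) ≤ L := by exact_mod_cast hm1
      push_cast at this
      linarith
    have h1 := iter m hlt
    have h2 := (hi1 (a + m * (B + 1)) (by
      have : (0 : ℤ) ≤ m * (B + 1) := by positivity
      linarith) hlt).1
    omega
  have hrL : r ≤ 4 * ((m + 1) * (B + 1)) + 3 := by
    have : (r : ℤ) < 4 * (L + 1) + 4 := by rw [← hL']; exact hrb
    omega
  -- numerics
  have hBr : (B + 1) ^ 2 ≤ 1024 * r := by
    obtain ⟨s, hs⟩ : ∃ s, B = s + 1 := ⟨Nat.sqrt (400 * (r + 1)), hBdef⟩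
    rw [hs] at hB2 ⊢
    rw [Nat.add_sub_cancel] at hB2
    have h800 : s ^ 2 ≤ 800 * r := by nlinarith
    have : (s + 1 + 1) ^ 2 = s ^ 2 + 4 * s + 4 := by ring
    rw [this]
    have h4s : 4 * s ≤ 220 * r := by
      by_contra hc
      push Not at hc
      have h1 : 55 * r < s := by omega
      have h2 : (55 * r) * (55 * r) ≤ s * s := Nat.mul_le_mul h1.le h1.le
      nlinarith
    omega
  rcases Nat.eq_zero_or_pos m with hm0 | hmpos
  · have h1 : r ≤ 7 * (B + 1) := by
      rw [hm0] at hrL
      omega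
    have h2 : r * r ≤ 50176 * r := by
      have : r * r ≤ (7 * (B + 1)) * (7 * (B + 1)) := Nat.mul_le_mul h1 h1
      nlinarith
    have h3 : r ≤ 50176 := Nat.le_of_mul_le_mul_right h2 hr
    calc r ^ 3 ≤ 50176 ^ 3 := Nat.pow_le_pow_left h3 3
      _ ≤ (50176 ^ 3 + 71368704) * 1 := by norm_num
      _ ≤ (50176 ^ 3 + 71368704) * (n + 1) ^ 2 := Nat.mul_le_mul_left _ hpos
  · have h1 : r ≤ 11 * (m * (B + 1)) := by
      have : 1 * 1 ≤ m * (B + 1) := Nat.mul_le_mul hmpos (by omega)
      have h2 : (m + 1) * (B + 1) ≤ 2 * (m * (B + 1)) := by nlinarith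
      omega
    have h2 : r ^ 2 ≤ 264 * ((B + 1) * n) := by
      calc r ^ 2 = r * r := by ring
        _ ≤ (11 * (m * (B + 1))) * r := Nat.mul_le_mul_right _ h1
        _ = 11 * (B + 1) * (m * r) := by ring
        _ ≤ 11 * (B + 1) * (24 * n) := Nat.mul_le_mul_left _ hmn
        _ = 264 * ((B + 1) * n) := by ring
    have h3 : r * r ^ 3 ≤ r * (71368704 * n ^ 2) := by
      calc r * r ^ 3 = r ^ 2 * r ^ 2 := by ring
        _ ≤ (264 * ((B + 1) * n)) * (264 * ((B + 1) * n)) := Nat.mul_le_mul h2 h2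
        _ = 69696 * ((B + 1) ^ 2 * n ^ 2) := by ring
        _ ≤ 69696 * ((1024 * r) * n ^ 2) :=
          Nat.mul_le_mul_left _ (Nat.mul_le_mul_right _ hBr)
        _ = r * (71368704 * n ^ 2) := by ring
    have h4 : r ^ 3 ≤ 71368704 * n ^ 2 := Nat.le_of_mul_le_mul_left h3 hr
    have h5 : n ^ 2 ≤ (n + 1) ^ 2 := Nat.pow_le_pow_left (by omega) 2
    calc r ^ 3 ≤ 71368704 * n ^ 2 := h4
      _ ≤ 71368704 * (n + 1) ^ 2 := Nat.mul_le_mul_left _ h5
      _ ≤ (50176 ^ 3 + 71368704) * (n + 1) ^ 2 := Nat.mul_le_mul_right _ (by norm_num)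

end MLTG

end

section

/-!
# C1: crossing of one edge
-/

open Set

namespace MLTG

section pow

variable (hFP : ClaimFP)

include hFP

theorem c1_sgn_one (α : Type) [DecidableEq α] :
    sgn (1 : FreeGroup (Option α)) = none ∧ pre (1 : FreeGroup (Option α)) = 1 := by
  have h := (hFP α).1 1
  rw [map_one] at h
  exact ⟨h.2, h.1⟩

theorem c1_step (α : Type) [DecidableEq α] (k : FreeGroup (Option α)) (b : Bool)
    (hk : sgn k = some b) : sgn (k * yp b) = some b ∧ pre (k * yp b) = pre k := by
  obtain ⟨_, _, _, h4, _, h6, h7⟩ := hFP α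
  refine ⟨?_, h4 k b⟩
  have hne : sgn k ≠ none := by rw [hk]; simp
  by_cases hn : sgn (k * yp b) = none
  · have := h6 k b hne hn
    rw [hk] at this
    cases b <;> simp at this
  · rw [h7 k b hne hn, hk]

theorem c1_pow (α : Type) [DecidableEq α] (b : Bool) (n : ℕ) :
    sgn ((yp b : FreeGroup (Option α)) ^ (n + 1)) = some b ∧
      pre ((yp b : FreeGroup (Option α)) ^ (n + 1)) = 1 := by
  obtain ⟨h1, h1'⟩ := c1_sgn_one hFP α
  induction n with
  | zero =>
    have h5 := (hFP α).2.2.2.2.1 1 b h1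
    have h4 := (hFP α).2.2.2.1 1 b
    rw [one_mul] at h5 h4
    rw [zero_add, pow_one]
    exact ⟨h5, h4.trans h1'⟩
  | succ n ih =>
    obtain ⟨h2, h3⟩ := c1_step hFP α _ b ih.1
    rw [pow_succ _ (n + 1)]
    exact ⟨h2, h3.trans ih.2⟩

theorem c1_zpow (j : ℤ) : (sgn (xx ^ j) = some true ∧ pre (xx ^ j) = 1) ↔ 0 < j := by
  have hx : xx = (yp true : FreeGroup (Option Bool)) := by simp [xx, yp]
  constructor
  · rintro ⟨h, _⟩
    by_contra hj
    push Not at hj
    rcases hj.lt_or_eq with hj | hj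
    · obtain ⟨n, hn⟩ : ∃ n : ℕ, j = -((n : ℤ) + 1) := ⟨(-j - 1).toNat, by omega⟩
      have e : xx ^ j = (yp false : FreeGroup (Option Bool)) ^ (n + 1) := by
        rw [hn, zpow_neg, ← inv_zpow]
        have : xx⁻¹ = (yp false : FreeGroup (Option Bool)) := by simp [xx, yp]
        rw [this]
        exact_mod_cast zpow_natCast (yp false : FreeGroup (Option Bool)) (n + 1)
      rw [e, (c1_pow hFP Bool false n).1] at h
      simp at h
    · rw [hj, zpow_zero, (c1_sgn_one hFP Bool).1] at h
      simp at h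
  · intro hj
    obtain ⟨n, hn⟩ : ∃ n : ℕ, j = (n : ℤ) + 1 := ⟨(j - 1).toNat, by omega⟩
    have e : xx ^ j = (yp true : FreeGroup (Option Bool)) ^ (n + 1) := by
      rw [hn, hx]
      exact_mod_cast zpow_natCast (yp true : FreeGroup (Option Bool)) (n + 1)
    rw [e]
    exact c1_pow hFP Bool true n

theorem c1_left_none (k : FF) (hk : sgn k = none) :
    sgn (xx * k) = some true ∧ pre (xx * k) = 1 := by
  have hx : xx = (yp true : FreeGroup (Option Bool)) := by simp [xx, yp]
  obtain ⟨h1, h2, h3, h4, h5, h6, h7⟩ := hFP Bool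
  have hs : sgn xx = some true ∧ pre xx = 1 := by
    have := c1_pow hFP Bool true 0
    rw [zero_add, pow_one, ← hx] at this
    exact this
  rw [h2 k hk]
  have := h3 xx (pre k) (by rw [hs.1]; simp)
  exact ⟨this.2.trans hs.1, this.1.trans hs.2⟩

theorem c1_cancel (κ : FF) (_h : sgn (xx * κ) = some true) (hp : pre (xx * κ) = 1)
    (hn : sgn (xx * κ * yp false) = none) : κ = 1 := by
  obtain ⟨h1, h2, h3, h4, h5, h6, h7⟩ := hFP Bool
  have e := h2 _ hn
  set g := pre (xx * κ * yp false) with hg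
  have e2 : xx * κ = ii g * yp true := by
    rw [← e]
    simp [yp]
  have e3 : pre (ii g * yp true) = 1 := by rw [← e2, hp]
  rw [h4, (h1 g).1] at e3
  rw [e3, map_one, one_mul] at e2
  have hx : xx = (yp true : FreeGroup (Option Bool)) := by simp [xx, yp]
  rw [← hx] at e2
  exact mul_eq_left.mp e2

theorem c1_left_list (L : List (Option Bool × Bool)) :
    ¬ (sgn (FreeGroup.mk L) = some false ∧ pre (FreeGroup.mk L) = 1) →
      sgn (xx * FreeGroup.mk L) = some true ∧ pre (xx * FreeGroup.mk L) = 1 := by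
  obtain ⟨h1, h2, h3, h4, h5, h6, h7⟩ := hFP Bool
  induction L using List.reverseRecOn with
  | nil =>
    intro _
    apply c1_left_none hFP
    have : (FreeGroup.mk ([] : List (Option Bool × Bool))) = 1 := rfl
    rw [this]
    exact (c1_sgn_one hFP Bool).1
  | append_singleton L a ih =>
    intro hne
    have e : FreeGroup.mk (L ++ [a]) = FreeGroup.mk L * FreeGroup.mk [a] := by
      rw [FreeGroup.mul_mk]
    rw [e] at hne ⊢
    set k : FF := FreeGroup.mk L with hk
    by_cases hn : sgn (k * FreeGroup.mk [a]) = none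
    · exact c1_left_none hFP _ hn
    rcases a with ⟨o, b⟩
    rcases o with _ | a
    · -- stable letter
      have ea : (FreeGroup.mk [((none : Option Bool), b)] : FF) = yp b := by
        cases b
        · simp [yp, yy, FreeGroup.of, FreeGroup.inv_mk, FreeGroup.invRev]
        · simp [yp, yy, FreeGroup.of]
      rw [ea] at hne hn ⊢
      rw [h4] at hne
      rw [← mul_assoc]
      by_cases hk0 : sgn k = none
      · obtain ⟨g1, g2⟩ := c1_left_none hFP k hk0
        rw [h5 k b hk0] at hne
        cases b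
        · -- b = false
          have hp : pre k ≠ 1 := fun h => hne ⟨rfl, h⟩
          have hnn : sgn (xx * k * yp false) ≠ none := by
            intro hcon
            have := c1_cancel hFP k g1 g2 hcon
            rw [this] at hp
            exact hp (c1_sgn_one hFP Bool).2
          refine ⟨?_, ?_⟩
          · rw [h7 _ _ (by rw [g1]; simp) hnn, g1]
          · rw [h4, g2]
        · obtain ⟨g3, g4⟩ := c1_step hFP Bool _ true g1
          exact ⟨g3, g4.trans g2⟩
      · have hs := h7 k b hk0 hn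
        rw [hs] at hne
        obtain ⟨g1, g2⟩ := ih hne
        cases b
        · have hnn : sgn (xx * k * yp false) ≠ none := by
            intro hcon
            have := c1_cancel hFP k g1 g2 hcon
            rw [this] at hk0
            exact hk0 (c1_sgn_one hFP Bool).1
          refine ⟨?_, ?_⟩
          · rw [h7 _ _ (by rw [g1]; simp) hnn, g1]
          · rw [h4, g2]
        · obtain ⟨g3, g4⟩ := c1_step hFP Bool _ true g1
          exact ⟨g3, g4.trans g2⟩
    · have ea : (FreeGroup.mk [(some a, b)] : FF) = ii (FreeGroup.mk [(a, b)]) := by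
        simp [ii]
      rw [ea] at hne hn ⊢
      have hk0 : sgn k ≠ none := by
        intro hk0
        apply hn
        rw [h2 k hk0, ← map_mul]
        exact (h1 _).2
      obtain ⟨g3, g4⟩ := h3 k (FreeGroup.mk [(a, b)]) hk0
      rw [g3, g4] at hne
      obtain ⟨g1, g2⟩ := ih hne
      rw [← mul_assoc]
      obtain ⟨g5, g6⟩ := h3 (xx * k) (FreeGroup.mk [(a, b)]) (by rw [g1]; simp)
      exact ⟨g6.trans g1, g5.trans g2⟩

theorem c1_left (k : FF) (hk : sgn k = some true) :
    sgn (xx * k) = some true ∧ pre (xx * k) = 1 := by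
  obtain ⟨L, rfl⟩ : ∃ L, FreeGroup.mk L = k := ⟨k.toWord, FreeGroup.mk_toWord⟩
  apply c1_left_list hFP L
  rintro ⟨h, _⟩
  rw [hk] at h
  simp at h

/-- Multiplication by an element of `D`. -/
theorem c1_ii (κ : FF) (δ : DD) (h : ¬ (sgn κ = some true ∧ pre κ = 1)) :
    ¬ (sgn (κ * ii δ) = some true ∧ pre (κ * ii δ) = 1) := by
  obtain ⟨h1, h2, h3, h4, h5, h6, h7⟩ := hFP Bool
  by_cases hk : sgn κ = none
  · rw [h2 κ hk, ← map_mul, (h1 _).2]
    simp
  · obtain ⟨g1, g2⟩ := h3 κ δ hk
    rwa [g1, g2]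

/-- Multiplication by `δ x⁻¹`. -/
theorem c1_neg (κ : FF) (δ : DD) (h : ¬ (sgn κ = some true ∧ pre κ = 1)) :
    ¬ (sgn (κ * (xx * ii δ)⁻¹) = some true ∧ pre (κ * (xx * ii δ)⁻¹) = 1) := by
  obtain ⟨h1, h2, h3, h4, h5, h6, h7⟩ := hFP Bool
  have e : κ * (xx * ii δ)⁻¹ = (κ * ii δ⁻¹) * yp false := by
    simp [yp, xx, mul_assoc]
  rw [e]
  have hc := c1_ii hFP κ δ⁻¹ h
  set κ1 := κ * ii δ⁻¹
  rintro ⟨g1, g2⟩
  rw [h4] at g2
  by_cases hk : sgn κ1 = none
  · rw [h5 _ _ hk] at g1
    simp at g1
  · have := h7 κ1 false hk (by rw [g1]; simp)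
    rw [g1] at this
    exact hc ⟨this.symm, g2⟩

/-- Multiplication by `x δ`. -/
theorem c1_pos (κ : FF) (δ : DD) (h : ¬ (sgn κ = some true ∧ pre κ = 1))
    (h' : sgn (κ * (xx * ii δ)) = some true ∧ pre (κ * (xx * ii δ)) = 1) : κ = 1 := by
  obtain ⟨h1, h2, h3, h4, h5, h6, h7⟩ := hFP Bool
  have e : κ * (xx * ii δ) = (κ * yp true) * ii δ := by
    simp [yp, xx, mul_assoc]
  rw [e] at h'
  have hk2 : sgn (κ * yp true) ≠ none := by
    intro hn
    have := (h1 (pre (κ * yp true) * δ)).2
    rw [map_mul, ← h2 _ hn, h'.1] at this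
    simp at this
  obtain ⟨g1, g2⟩ := h3 _ δ hk2
  rw [g1, g2] at h'
  by_cases hk : sgn κ = none
  · have e1 := h2 κ hk
    rw [h4] at h'
    rw [h'.2, map_one] at e1
    exact e1
  · exfalso
    apply h
    rw [← h7 κ true hk hk2, ← h4 κ true]
    exact h'

end pow

theorem c1_act1_some (t : TT) (a : Bool) : act1 t (FreeGroup.of (some a)) = ii (FreeGroup.of a) := by
  have e : (FreeGroup.of (some a) : FF) = ii (FreeGroup.of a) := by simp [ii]
  rw [e]
  exact ext_ii act0 coc0 t (FreeGroup.of a)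

theorem c1_act1_none (t : TT) : act1 t (FreeGroup.of none) = xx * ii (eta t) :=
  ext_yy act0 coc0 t

/-- The change of the `F`-part. -/
theorem c1_change (hR : ClaimR) (g h : MM) (hgh : Adj SS g h) :
    (rho h).left = (rho g).left ∨
      (∃ δ : DD, (rho h).left = (rho g).left * ii δ) ∨
      (∃ δ : DD, (rho h).left = (rho g).left * (xx * ii δ)⁻¹) ∨
      ((rho h).left = (rho g).left * (xx * ii (eta (rho g).right)) ∧ sgn g.left ≠ some true) := by
  obtain ⟨_, R2, R3, R4⟩ := hR (Option Bool) TT act1 coc1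
  rcases hgh with rfl | ⟨s, hs, rfl⟩
  · exact Or.inl rfl
  -- the stable letter
  have hy : ∀ b, (rho (g * SemidirectProduct.inl (yp b))).left = (rho g).left := by
    intro b
    exact congrArg SemidirectProduct.left (R3 g b)
  -- positive letters
  have hpos : ∀ (t : TT) (z : Option Bool),
      (∃ δ : DD, act1 t (FreeGroup.of z) = ii δ) ∨
        (act1 t (FreeGroup.of z) = xx * ii (eta t)) := by
    intro t z
    rcases z with _ | a
    · exact Or.inr (c1_act1_none t)
    · exact Or.inl ⟨_, c1_act1_some t a⟩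
  have hneg : ∀ (t : TT) (z : Option Bool),
      (∃ δ : DD, (act1 t (FreeGroup.of z))⁻¹ = ii δ) ∨
        (∃ δ : DD, (act1 t (FreeGroup.of z))⁻¹ = (xx * ii δ)⁻¹) := by
    intro t z
    rcases hpos t z with ⟨δ, h⟩ | h
    · exact Or.inl ⟨δ⁻¹, by rw [h, map_inv]⟩
    · exact Or.inr ⟨_, by rw [h]⟩
  have hz : ∀ f : FF, (rho (g * SemidirectProduct.inl (ii f))).left = (rho g).left ∨
      ((rho (g * SemidirectProduct.inl (ii f))).left = (rho g).left * act1 (rho g).right f ∧
        sgn g.left ≠ some true) := by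
    intro f
    have e := congrArg SemidirectProduct.left (R2 g f)
    by_cases hn : sgn g.left = none
    · right
      rw [if_pos hn] at e
      refine ⟨?_, by rw [hn]; simp⟩
      exact e
    · left
      rw [if_neg hn] at e
      exact e
  have ht : ∀ s : TT, (rho (g * SemidirectProduct.inr s)).left = (rho g).left ∨
      ((rho (g * SemidirectProduct.inr s)).left =
        (rho g).left * act1 (rho g).right (iota s).left ∧ sgn g.left ≠ some true) := by
    intro s
    have e := congrArg SemidirectProduct.left (R4 g s)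
    by_cases hn : sgn g.left = some false
    · right
      rw [if_pos hn] at e
      refine ⟨?_, by rw [hn]; simp⟩
      exact e
    · left
      rw [if_neg hn] at e
      refine e.trans ?_
      simp [rho]
  rcases hs with hs | hs
  · rcases hs with (hs | ⟨z, rfl⟩) | ⟨z, rfl⟩
    · rw [mem_singleton_iff] at hs
      left
      rw [hs]
      have := hy true
      simpa [gy, yp] using this
    · rcases hz (FreeGroup.of z) with h | ⟨h, h'⟩
      · exact Or.inl h
      · right
        rcases hpos (rho g).right z with ⟨δ, e⟩ | e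
        · left
          exact ⟨δ, by rw [← e]; exact h⟩
        · right; right
          exact ⟨by rw [← e]; exact h, h'⟩
    · rcases ht (FreeGroup.of z) with h | ⟨h, h'⟩
      · exact Or.inl h
      · right
        have e0 : (iota (FreeGroup.of z)).left = FreeGroup.of z := by simp [iota]
        rw [e0] at h
        rcases hpos (rho g).right z with ⟨δ, e⟩ | e
        · left
          exact ⟨δ, by rw [← e]; exact h⟩
        · right; right
          exact ⟨by rw [← e]; exact h, h'⟩
  · rcases hs with (hs | ⟨z, hs⟩) | ⟨z, hs⟩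
    · rw [mem_singleton_iff] at hs
      left
      have hs' : s = SemidirectProduct.inl (yp false) := by
        rw [← inv_inv s, hs]
        simp [gy, yp]
      rw [hs']
      exact hy false
    · have hs' : s = SemidirectProduct.inl (ii (FreeGroup.of z)⁻¹) := by
        rw [← inv_inv s, ← hs]
        simp [gz]
      rw [hs']
      rcases hz (FreeGroup.of z)⁻¹ with h | ⟨h, _⟩
      · exact Or.inl h
      · right
        rw [map_inv (act1 (rho g).right)] at h
        rcases hneg (rho g).right z with ⟨δ, e⟩ | ⟨δ, e⟩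
        · left
          exact ⟨δ, by rw [← e]; exact h⟩
        · right; left
          exact ⟨δ, by rw [← e]; exact h⟩
    · have hs' : s = SemidirectProduct.inr (FreeGroup.of z)⁻¹ := by
        rw [← inv_inv s, ← hs]
        simp [gt]
      rw [hs']
      rcases ht (FreeGroup.of z)⁻¹ with h | ⟨h, _⟩
      · exact Or.inl h
      · right
        have e0 : act1 (rho g).right (iota (FreeGroup.of z)⁻¹).left =
            (act1 ((rho g).right * (FreeGroup.of z)⁻¹) (FreeGroup.of z))⁻¹ := by
          rw [map_inv, SemidirectProduct.inv_left, map_mul, MulAut.mul_apply]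
          simp [iota]
        rw [e0] at h
        rcases hneg ((rho g).right * (FreeGroup.of z)⁻¹) z with ⟨δ, e⟩ | ⟨δ, e⟩
        · left
          exact ⟨δ, by rw [← e]; exact h⟩
        · right; left
          exact ⟨δ, by rw [← e]; exact h⟩

theorem thm_C1 (hR : ClaimR) (hFP : ClaimFP) : ClaimC1 := by
  refine ⟨?_, ?_, ?_, ?_⟩
  · intro q g h hgh hg hh
    have hg' : ¬ (sgn (xx ^ (-q) * (rho g).left) = some true ∧
      pre (xx ^ (-q) * (rho g).left) = 1) := hg
    have hh' : sgn (xx ^ (-q) * (rho h).left) = some true ∧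
      pre (xx ^ (-q) * (rho h).left) = 1 := hh
    rcases c1_change hR g h hgh with e | ⟨δ, e⟩ | ⟨δ, e⟩ | ⟨e, e'⟩
    · rw [e] at hh'
      exact absurd hh' hg'
    · rw [e, ← mul_assoc] at hh'
      exact absurd hh' (c1_ii hFP _ δ hg')
    · rw [e, ← mul_assoc] at hh'
      exact absurd hh' (c1_neg hFP _ δ hg')
    · rw [e, ← mul_assoc] at hh'
      have h1 := c1_pos hFP _ _ hg' hh'
      have h2 : (rho g).left = xx ^ q := by
        have := congrArg (fun w => xx ^ q * w) h1
        simpa [← mul_assoc] using this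
      refine ⟨h2, ?_, e'⟩
      rw [e, h2, zpow_add_one, mul_assoc]
  · intro q k hk
    have hk' : sgn (xx ^ (-(q + 1)) * k) = some true := hk.1
    have := c1_left hFP _ hk'
    have e : xx * (xx ^ (-(q + 1)) * k) = xx ^ (-q) * k := by
      rw [← mul_assoc, ← zpow_one_add]
      congr 2
      ring
    rw [e] at this
    exact this
  · intro q δ hpos
    have h1 : sgn (xx ^ (-q) * (xx ^ q * ii δ)) = some true := hpos.1
    have e : xx ^ (-q) * (xx ^ q * ii δ) = ii δ := by
      rw [← mul_assoc, ← zpow_add]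
      simp
    rw [e, ((hFP Bool).1 δ).2] at h1
    simp at h1
  · intro q j
    have e : xx ^ (-q) * xx ^ j = xx ^ (j - q) := by
      rw [← zpow_add]
      congr 1
      ring
    have := c1_zpow hFP (j - q)
    rw [← e] at this
    exact this.trans sub_pos

end MLTG

end

section

/-!
# Item C2: crossing times of a path
-/

open Set

namespace MLTG

theorem pos_anti (h2 : ∀ (q : ℤ) (k : FF), Pos (q + 1) k → Pos q k) (k : FF) (q : ℤ) (m : ℕ) :
    Pos (q + m) k → Pos q k := by
  induction m with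
  | zero =>
    intro h
    simpa using h
  | succ m ih =>
    intro h
    apply ih
    apply h2
    have e : q + ((m + 1 : ℕ) : ℤ) = q + (m : ℤ) + 1 := by push_cast; ring
    rwa [e] at h

theorem pos_anti' (h2 : ∀ (q : ℤ) (k : FF), Pos (q + 1) k → Pos q k) (k : FF) {q q' : ℤ}
    (h : q ≤ q') : Pos q' k → Pos q k := by
  intro hp
  obtain ⟨m, hm⟩ := Int.eq_ofNat_of_zero_le (sub_nonneg.mpr h)
  apply pos_anti h2 k q m
  have e : q + (m : ℤ) = q' := by rw [← hm]; ring
  rwa [e]

theorem thm_C2 (hC1 : ClaimC1) (hG : ClaimG) (hW : ClaimW) (hX : ClaimX) : ClaimC2 := by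
  classical
  obtain ⟨h1, h2, h3, -⟩ := hC1
  obtain ⟨-, -, -, -, -, hw⟩ := hW MM SS hX.2.1
  intro n p hp a b hab ha hb
  let i : ℤ → ℕ := fun q => Nat.findGreatest (fun k => ¬ Pos q (rho (p k)).left) n
  have hle : ∀ q, i q ≤ n := fun q => Nat.findGreatest_le n
  have hnp : ∀ q, a ≤ q → ¬ Pos q (rho (p (i q))).left := by
    intro q hq
    have h0 : ¬ Pos q (rho (p 0)).left := fun hh => ha (pos_anti' h2 _ hq hh)
    exact Nat.findGreatest_spec (P := fun k => ¬ Pos q (rho (p k)).left) (Nat.zero_le n) h0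
  have hlt : ∀ q, a ≤ q → q < b → i q < n := by
    intro q hq hqb
    refine lt_of_le_of_ne (hle q) ?_
    intro he
    have h4 := hnp q hq
    rw [he] at h4
    exact h4 (pos_anti' h2 _ (by omega) hb)
  have hps : ∀ q, a ≤ q → q < b → Pos q (rho (p (i q + 1))).left := by
    intro q hq hqb
    by_contra hcon
    exact Nat.findGreatest_is_greatest (P := fun k => ¬ Pos q (rho (p k)).left) (n := n)
      (k := i q + 1) (Nat.lt_succ_self _) (hlt q hq hqb) hcon
  have hcr := fun q (hq : a ≤ q) (hqb : q < b) =>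
    h1 q (p (i q)) (p (i q + 1)) (hp _ (hlt q hq hqb)) (hnp q hq) (hps q hq hqb)
  have hmono : ∀ q, a ≤ q → q + 1 < b → i q < i (q + 1) := by
    intro q hq hqb
    have h5 := (hcr q hq (by omega)).2.1
    have h6 : ¬ Pos (q + 1) (rho (p (i q + 1))).left := by
      rw [h5]
      exact h3 _ _
    exact Nat.le_findGreatest (P := fun k => ¬ Pos (q + 1) (rho (p k)).left)
      (hlt q hq (by omega)) h6
  refine ⟨i, fun q => (rho (p (i q))).right, ?_, ?_⟩
  · intro q hq hqb
    refine ⟨hlt q hq hqb, ?_, (hcr q hq hqb).2.2⟩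
    exact SemidirectProduct.ext (hcr q hq hqb).1 rfl
  · intro q hq hqb
    refine ⟨hmono q hq hqb, ?_⟩
    have h7 : rho (p (i q)) = ⟨xx ^ q, (rho (p (i q))).right⟩ :=
      SemidirectProduct.ext (hcr q hq (by omega)).1 rfl
    have h8 : rho (p (i (q + 1))) = ⟨xx ^ (q + 1), (rho (p (i (q + 1)))).right⟩ :=
      SemidirectProduct.ext (hcr (q + 1) (by omega) hqb).1 rfl
    have h9 := hG q _ _ _ _ h7 h8
    have h10 := hw n p hp (i q) (i (q + 1)) (hmono q hq hqb).le (hle _)
    exact h9.trans (Nat.mul_le_mul_left 6 h10)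

end MLTG

end

section

/-!
# CG: spaces quasi-isometric to a group are coarsely geodesic
-/

open Set

namespace MLTG

theorem thm_CG (hW : ClaimW) : ClaimCG := by
  intro K hK
  have hK0 : (0 : ℝ) < K := by linarith
  refine ⟨3 * K ^ 2 + 2 * K + 2, by nlinarith, ?_⟩
  intro G _ S hS X _ f hf x y
  obtain ⟨hf1, hf2⟩ := hf
  obtain ⟨gx, hgx⟩ := hf2 x
  obtain ⟨gy, hgy⟩ := hf2 y
  obtain ⟨_, _, _, _, hpath, hdist⟩ := hW G S hS
  obtain ⟨p, p0, pn, hp⟩ := hpath gx gy
  have hn : (wordDist S gx gy : ℝ) ≤ K * dist x y + 3 * K ^ 2 := by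
    have h1 := (hf1 gx gy).1
    have h2 : dist (f gx) (f gy) ≤ dist x y + 2 * K := by
      have e1 : dist (f gx) (f gy) ≤ dist (f gx) x + dist x y + dist y (f gy) :=
        dist_triangle4 _ _ _ _
      rw [dist_comm (f gx) x] at e1
      linarith
    have h3 : (wordDist S gx gy : ℝ) / K ≤ dist x y + 3 * K := by linarith
    rw [div_le_iff₀ hK0] at h3
    nlinarith
  generalize hN : wordDist S gx gy = n at *
  refine ⟨n + 2, fun k => if k = 0 then x else if k ≤ n + 1 then f (p (k - 1)) else y, ?_, ?_, ?_,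
    ?_⟩
  · have hd : 0 ≤ dist x y := dist_nonneg
    push_cast
    nlinarith [mul_nonneg hK0.le hd, mul_nonneg (sq_nonneg K) hd]
  · simp
  · simp
  · intro k hk
    have hK2 : 2 * K ≤ 3 * K ^ 2 + 2 * K + 2 := by nlinarith
    rcases Nat.eq_zero_or_pos k with rfl | hk0
    · have e : (0 : ℕ) + 1 ≤ n + 1 := by omega
      simp only [if_true, zero_add, one_ne_zero, if_false]
      rw [if_pos (by omega : 1 ≤ n + 1)]
      rw [Nat.sub_self, p0]
      linarith
    · have h1 : k ≠ 0 := by omega
      have h2 : k ≤ n + 1 := by omega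
      have h3 : k + 1 ≠ 0 := by omega
      simp only [if_neg h1, if_pos h2, if_neg h3]
      by_cases h4 : k + 1 ≤ n + 1
      · rw [if_pos h4]
        have h5 := hdist n p hp (k - 1) (k + 1 - 1) (by omega) (by omega)
        have h6 : wordDist S (p (k - 1)) (p (k + 1 - 1)) ≤ 1 := by omega
        have h7 := (hf1 (p (k - 1)) (p (k + 1 - 1))).2
        have h8 : (wordDist S (p (k - 1)) (p (k + 1 - 1)) : ℝ) ≤ 1 := by exact_mod_cast h6
        have h9 : K * (wordDist S (p (k - 1)) (p (k + 1 - 1)) : ℝ) ≤ K * 1 :=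
          mul_le_mul_of_nonneg_left h8 hK0.le
        linarith
      · rw [if_neg h4]
        have h5 : k - 1 = n := by omega
        rw [h5, pn, dist_comm]
        linarith

end MLTG

end

section

open Set

namespace MLTG

/-- Index of a letter. -/
def idxE : Option Bool → ℤ
  | none => 0
  | some false => 1
  | some true => 2

theorem idxE_inj {a b : Option Bool} (h : idxE a = idxE b) : a = b := by
  rcases a with _ | _ | _ <;> rcases b with _ | _ | _ <;> simp [idxE] at h ⊢

/-- The word `d ^ k`. -/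
def dpE (k : ℤ) : List (Bool × Bool) := List.replicate k.natAbs (false, decide (0 < k))

theorem mk_replicateE (n : ℕ) (a : Bool × Bool) :
    FreeGroup.mk (List.replicate n a) = FreeGroup.mk [a] ^ n := by
  induction n with
  | zero => rfl
  | succ n ih =>
    rw [List.replicate_succ, pow_succ', ← ih, FreeGroup.mul_mk]
    rfl

theorem mk_dpE (k : ℤ) : FreeGroup.mk (dpE k) = (FreeGroup.of false : DD) ^ k := by
  unfold dpE
  rw [mk_replicateE]
  rcases lt_or_ge 0 k with h | h
  · have h1 : decide (0 < k) = true := by simpa using h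
    rw [h1]
    have h2 : (k.natAbs : ℤ) = k := Int.natAbs_of_nonneg h.le
    conv_rhs => rw [← h2]
    rw [zpow_natCast]
    rfl
  · have h1 : decide (0 < k) = false := by simpa using h
    rw [h1]
    have h2 : k = -(k.natAbs : ℤ) := by omega
    conv_rhs => rw [h2]
    rw [zpow_neg, zpow_natCast]
    have h3 : (FreeGroup.mk [(false, false)] : DD) = (FreeGroup.of false)⁻¹ := rfl
    rw [h3, inv_pow]

/-- The reduced word of `d ^ (-c) * eta t`. -/
def GE : ℤ → List (Option Bool × Bool) → List (Bool × Bool)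
  | c, [] => dpE (-c)
  | c, (z, b) :: L => dpE (idxE z - c) ++ (true, b) :: GE (idxE z) L

theorem ww_eq (z : Option Bool) : ww z =
    (FreeGroup.of false : DD) ^ idxE z * FreeGroup.of true * (FreeGroup.of false) ^ (-idxE z) := by
  rcases z with _ | _ | _
  · simp [ww, idxE]
  · simp [ww, idxE]
  · simp only [ww, idxE, zpow_neg]
    norm_cast

theorem eta_single (z : Option Bool) (b : Bool) : eta (FreeGroup.mk [(z, b)]) =
    (FreeGroup.of false : DD) ^ idxE z * FreeGroup.mk [(true, b)] *
      (FreeGroup.of false) ^ (-idxE z) := by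
  cases b with
  | true =>
    have h : (FreeGroup.mk [(z, true)] : TT) = FreeGroup.of z := rfl
    have h' : (FreeGroup.mk [(true, true)] : DD) = FreeGroup.of true := rfl
    rw [h, h', ← ww_eq]
    simp [eta]
  | false =>
    have h : (FreeGroup.mk [(z, false)] : TT) = (FreeGroup.of z)⁻¹ := rfl
    have h' : (FreeGroup.mk [(true, false)] : DD) = (FreeGroup.of true)⁻¹ := rfl
    rw [h, h', map_inv]
    have h2 : eta (FreeGroup.of z) = ww z := by simp [eta]
    rw [h2, ww_eq]
    group

theorem mk_GE (L : List (Option Bool × Bool)) : ∀ c : ℤ,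
    (FreeGroup.mk (GE c L) : DD) = (FreeGroup.of false) ^ (-c) * eta (FreeGroup.mk L) := by
  induction L with
  | nil =>
    intro c
    show FreeGroup.mk (dpE (-c)) = _
    rw [mk_dpE]
    have h : (FreeGroup.mk [] : TT) = 1 := rfl
    rw [h, map_one, mul_one]
  | cons a L ih =>
    intro c
    obtain ⟨z, b⟩ := a
    show FreeGroup.mk (dpE (idxE z - c) ++ (true, b) :: GE (idxE z) L) = _
    have h1 : (FreeGroup.mk (dpE (idxE z - c) ++ (true, b) :: GE (idxE z) L) : DD) =
        FreeGroup.mk (dpE (idxE z - c)) * (FreeGroup.mk [(true, b)] *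
          FreeGroup.mk (GE (idxE z) L)) := by
      rw [FreeGroup.mul_mk, FreeGroup.mul_mk]
      rfl
    have h2 : (FreeGroup.mk ((z, b) :: L) : TT) = FreeGroup.mk [(z, b)] * FreeGroup.mk L := by
      rw [FreeGroup.mul_mk]
      rfl
    rw [h1, ih, mk_dpE, h2, map_mul, eta_single, sub_eq_add_neg, add_comm, zpow_add]
    group

theorem isReduced_consE {α : Type*} {a : α × Bool} {L : List (α × Bool)}
    (h1 : ∀ x ∈ L.head?, a.1 = x.1 → a.2 = x.2) (h2 : FreeGroup.IsReduced L) :
    FreeGroup.IsReduced (a :: L) := by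
  cases L with
  | nil => exact FreeGroup.IsReduced.singleton
  | cons b L =>
    rw [FreeGroup.isReduced_cons_cons]
    exact ⟨h1 b (by simp), h2⟩

theorem isReduced_dpE (k : ℤ) (M : List (Bool × Bool)) (hM : FreeGroup.IsReduced M)
    (hh : ∀ a ∈ M.head?, a.1 = true) : FreeGroup.IsReduced (dpE k ++ M) := by
  unfold dpE
  generalize decide (0 < k) = s
  induction k.natAbs with
  | zero => simpa using hM
  | succ n ih =>
    rw [List.replicate_succ, List.cons_append]
    refine isReduced_consE ?_ ih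
    intro x hx
    cases n with
    | zero =>
      simp only [List.replicate_zero, List.nil_append] at hx
      intro h
      rw [hh x hx] at h
      simp at h
    | succ n =>
      rw [List.replicate_succ, List.cons_append, List.head?_cons, Option.mem_def,
        Option.some_inj] at hx
      intro _
      rw [← hx]

theorem isReduced_GE (L : List (Option Bool × Bool)) : ∀ c : ℤ, FreeGroup.IsReduced L →
    FreeGroup.IsReduced (GE c L) := by
  induction L with
  | nil =>
    intro c _
    have h := isReduced_dpE (-c) [] FreeGroup.IsReduced.nil (by simp)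
    rw [List.append_nil] at h
    exact h
  | cons a L ih =>
    intro c hL
    obtain ⟨z, b⟩ := a
    have hL' : FreeGroup.IsReduced L := List.IsChain.right_of_append (l₁ := [(z, b)]) hL
    show FreeGroup.IsReduced (dpE (idxE z - c) ++ (true, b) :: GE (idxE z) L)
    apply isReduced_dpE
    · refine isReduced_consE ?_ (ih _ hL')
      intro x hx h
      cases L with
      | nil =>
        change x ∈ (dpE (-idxE z)).head? at hx
        unfold dpE at hx
        have hx' := List.mem_of_mem_head? hx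
        have := List.eq_of_mem_replicate hx'
        rw [this] at h
        simp at h
      | cons a' L' =>
        obtain ⟨z', b'⟩ := a'
        change x ∈ (dpE (idxE z' - idxE z) ++ (true, b') :: GE (idxE z') L').head? at hx
        by_cases hz : idxE z' - idxE z = 0
        · rw [hz] at hx
          simp only [dpE, Int.natAbs_zero, List.replicate_zero, List.nil_append, List.head?_cons,
            Option.mem_def, Option.some_inj] at hx
          rw [FreeGroup.isReduced_cons_cons] at hL
          rw [← hx]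
          exact hL.1 (idxE_inj (by simpa using (sub_eq_zero.mp hz).symm))
        · exfalso
          obtain ⟨n, hn⟩ := Nat.exists_eq_succ_of_ne_zero (Int.natAbs_ne_zero.mpr hz)
          unfold dpE at hx
          rw [hn, List.replicate_succ, List.cons_append, List.head?_cons, Option.mem_def,
            Option.some_inj] at hx
          rw [← hx] at h
          simp at h
    · intro a ha
      rw [List.head?_cons, Option.mem_def, Option.some_inj] at ha
      rw [← ha]

theorem length_GE (L : List (Option Bool × Bool)) : ∀ c : ℤ, L.length ≤ (GE c L).length := by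
  induction L with
  | nil => intro c; simp
  | cons a L ih =>
    intro c
    obtain ⟨z, b⟩ := a
    show _ ≤ (dpE (idxE z - c) ++ (true, b) :: GE (idxE z) L).length
    have := ih (idxE z)
    simp only [List.length_cons, List.length_append]
    omega

theorem thm_E : ClaimE := by
  intro t
  have h1 := mk_GE t.toWord 0
  rw [FreeGroup.mk_toWord, neg_zero, zpow_zero, one_mul] at h1
  rw [← h1]
  have h2 : FreeGroup.IsReduced (GE 0 t.toWord) := isReduced_GE _ 0 FreeGroup.isReduced_toWord
  unfold FreeGroup.norm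
  rw [FreeGroup.toWord_mk, h2.reduce_eq]
  exact length_GE _ _

end MLTG

end

section

/-!
# FP: the part of a reduced word before the first stable letter
-/

open Set

set_option linter.unusedSectionVars false

namespace MLTG

namespace FPx

/-- Right multiplication by a letter. -/
theorem snoc {β : Type} [DecidableEq β] (k : FreeGroup β) (a : β) (b : Bool) :
    (∃ L, k.toWord = L ++ [(a, !b)] ∧ (k * FreeGroup.mk [(a, b)]).toWord = L) ∨
    (k * FreeGroup.mk [(a, b)]).toWord = k.toWord ++ [(a, b)] := by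
  have hk : k = FreeGroup.mk k.toWord := FreeGroup.mk_toWord.symm
  have hr : FreeGroup.IsReduced k.toWord := FreeGroup.isReduced_toWord
  rcases List.eq_nil_or_concat k.toWord with h | ⟨L, ⟨a', b'⟩, h⟩
  · right
    have hk1 : k = 1 := FreeGroup.toWord_eq_nil_iff.mp h
    rw [hk1, one_mul, FreeGroup.toWord_mk, FreeGroup.toWord_one]
    rfl
  · rw [List.concat_eq_append] at h
    rw [h] at hr hk
    by_cases hab : a' = a ∧ b' = !b
    · left
      obtain ⟨rfl, rfl⟩ := hab
      refine ⟨L, h, ?_⟩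
      have h1 : k * FreeGroup.mk [(a', b)] = FreeGroup.mk L := by
        rw [hk, FreeGroup.mul_mk, List.append_assoc]
        rw [← FreeGroup.mul_mk]
        have : FreeGroup.mk ([(a', !b)] ++ [(a', b)]) = 1 := by
          rw [← FreeGroup.mul_mk]
          have h2 : (FreeGroup.mk [(a', !b)]) = (FreeGroup.mk [(a', b)])⁻¹ := by
            rw [FreeGroup.inv_mk]
            rfl
          rw [h2, inv_mul_cancel]
        rw [this, mul_one]
      rw [h1, FreeGroup.toWord_mk]
      apply FreeGroup.IsReduced.reduce_eq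
      exact List.IsChain.left_of_append hr
    · right
      have h1 : k * FreeGroup.mk [(a, b)] = FreeGroup.mk (L ++ [(a', b')] ++ [(a, b)]) := by
        rw [hk, FreeGroup.mul_mk]
      rw [h1, FreeGroup.toWord_mk, h]
      apply FreeGroup.IsReduced.reduce_eq
      apply FreeGroup.IsReduced.append_overlap hr
      · show FreeGroup.IsReduced [(a', b'), (a, b)]
        rw [FreeGroup.isReduced_cons_cons]
        refine ⟨fun hh => ?_, FreeGroup.IsReduced.singleton⟩
        by_contra hbb
        apply hab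
        refine ⟨hh, ?_⟩
        cases b <;> cases b' <;> simp_all
      · simp

theorem takeWhile_append_ex {β : Type} (p : β → Bool) (L L' : List β) (h : ∃ x ∈ L, p x = false) :
    (L ++ L').takeWhile p = L.takeWhile p := by
  induction L with
  | nil => obtain ⟨x, hx, _⟩ := h; cases hx
  | cons a L ih =>
    rw [List.cons_append]
    by_cases ha : p a = true
    · rw [List.takeWhile_cons_of_pos ha, List.takeWhile_cons_of_pos ha, ih]
      obtain ⟨x, hx, hx2⟩ := h
      rcases List.mem_cons.mp hx with rfl | hx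
      · rw [ha] at hx2; cases hx2
      · exact ⟨x, hx, hx2⟩
    · rw [List.takeWhile_cons_of_neg (by simpa using ha),
        List.takeWhile_cons_of_neg (by simpa using ha)]

theorem dropWhile_append_ex {β : Type} (p : β → Bool) (L L' : List β) (h : ∃ x ∈ L, p x = false) :
    (L ++ L').dropWhile p = L.dropWhile p ++ L' := by
  induction L with
  | nil => obtain ⟨x, hx, _⟩ := h; cases hx
  | cons a L ih =>
    rw [List.cons_append]
    by_cases ha : p a = true
    · rw [List.dropWhile_cons_of_pos ha, List.dropWhile_cons_of_pos ha, ih]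
      obtain ⟨x, hx, hx2⟩ := h
      rcases List.mem_cons.mp hx with rfl | hx
      · rw [ha] at hx2; cases hx2
      · exact ⟨x, hx, hx2⟩
    · rw [List.dropWhile_cons_of_neg (by simpa using ha),
        List.dropWhile_cons_of_neg (by simpa using ha), List.cons_append]

theorem dropWhile_ne {β : Type} (p : β → Bool) (L : List β) (h : ∃ x ∈ L, p x = false) :
    L.dropWhile p ≠ [] := by
  intro h1
  rw [List.dropWhile_eq_nil_iff] at h1
  obtain ⟨x, hx, hx2⟩ := h
  rw [h1 x hx] at hx2
  cases hx2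

section

variable {α : Type}

/-- List version of `pre`. -/
def preL (L : List (Option α × Bool)) : List (α × Bool) :=
  (L.takeWhile fun l => l.1.isSome).filterMap fun l => l.1.map fun a => (a, l.2)

/-- List version of `sgn`. -/
def sgnL (L : List (Option α × Bool)) : Option Bool :=
  ((L.dropWhile fun l => l.1.isSome).head?).map Prod.snd

theorem sgnL_none (L : List (Option α × Bool)) : sgnL L = none ↔ ∀ l ∈ L, l.1.isSome = true := by
  unfold sgnL
  rw [Option.map_eq_none_iff, List.head?_eq_none_iff, List.dropWhile_eq_nil_iff]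

theorem ex_of_ne {L : List (Option α × Bool)} (h : sgnL L ≠ none) :
    ∃ x ∈ L, (fun l : Option α × Bool => l.1.isSome) x = false := by
  rw [Ne, sgnL_none] at h
  push Not at h
  obtain ⟨x, hx, hx2⟩ := h
  exact ⟨x, hx, by simpa using hx2⟩

theorem append_ne {L : List (Option α × Bool)} (L' : List (Option α × Bool)) (h : sgnL L ≠ none) :
    preL (L ++ L') = preL L ∧ sgnL (L ++ L') = sgnL L := by
  have h1 := ex_of_ne h
  constructor
  · unfold preL
    rw [takeWhile_append_ex _ _ _ h1]
  · unfold sgnL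
    rw [dropWhile_append_ex _ _ _ h1, List.head?_append_of_ne_nil _ (dropWhile_ne _ _ h1)]

theorem takeWhile_all {L : List (Option α × Bool)} (h : sgnL L = none) :
    (L.takeWhile fun l => l.1.isSome) = L := by
  rw [List.takeWhile_eq_self_iff]
  exact (sgnL_none L).mp h

theorem append_none {L : List (Option α × Bool)} (b : Bool) (h : sgnL L = none) :
    preL (L ++ [(none, b)]) = preL L ∧ sgnL (L ++ [(none, b)]) = some b := by
  have h1 := (sgnL_none L).mp h
  constructor
  · unfold preL
    rw [List.takeWhile_append_of_pos h1, takeWhile_all h]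
    rw [List.takeWhile_cons_of_neg (by simp), List.append_nil]
  · unfold sgnL
    rw [List.dropWhile_append_of_pos h1, List.dropWhile_cons_of_neg (by simp)]
    rfl

variable [DecidableEq α]

theorem pre_eq (k : FreeGroup (Option α)) : pre k = FreeGroup.mk (preL k.toWord) := rfl

theorem sgn_eq (k : FreeGroup (Option α)) : sgn k = sgnL k.toWord := rfl

theorem ii_mk (L : List (α × Bool)) :
    (ii (FreeGroup.mk L) : FreeGroup (Option α)) = FreeGroup.mk (L.map fun l => (some l.1, l.2)) := by
  unfold ii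
  rw [FreeGroup.map.mk]

theorem ii_toWord (f : FreeGroup α) :
    (ii f : FreeGroup (Option α)).toWord = f.toWord.map fun l => (some l.1, l.2) := by
  conv_lhs => rw [← FreeGroup.mk_toWord (x := f)]
  rw [ii_mk, FreeGroup.toWord_mk]
  apply FreeGroup.IsReduced.reduce_eq
  have h : FreeGroup.IsReduced f.toWord := FreeGroup.isReduced_toWord
  unfold FreeGroup.IsReduced at h ⊢
  rw [List.isChain_map]
  refine h.imp ?_
  intro x y hxy h1
  exact hxy (Option.some_injective _ h1)

theorem filterMap_map (L : List (α × Bool)) :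
    (L.map fun l => ((some l.1 : Option α), l.2)).filterMap
      (fun l => l.1.map fun a => (a, l.2)) = L := by
  induction L with
  | nil => rfl
  | cons a L ih =>
    rw [List.map_cons, List.filterMap_cons_some (b := a) (by rfl), ih]

theorem map_filterMap (L : List (Option α × Bool)) (h : ∀ l ∈ L, l.1.isSome = true) :
    (L.filterMap (fun l => l.1.map fun a => (a, l.2))).map (fun l => ((some l.1 : Option α), l.2))
      = L := by
  induction L with
  | nil => rfl
  | cons a L ih =>
    obtain ⟨o, b⟩ := a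
    have h1 := h (o, b) (List.mem_cons_self)
    obtain ⟨a, rfl⟩ := Option.isSome_iff_exists.mp h1
    rw [List.filterMap_cons_some (b := (a, b)) (by rfl), List.map_cons,
      ih fun l hl => h l (List.mem_cons_of_mem _ hl)]

theorem sgn_ii (f : FreeGroup α) : sgn (ii f : FreeGroup (Option α)) = none := by
  rw [sgn_eq, ii_toWord, sgnL_none]
  intro l hl
  obtain ⟨x, _, rfl⟩ := List.mem_map.mp hl
  rfl

theorem pre_ii (f : FreeGroup α) : pre (ii f : FreeGroup (Option α)) = f := by
  rw [pre_eq]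
  unfold preL
  rw [takeWhile_all (by have := sgn_ii f; rwa [sgn_eq] at this), ii_toWord, filterMap_map,
    FreeGroup.mk_toWord]

theorem eq_ii (k : FreeGroup (Option α)) (h : sgn k = none) : k = ii (pre k) := by
  rw [sgn_eq] at h
  rw [pre_eq]
  unfold preL
  rw [takeWhile_all h, ii_mk, map_filterMap _ ((sgnL_none _).mp h), FreeGroup.mk_toWord]

/-- Right multiplication by a letter of the base. -/
theorem step_some (k : FreeGroup (Option α)) (a : α) (b : Bool) (h : sgn k ≠ none) :
    pre (k * FreeGroup.mk [(some a, b)]) = pre k ∧ sgn (k * FreeGroup.mk [(some a, b)]) = sgn k := by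
  rcases snoc k (some a) b with ⟨L, h1, h2⟩ | h1
  · rw [pre_eq, pre_eq, sgn_eq, sgn_eq, h2, h1]
    rw [sgn_eq, h1] at h
    have h3 : sgnL L ≠ none := by
      intro h4
      apply h
      rw [sgnL_none] at h4 ⊢
      intro l hl
      rcases List.mem_append.mp hl with hl | hl
      · exact h4 l hl
      · rw [List.mem_singleton.mp hl]; rfl
    obtain ⟨h5, h6⟩ := append_ne [(some a, !b)] h3
    rw [h5, h6]
    exact ⟨rfl, rfl⟩
  · rw [pre_eq, pre_eq, sgn_eq, sgn_eq, h1]
    rw [sgn_eq] at h
    obtain ⟨h5, h6⟩ := append_ne [(some a, b)] h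
    rw [h5, h6]
    exact ⟨rfl, rfl⟩

theorem mul_ii (L : List (α × Bool)) : ∀ (k : FreeGroup (Option α)), sgn k ≠ none →
    pre (k * ii (FreeGroup.mk L)) = pre k ∧ sgn (k * ii (FreeGroup.mk L)) = sgn k := by
  induction L with
  | nil =>
    intro k _
    have : (FreeGroup.mk [] : FreeGroup α) = 1 := rfl
    rw [this, map_one, mul_one]
    exact ⟨rfl, rfl⟩
  | cons l L ih =>
    intro k hk
    obtain ⟨a, b⟩ := l
    have h1 : k * ii (FreeGroup.mk ((a, b) :: L)) =
        k * FreeGroup.mk [(some a, b)] * ii (FreeGroup.mk L) := by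
      rw [ii_mk, ii_mk, mul_assoc, FreeGroup.mul_mk]
      rfl
    obtain ⟨h2, h3⟩ := step_some k a b hk
    obtain ⟨h4, h5⟩ := ih (k * FreeGroup.mk [(some a, b)]) (by rw [h3]; exact hk)
    rw [h1, h4, h5, h2, h3]
    exact ⟨rfl, rfl⟩

theorem yp_eq (b : Bool) : (yp b : FreeGroup (Option α)) = FreeGroup.mk [(none, b)] := by
  cases b
  · show (FreeGroup.of none)⁻¹ = _
    rfl
  · rfl

theorem step_none (k : FreeGroup (Option α)) (b : Bool) :
    (sgn k = some (!b) ∧ sgn (k * yp b) = none ∧ pre (k * yp b) = pre k) ∨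
    (sgn k ≠ none ∧ sgn (k * yp b) = sgn k ∧ pre (k * yp b) = pre k) ∨
    (sgn k = none ∧ sgn (k * yp b) = some b ∧ pre (k * yp b) = pre k) := by
  rw [yp_eq]
  rcases snoc k none b with ⟨L, h1, h2⟩ | h1
  · rw [pre_eq, pre_eq, sgn_eq, sgn_eq, h2, h1]
    by_cases h3 : sgnL L = none
    · left
      obtain ⟨h4, h5⟩ := append_none (!b) h3
      rw [h4, h5]
      exact ⟨rfl, h3, rfl⟩
    · right; left
      obtain ⟨h5, h6⟩ := append_ne [(none, !b)] h3
      rw [h5, h6]
      exact ⟨h3, rfl, rfl⟩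
  · rw [pre_eq, pre_eq, sgn_eq, sgn_eq, h1]
    by_cases h3 : sgnL k.toWord = none
    · right; right
      obtain ⟨h4, h5⟩ := append_none b h3
      rw [h4, h5]
      exact ⟨h3, rfl, rfl⟩
    · right; left
      obtain ⟨h5, h6⟩ := append_ne [(none, b)] h3
      rw [h5, h6]
      exact ⟨h3, rfl, rfl⟩

end

end FPx

open FPx in
theorem thm_FP : ClaimFP := by
  intro α _
  refine ⟨fun f => ⟨pre_ii f, sgn_ii f⟩, eq_ii, ?_, ?_, ?_, ?_, ?_⟩
  · intro k f h
    have := mul_ii f.toWord k h
    rwa [FreeGroup.mk_toWord] at this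
  · intro k b
    rcases step_none k b with ⟨_, _, h⟩ | ⟨_, _, h⟩ | ⟨_, _, h⟩ <;> exact h
  · intro k b h
    rcases step_none k b with ⟨h1, _, _⟩ | ⟨h1, _, _⟩ | ⟨_, h2, _⟩
    · rw [h] at h1; cases h1
    · exact absurd h h1
    · exact h2
  · intro k b h h'
    rcases step_none k b with ⟨h1, _, _⟩ | ⟨h1, h2, _⟩ | ⟨h1, _, _⟩
    · exact h1
    · rw [h2] at h'; exact absurd h' h
    · exact absurd h1 h
  · intro k b h h'
    rcases step_none k b with ⟨_, h2, _⟩ | ⟨_, h2, _⟩ | ⟨h1, _, _⟩
    · exact absurd h2 h'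
    · exact h2
    · exact absurd h1 h

end MLTG

end

section

/-!
# Assembly
-/

open Set

namespace MLTG

/-- Change of the finite generating set. -/
theorem isQI_change (hW2 : ClaimW2) {G : Type} [Group G] {S S' : Set G} (hS : S.Finite)
    (hS' : S'.Finite) (gS : Subgroup.closure S = ⊤) (gS' : Subgroup.closure S' = ⊤)
    {X : Type} [PseudoMetricSpace X] {f : G → X} (hf : IsQI S f) : IsQI S' f := by
  obtain ⟨K1, hK1⟩ := hW2 G S S' hS gS gS'
  obtain ⟨K2, hK2⟩ := hW2 G S' S hS' gS' gS
  obtain ⟨K, hK, h1, h2⟩ := hf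
  have hK0 : 0 < K := by linarith
  have hk1 : (0 : ℝ) ≤ K1 := Nat.cast_nonneg _
  have hk2 : (0 : ℝ) ≤ K2 := Nat.cast_nonneg _
  have hKK : K ≤ K * (K1 + K2 + 1) := by nlinarith
  refine ⟨K * (K1 + K2 + 1), by linarith, fun g h => ?_, fun x => ?_⟩
  · obtain ⟨h3, h4⟩ := h1 g h
    have a1 : (wordDist S' g h : ℝ) ≤ K1 * wordDist S g h := by exact_mod_cast hK1 (g⁻¹ * h)
    have a2 : (wordDist S g h : ℝ) ≤ K2 * wordDist S' g h := by exact_mod_cast hK2 (g⁻¹ * h)
    have b1 : (0 : ℝ) ≤ wordDist S' g h := Nat.cast_nonneg _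
    have b2 : (0 : ℝ) ≤ wordDist S g h := Nat.cast_nonneg _
    constructor
    · have c1 : (wordDist S' g h : ℝ) / (K * (K1 + K2 + 1)) ≤ wordDist S g h / K := by
        rw [div_le_div_iff₀ (by positivity) hK0]
        have : (wordDist S' g h : ℝ) ≤ (K1 + K2 + 1) * wordDist S g h := by nlinarith
        nlinarith
      linarith
    · have c2 : K * wordDist S g h ≤ K * (K1 + K2 + 1) * wordDist S' g h := by
        have : (wordDist S g h : ℝ) ≤ (K1 + K2 + 1) * wordDist S' g h := by nlinarith
        nlinarith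
      linarith
  · obtain ⟨g, hg⟩ := h2 x
    exact ⟨g, le_trans hg hKK⟩

/-- The answer to the question, from the claims. -/
theorem final_of (hP : ClaimP) (hX : ClaimX) (hW2 : ClaimW2) (hA : ClaimA) (hZ : ClaimZ) :
    ∃ (G : Type) (_ : Group G), Group.IsFinitelyPresented G ∧
      ∀ S : Set G, S.Finite → Subgroup.closure S = ⊤ →
        ∀ (X : Type) [MetricSpace X] (f : G → X), IsQI S f → ¬ HasMLTG X := by
  refine ⟨MM, inferInstance, hP, fun S hS gS X _ f hf => ?_⟩
  exact hZ MM SS gy gx hA X f (isQI_change hW2 hS hX.1 gS hX.2.1 hf)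

end MLTG

end

section

/-!
# G: the key lower bound
-/

open Set

namespace MLTG

/-- The retraction of `N` onto `D × T`. -/
def R0 (n : NN) : SemidirectProduct DD TT act0 := ret act0 coc0 n

/-- The `D`-part of the retraction of `N` onto `D × T`, after left multiplication by `a`. -/
def Th (a n : NN) : DD := (R0 (a * n)).left

theorem ww_norm (z : Option Bool) : (ww z).norm ≤ 5 := by
  rcases z with _ | z
  · decide
  · cases z <;> decide

theorem Th_inl (hR : ClaimR) (a n : NN) (z : Option Bool) (b : Bool) :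
    ((Th a n)⁻¹ * Th a (n * SemidirectProduct.inl
      (if b then FreeGroup.of z else (FreeGroup.of z)⁻¹))).norm ≤ 1 := by
  obtain ⟨-, h2, h3, -⟩ := hR Bool TT act0 coc0
  rcases z with _ | z
  · have h := h3 (a * n) b
    have e : (if b then FreeGroup.of none else (FreeGroup.of none)⁻¹ : FF) = yp b := by
      cases b <;> rfl
    rw [e]
    unfold Th
    rw [← mul_assoc]
    have h' : R0 (a * n * SemidirectProduct.inl (yp b)) = R0 (a * n) := h
    rw [h', inv_mul_cancel]
    simp
  · have h := h2 (a * n) (if b then FreeGroup.of z else (FreeGroup.of z)⁻¹)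
    have e : (if b then FreeGroup.of (some z) else (FreeGroup.of (some z))⁻¹ : FF) =
        ii (if b then FreeGroup.of z else (FreeGroup.of z)⁻¹) := by
      cases b <;> simp [ii]
    rw [e]
    unfold Th
    rw [← mul_assoc]
    have h' : R0 (a * n * SemidirectProduct.inl
        (ii (if b then FreeGroup.of z else (FreeGroup.of z)⁻¹))) =
      if sgn (a * n).left = none then R0 (a * n) *
        SemidirectProduct.inl (if b then FreeGroup.of z else (FreeGroup.of z)⁻¹)
      else R0 (a * n) := h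
    rw [h']
    by_cases h1 : sgn (a * n).left = none
    · rw [if_pos h1, SemidirectProduct.mul_left, inv_mul_cancel_left,
        SemidirectProduct.left_inl]
      cases b
      · simp [act0]
      · simp [act0]
    · rw [if_neg h1, inv_mul_cancel]
      simp

theorem Th_inr (hR : ClaimR) (a n : NN) (z : Option Bool) (b : Bool) :
    ((Th a n)⁻¹ * Th a (n * SemidirectProduct.inr
      (if b then FreeGroup.of z else (FreeGroup.of z)⁻¹))).norm ≤ 5 := by
  obtain ⟨-, -, -, h4⟩ := hR Bool TT act0 coc0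
  have h := h4 (a * n) (if b then FreeGroup.of z else (FreeGroup.of z)⁻¹)
  unfold Th
  rw [← mul_assoc]
  have h' : R0 (a * n * SemidirectProduct.inr
        (if b then FreeGroup.of z else (FreeGroup.of z)⁻¹)) =
      if sgn (a * n).left = some false then R0 (a * n) *
        sec act0 coc0 (if b then FreeGroup.of z else (FreeGroup.of z)⁻¹)
      else R0 (a * n) *
        SemidirectProduct.inr (if b then FreeGroup.of z else (FreeGroup.of z)⁻¹) := h
  rw [h']
  split_ifs with h1 h2 h2
  · rw [SemidirectProduct.mul_left, inv_mul_cancel_left]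
    have : (act0 (R0 (a * n)).right) (sec act0 coc0 (FreeGroup.of z)).left = ww z := by
      simp [act0, sec, coc0, eta]
    rw [this]
    exact ww_norm z
  · rw [SemidirectProduct.mul_left, inv_mul_cancel_left]
    have : (act0 (R0 (a * n)).right) (sec act0 coc0 (FreeGroup.of z)⁻¹).left =
        (ww z)⁻¹ := by
      simp [act0, sec, coc0, eta]
    rw [this, FreeGroup.norm_inv_eq]
    exact ww_norm z
  · rw [SemidirectProduct.mul_left, inv_mul_cancel_left]
    simp
  · rw [SemidirectProduct.mul_left, inv_mul_cancel_left]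
    simp

theorem norm_trans {α : Type} [DecidableEq α] (x y z : FreeGroup α) :
    (x⁻¹ * z).norm ≤ (x⁻¹ * y).norm + (y⁻¹ * z).norm := by
  have : x⁻¹ * z = x⁻¹ * y * (y⁻¹ * z) := by group
  rw [this]
  exact FreeGroup.norm_mul_le _ _

theorem sec_eq_iota (t : TT) : sec act1 coc1 t = iota t := by
  apply SemidirectProduct.ext
  · rfl
  · exact (iota_right t).symm

theorem iota_of (z : Option Bool) : iota (FreeGroup.of z) =
    SemidirectProduct.inl (FreeGroup.of z) * SemidirectProduct.inr (FreeGroup.of z) := by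
  rw [← SemidirectProduct.mk_eq_inl_mul_inr]
  simp [iota]

/-- One step. -/
theorem Th_step (hR : ClaimR) (a : NN) (g : MM) (s : MM) (hs : s ∈ SS ∨ s⁻¹ ∈ SS) :
    ((Th a (rho g))⁻¹ * Th a (rho (g * s))).norm ≤ 6 := by
  obtain ⟨-, h2, h3, h4⟩ := hR (Option Bool) TT act1 coc1
  have key : ∃ b : Bool, s = SemidirectProduct.inl (yp b) ∨
      (∃ z, s = SemidirectProduct.inl (ii (if b then FreeGroup.of z else (FreeGroup.of z)⁻¹))) ∨
      (∃ z, s = SemidirectProduct.inr (if b then FreeGroup.of z else (FreeGroup.of z)⁻¹)) := by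
    rcases hs with hs | hs
    · refine ⟨true, ?_⟩
      rcases hs with (hs | ⟨z, hs⟩) | ⟨z, hs⟩
      · left
        rw [hs]; rfl
      · right; left
        exact ⟨z, hs.symm⟩
      · right; right
        exact ⟨z, hs.symm⟩
    · refine ⟨false, ?_⟩
      rcases hs with (hs | ⟨z, hs⟩) | ⟨z, hs⟩
      · left
        have : s = (gy)⁻¹ := by rw [← hs, inv_inv]
        rw [this]
        simp [gy, yp]
      · right; left
        refine ⟨z, ?_⟩
        have : s = (gz z)⁻¹ := by rw [hs, inv_inv]
        rw [this]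
        simp [gz]
      · right; right
        refine ⟨z, ?_⟩
        have : s = (gt z)⁻¹ := by rw [hs, inv_inv]
        rw [this]
        simp [gt]
  obtain ⟨b, hs | ⟨z, hs⟩ | ⟨z, hs⟩⟩ := key
  · have h : rho (g * s) = rho g := by rw [hs]; exact h3 g b
    rw [h, inv_mul_cancel]
    simp
  · have h : rho (g * s) = if sgn g.left = none then rho g * SemidirectProduct.inl
        (if b then FreeGroup.of z else (FreeGroup.of z)⁻¹) else rho g := by
      rw [hs]; exact h2 g _
    rw [h]
    by_cases h1 : sgn g.left = none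
    · rw [if_pos h1]
      exact (Th_inl hR a (rho g) z b).trans (by norm_num)
    · rw [if_neg h1, inv_mul_cancel]
      simp
  · have h : rho (g * s) = if sgn g.left = some false then rho g * sec act1 coc1
        (if b then FreeGroup.of z else (FreeGroup.of z)⁻¹) else
        rho g * SemidirectProduct.inr (if b then FreeGroup.of z else (FreeGroup.of z)⁻¹) := by
      rw [hs]; exact h4 g _
    rw [h]
    by_cases h1 : sgn g.left = some false
    · rw [if_pos h1, sec_eq_iota]
      cases b
      · have e1 := Th_inr hR a (rho g) z false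
        have e2 := Th_inl hR a (rho g * SemidirectProduct.inr (FreeGroup.of z)⁻¹) z false
        simp only [Bool.false_eq_true, if_false] at e1 e2 ⊢
        have e3 : rho g * iota (FreeGroup.of z)⁻¹ =
            rho g * SemidirectProduct.inr (FreeGroup.of z)⁻¹ *
              SemidirectProduct.inl (FreeGroup.of z)⁻¹ := by
          rw [map_inv iota, iota_of, mul_inv_rev, map_inv, map_inv, mul_assoc]
        rw [e3]
        exact (norm_trans _ _ _).trans (Nat.add_le_add e1 e2)
      · have e1 := Th_inl hR a (rho g) z true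
        have e2 := Th_inr hR a (rho g * SemidirectProduct.inl (FreeGroup.of z)) z true
        simp only [if_true] at e1 e2 ⊢
        have e3 : rho g * iota (FreeGroup.of z) =
            rho g * SemidirectProduct.inl (FreeGroup.of z) *
              SemidirectProduct.inr (FreeGroup.of z) := by
          rw [iota_of, mul_assoc]
        rw [e3]
        exact (norm_trans _ _ _).trans (Nat.add_le_add e1 e2)
    · rw [if_neg h1]
      exact (Th_inr hR a (rho g) z b).trans (by norm_num)

theorem Th_path (hR : ClaimR) (a : NN) (n : ℕ) (p : ℕ → MM) (hp : IsPath SS n p) :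
    ∀ i ≤ n, ((Th a (rho (p 0)))⁻¹ * Th a (rho (p i))).norm ≤ 6 * i := by
  intro i
  induction i with
  | zero => intro _; simp
  | succ i ih =>
    intro hi
    have h1 := ih (by omega)
    have h2 : ((Th a (rho (p i)))⁻¹ * Th a (rho (p (i + 1)))).norm ≤ 6 := by
      rcases hp i (by omega) with h | ⟨s, hs, h⟩
      · rw [← h]; simp
      · rw [h]; exact Th_step hR a (p i) s hs
    have := norm_trans (Th a (rho (p 0))) (Th a (rho (p i))) (Th a (rho (p (i + 1))))
    omega

theorem sgn_xx_inv : sgn (xx⁻¹) = some false := by decide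

theorem pre_xx_inv : pre (xx⁻¹) = 1 := by decide

theorem thm_G (hW : ClaimW) (hX : ClaimX) (hE : ClaimE) (hR : ClaimR) (_hFP : ClaimFP) :
    ClaimG := by
  intro q g h t t' hg hh
  obtain ⟨-, -, -, -, hw, -⟩ := hW MM SS hX.2.1
  obtain ⟨p, hp0, hpn, hp⟩ := hw g h
  have key := Th_path hR (SemidirectProduct.inl (xx ^ (-(q + 1)))) _ p hp _ le_rfl
  rw [hp0, hpn] at key
  have e1 : Th (SemidirectProduct.inl (xx ^ (-(q + 1)))) (rho g) = eta t := by
    have : (SemidirectProduct.inl (xx ^ (-(q + 1))) : NN) * rho g = ⟨xx⁻¹, t⟩ := by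
      rw [hg]
      apply SemidirectProduct.ext
      · rw [SemidirectProduct.mul_left]
        simp only [SemidirectProduct.left_inl, SemidirectProduct.right_inl, map_one,
          MulAut.one_apply]
        rw [← zpow_add]
        have : -(q + 1) + q = -1 := by ring
        rw [this, zpow_neg_one]
      · rw [SemidirectProduct.mul_right, SemidirectProduct.right_inl, one_mul]
    unfold Th
    rw [this]
    show (if sgn (xx⁻¹) = some false then pre (xx⁻¹) * coc0.u t else pre (xx⁻¹)) = eta t
    rw [if_pos sgn_xx_inv, pre_xx_inv, one_mul]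
    rfl
  have e2 : Th (SemidirectProduct.inl (xx ^ (-(q + 1)))) (rho h) = 1 := by
    have : (SemidirectProduct.inl (xx ^ (-(q + 1))) : NN) * rho h = ⟨1, t'⟩ := by
      rw [hh]
      apply SemidirectProduct.ext
      · rw [SemidirectProduct.mul_left]
        simp only [SemidirectProduct.left_inl, SemidirectProduct.right_inl, map_one,
          MulAut.one_apply]
        rw [← zpow_add]
        have : -(q + 1) + (q + 1) = 0 := by ring
        rw [this, zpow_zero]
      · rw [SemidirectProduct.mul_right, SemidirectProduct.right_inl, one_mul]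
    unfold Th
    rw [this]
    show (if sgn (1 : FF) = some false then pre (1 : FF) * coc0.u t' else pre (1 : FF)) = 1
    rw [if_neg (by decide)]
    decide
  rw [e1, e2, mul_one, FreeGroup.norm_inv_eq] at key
  exact (hE t).trans key

end MLTG

end

section

/-!
# L: `rho` is 2-Lipschitz
-/

namespace MLTG

/-- The inclusion of `N` in `M`. -/
def incl : NN →* MM where
  toFun n := ⟨ii n.left, n.right⟩
  map_one' := by
    apply SemidirectProduct.ext
    · show ii (1 : NN).left = (1 : MM).left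
      rw [SemidirectProduct.one_left, map_one, SemidirectProduct.one_left]
    · rfl
  map_mul' a b := by
    apply SemidirectProduct.ext
    · show ii (a * b).left = ii a.left * act2 a.right (ii b.left)
      rw [SemidirectProduct.mul_left, map_mul]
      congr 1
      exact (ext_ii act1 coc1 a.right b.left).symm
    · rfl

theorem incl_inl (f : FF) : incl (SemidirectProduct.inl f) = SemidirectProduct.inl (ii f) := by
  apply SemidirectProduct.ext
  · rfl
  · rfl

theorem incl_inr (t : TT) : incl (SemidirectProduct.inr t) = SemidirectProduct.inr t := by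
  apply SemidirectProduct.ext
  · show ii (SemidirectProduct.inr t : NN).left = (SemidirectProduct.inr t : MM).left
    rw [SemidirectProduct.left_inr, map_one, SemidirectProduct.left_inr]
  · rfl

theorem sec_eq_iotaL (t : TT) : sec act1 coc1 t = iota t := by
  apply SemidirectProduct.ext
  · rfl
  · exact (iota_right t).symm

theorem incl_iota (z : Option Bool) : incl (iota (FreeGroup.of z)) = gz z * gt z := by
  have h : iota (FreeGroup.of z) = SemidirectProduct.inl (FreeGroup.of z) *
      SemidirectProduct.inr (FreeGroup.of z) := by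
    apply SemidirectProduct.ext
    · simp [iota]
    · simp [iota]
  rw [h, map_mul, incl_inl, incl_inr]
  rfl

theorem gz_mem (z : Option Bool) : gz z ∈ SS := Or.inl (Or.inr ⟨z, rfl⟩)

theorem gt_mem (z : Option Bool) : gt z ∈ SS := Or.inr ⟨z, rfl⟩

theorem gy_mem : gy ∈ SS := Or.inl (Or.inl rfl)

/-- One step. -/
theorem rho_step (hW : ClaimW) (hX : ClaimX) (hR : ClaimR) (g : MM) (s : MM)
    (hs : s ∈ SS ∨ s⁻¹ ∈ SS) : wordLen SS ((incl (rho g))⁻¹ * incl (rho (g * s))) ≤ 2 := by
  obtain ⟨w0, winv, wmul, wadj, _, _⟩ := hW MM SS hX.2.1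
  obtain ⟨_, r1, r2, r3⟩ := hR (Option Bool) TT act1 coc1
  have one : ∀ a : MM, (a ∈ SS ∨ a⁻¹ ∈ SS) → wordLen SS a ≤ 1 := fun a ha =>
    wadj a (Or.inr ⟨a, ha, (one_mul a).symm⟩)
  have z0 : wordLen SS (1 : MM) ≤ 2 := by
    rw [(w0 1).2 rfl]
    omega
  have key : ∀ b : NN, rho (g * s) = rho g * b → wordLen SS (incl b) ≤ 2 →
      wordLen SS ((incl (rho g))⁻¹ * incl (rho (g * s))) ≤ 2 := by
    intro b h1 h2
    rw [h1, map_mul, inv_mul_cancel_left]
    exact h2
  have keyz : ∀ z : Option Bool, wordLen SS (incl (iota (FreeGroup.of z))) ≤ 2 := by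
    intro z
    rw [incl_iota]
    have h1 := wmul (gz z) (gt z)
    have h2 := one _ (Or.inl (gz_mem z))
    have h3 := one _ (Or.inl (gt_mem z))
    omega
  -- multiplication by an element of `F`
  have stepF : ∀ f : FF, s = SemidirectProduct.inl (ii f) → (s ∈ SS ∨ s⁻¹ ∈ SS) →
      wordLen SS ((incl (rho g))⁻¹ * incl (rho (g * s))) ≤ 2 := by
    intro f hf hs'
    have h1 := r1 g f
    by_cases hc : sgn g.left = none
    · rw [if_pos hc] at h1
      refine key (SemidirectProduct.inl f) (by rw [hf]; exact h1) ?_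
      rw [incl_inl, ← hf]
      exact (one s hs').trans (by norm_num)
    · rw [if_neg hc] at h1
      refine key 1 ?_ (by rw [map_one]; exact z0)
      rw [mul_one, hf]
      exact h1
  have stepY : ∀ b : Bool, s = SemidirectProduct.inl (yp b) →
      wordLen SS ((incl (rho g))⁻¹ * incl (rho (g * s))) ≤ 2 := by
    intro b hb
    refine key 1 ?_ (by rw [map_one]; exact z0)
    rw [mul_one, hb]
    exact r2 g b
  have stepT : ∀ t : TT, s = SemidirectProduct.inr t → (s ∈ SS ∨ s⁻¹ ∈ SS) →
      wordLen SS (incl (iota t)) ≤ 2 →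
      wordLen SS ((incl (rho g))⁻¹ * incl (rho (g * s))) ≤ 2 := by
    intro t ht hs' hio
    have h1 := r3 g t
    by_cases hc : sgn g.left = some false
    · rw [if_pos hc, sec_eq_iotaL] at h1
      exact key (iota t) (by rw [ht]; exact h1) hio
    · rw [if_neg hc] at h1
      refine key (SemidirectProduct.inr t) (by rw [ht]; exact h1) ?_
      rw [incl_inr, ← ht]
      exact (one s hs').trans (by norm_num)
  rcases hs with hs | hs
  · rcases hs with (hs | ⟨z, hz⟩) | ⟨z, hz⟩
    · exact stepY true (by rw [Set.mem_singleton_iff.1 hs]; rfl)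
    · exact stepF (FreeGroup.of z) (by rw [← hz]; rfl) (Or.inl (by rw [← hz]; exact gz_mem z))
    · exact stepT (FreeGroup.of z) (by rw [← hz]; rfl) (Or.inl (by rw [← hz]; exact gt_mem z))
        (keyz z)
  · have hs0 := hs
    rcases hs with (hs | ⟨z, hz⟩) | ⟨z, hz⟩
    · refine stepY false ?_
      rw [← inv_inv s, Set.mem_singleton_iff.1 hs]
      show (SemidirectProduct.inl yy)⁻¹ = SemidirectProduct.inl yy⁻¹
      rw [map_inv]
    · refine stepF (FreeGroup.of z)⁻¹ ?_ (Or.inr hs0)
      rw [← inv_inv s, ← hz]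
      show (SemidirectProduct.inl (ii (FreeGroup.of z)))⁻¹ = _
      rw [map_inv ii, map_inv]
    · refine stepT (FreeGroup.of z)⁻¹ ?_ (Or.inr hs0) ?_
      · rw [← inv_inv s, ← hz]
        show (SemidirectProduct.inr (FreeGroup.of z))⁻¹ = _
        rw [map_inv]
      · rw [map_inv, map_inv, winv]
        exact keyz z

theorem thm_L (hW : ClaimW) (hX : ClaimX) (hR : ClaimR) : ClaimL := by
  obtain ⟨w0, _, wmul, _, wpath, _⟩ := hW MM SS hX.2.1
  intro g h
  obtain ⟨p, hp0, hpn, hp⟩ := wpath g h
  have main : ∀ k, k ≤ wordDist SS g h →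
      wordLen SS ((incl (rho (p 0)))⁻¹ * incl (rho (p k))) ≤ 2 * k := by
    intro k
    induction k with
    | zero =>
      intro _
      rw [inv_mul_cancel, (w0 1).2 rfl]
    | succ k ih =>
      intro hk
      have h1 := ih (by omega)
      have h2 : wordLen SS ((incl (rho (p k)))⁻¹ * incl (rho (p (k + 1)))) ≤ 2 := by
        rcases hp k (by omega) with h3 | ⟨s, hs, h3⟩
        · rw [← h3, inv_mul_cancel, (w0 1).2 rfl]
          omega
        · rw [h3]
          exact rho_step hW hX hR (p k) s hs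
      have h3 := wmul ((incl (rho (p 0)))⁻¹ * incl (rho (p k)))
        ((incl (rho (p k)))⁻¹ * incl (rho (p (k + 1))))
      rw [mul_assoc, mul_inv_cancel_left] at h3
      omega
  have h1 := main _ le_rfl
  rw [hp0, hpn] at h1
  exact h1

end MLTG

end

section

/-!
# MA: the bottleneck property passes to quasi-isometric spaces
-/

open Set

namespace MLTG

theorem ma_wordDist_left {G : Type} [Group G] (S : Set G) (g a b : G) :
    wordDist S (g * a) (g * b) = wordDist S a b := by
  unfold wordDist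
  congr 1
  group

/-- A path of length exactly `D`. -/
theorem ma_pad (hW : ClaimW) {G : Type} [Group G] (S : Set G) (hS : Subgroup.closure S = ⊤)
    (g h : G) (D : ℕ) (hD : wordDist S g h ≤ D) :
    ∃ q : ℕ → G, q 0 = g ∧ q D = h ∧ IsPath S D q ∧ ∀ i ≤ D, wordDist S g (q i) ≤ D := by
  obtain ⟨-, -, -, -, h5, h6⟩ := hW G S hS
  obtain ⟨p, hp0, hp1, hp⟩ := h5 g h
  set d := wordDist S g h with hd
  refine ⟨fun i => p (min i d), by simp [hp0], by simp [hD, hp1], ?_, ?_⟩
  · intro i _
    by_cases hi : i < d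
    · have e1 : min i d = i := by omega
      have e2 : min (i + 1) d = i + 1 := by omega
      simp only [e1, e2]
      exact hp i hi
    · have e1 : min i d = d := by omega
      have e2 : min (i + 1) d = d := by omega
      simp only [e1, e2]
      exact Or.inl rfl
  · intro i _
    have := h6 d p hp 0 (min i d) (by omega) (by omega)
    rw [hp0] at this
    simp only
    omega

/-- Filling a sequence by a path. -/
theorem ma_fill (hW : ClaimW) {G : Type} [Group G] (S : Set G) (hS : Subgroup.closure S = ⊤)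
    (D : ℕ) (u : ℕ → G) (N : ℕ) (hu : ∀ k < N, wordDist S (u k) (u (k + 1)) ≤ D) :
    ∃ p : ℕ → G, p 0 = u 0 ∧ p (N * D) = u N ∧ IsPath S (N * D) p ∧
      ∀ i ≤ N * D, ∃ k ≤ N, wordDist S (u k) (p i) ≤ D := by
  obtain ⟨h1, -, -, -, -, -⟩ := hW G S hS
  have hself : ∀ g : G, wordDist S g g = 0 := fun g => (h1 _).2 (by group)
  induction N with
  | zero =>
    refine ⟨fun _ => u 0, rfl, rfl, ?_, ?_⟩
    · intro i _
      exact Or.inl rfl
    · intro i _
      exact ⟨0, le_rfl, by rw [hself]; exact Nat.zero_le _⟩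
  | succ N ih =>
    obtain ⟨p, hp0, hp1, hp, hpd⟩ := ih fun k hk => hu k (by omega)
    obtain ⟨q, hq0, hq1, hq, hqd⟩ := ma_pad hW S hS (u N) (u (N + 1)) D (hu N (by omega))
    have hmul : (N + 1) * D = N * D + D := by ring
    refine ⟨fun i => if i ≤ N * D then p i else q (i - N * D), by simp [hp0], ?_, ?_, ?_⟩
    · by_cases hD : D = 0
      · subst hD
        simp only [mul_zero, le_refl, if_true]
        rw [hq0] at hq1
        rw [← hq1, ← hp1, mul_zero]
      · have : ¬ (N + 1) * D ≤ N * D := by rw [hmul]; omega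
        simp only [this, if_false]
        rw [hmul, Nat.add_sub_cancel_left, hq1]
    · intro i hi
      by_cases h2 : i + 1 ≤ N * D
      · have h3 : i ≤ N * D := by omega
        simp only [h2, h3, if_true]
        exact hp i (by omega)
      · by_cases h3 : i ≤ N * D
        · have h4 : i = N * D := by omega
          simp only [h2, h3, if_true, if_false]
          have e : i + 1 - N * D = 1 := by omega
          rw [e, h4, hp1, ← hq0]
          exact hq 0 (by rw [hmul] at hi; omega)
        · simp only [h2, h3, if_false]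
          have e : i + 1 - N * D = (i - N * D) + 1 := by omega
          rw [e]
          exact hq _ (by rw [hmul] at hi; omega)
    · intro i hi
      by_cases h3 : i ≤ N * D
      · simp only [h3, if_true]
        obtain ⟨k, hk, h4⟩ := hpd i h3
        exact ⟨k, by omega, h4⟩
      · simp only [h3, if_false]
        exact ⟨N, by omega, hqd _ (by rw [hmul] at hi; omega)⟩

theorem ma_main (hW : ClaimW) {G : Type} [Group G] (S : Set G) (l : ℤ → G) (C : ℕ)
    (hS : Subgroup.closure S = ⊤)
    (hb : ∀ (i m j : ℤ) (n : ℕ) (p : ℕ → G), i ≤ m → m ≤ j → IsPath S n p → p 0 = l i →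
      p n = l j → ∀ r : ℕ, (∀ k ≤ n, r ≤ wordDist S (p k) (l m)) → r ^ 3 ≤ C * (n + 1) ^ 2)
    (K : ℝ) (hK : 1 ≤ K) (J : ℝ) (D : ℕ) (hD : K * (max J 0 + 3 * K) ≤ D)
    (X : Type) [PseudoMetricSpace X] (f : G → X) (hf : IsQIK S K f) :
    Bot (fun i => f (l i)) J (4 * K ^ 3 * C * (2 * D + 1) ^ 2 + 4 * (K * (1 + D) + 2 * K) ^ 3) := by
  intro i m j n x him hmj hx0 hxn hxJ r hr hrx
  obtain ⟨hf1, hf2⟩ := hf
  have hK0 : 0 < K := by linarith
  obtain ⟨-, h2, h3, -, -, -⟩ := hW G S hS
  have hsymm : ∀ a b : G, wordDist S a b = wordDist S b a := by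
    intro a b
    unfold wordDist
    rw [← h2 (a⁻¹ * b)]
    congr 1
    group
  have htri : ∀ a b c : G, wordDist S a c ≤ wordDist S a b + wordDist S b c := by
    intro a b c
    unfold wordDist
    have := h3 (a⁻¹ * b) (b⁻¹ * c)
    rwa [show a⁻¹ * b * (b⁻¹ * c) = a⁻¹ * c by group] at this
  choose w hw using hf2
  -- the sequence in the group
  let u : ℕ → G := fun k => if k = 0 then l i else if k ≤ n + 1 then w (x (k - 1)) else l j
  -- the sequence in the space
  let y : ℕ → X := fun k => x (min (k - 1) n)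
  have huy : ∀ k, dist (y k) (f (u k)) ≤ K := by
    intro k
    by_cases hk0 : k = 0
    · subst hk0
      simp only [u, y, if_true]
      have e : min (0 - 1) n = 0 := by omega
      rw [e, hx0, dist_self]
      exact hK0.le
    · by_cases hk1 : k ≤ n + 1
      · simp only [u, y, hk0, hk1, if_true, if_false]
        have e : min (k - 1) n = k - 1 := by omega
        rw [e]
        exact hw _
      · simp only [u, y, hk0, hk1, if_false]
        have e : min (k - 1) n = n := by omega
        rw [e, hxn, dist_self]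
        exact hK0.le
  have hyJ : ∀ k, dist (y k) (y (k + 1)) ≤ max J 0 := by
    intro k
    by_cases hk0 : k = 0
    · subst hk0
      simp only [y]
      have e1 : min (0 - 1) n = 0 := by omega
      rw [e1]
      refine (le_of_eq ?_).trans (le_max_right J 0)
      exact dist_self _
    · by_cases hk1 : k ≤ n
      · simp only [y]
        have e1 : min (k - 1) n = k - 1 := by omega
        have e2 : min (k + 1 - 1) n = k - 1 + 1 := by omega
        rw [e1, e2]
        exact (hxJ (k - 1) (by omega)).trans (le_max_left _ _)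
      · simp only [y]
        have e1 : min (k - 1) n = n := by omega
        have e2 : min (k + 1 - 1) n = n := by omega
        rw [e1, e2, dist_self]
        exact le_max_right _ _
  have hstep : ∀ k < n + 2, wordDist S (u k) (u (k + 1)) ≤ D := by
    intro k _
    have h4 : dist (f (u k)) (f (u (k + 1))) ≤ K + max J 0 + K := by
      have a1 := huy k
      have a2 := huy (k + 1)
      have a3 := hyJ k
      rw [dist_comm] at a1
      have a4 := dist_triangle4 (f (u k)) (y k) (y (k + 1)) (f (u (k + 1)))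
      linarith
    have h5 := (hf1 (u k) (u (k + 1))).1
    have h6 : (wordDist S (u k) (u (k + 1)) : ℝ) / K ≤ max J 0 + 3 * K := by linarith
    rw [div_le_iff₀ hK0] at h6
    have h7 : (wordDist S (u k) (u (k + 1)) : ℝ) ≤ D := by
      refine h6.trans ?_
      rw [mul_comm]
      exact hD
    exact_mod_cast h7
  obtain ⟨p, hp0, hp1, hp, hpd⟩ := ma_fill hW S hS D u (n + 2) hstep
  have hu0 : u 0 = l i := by simp [u]
  have hun : u (n + 2) = l j := by simp [u]
  rw [hu0] at hp0
  rw [hun] at hp1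
  have hfar : ∀ k, (r - 2 * K) / K ≤ (wordDist S (u k) (l m) : ℝ) := by
    intro k
    have a1 := (hf1 (u k) (l m)).2
    have a2 := huy k
    have a3 : r ≤ dist (y k) (f (l m)) := hrx _ (by omega)
    have a4 := dist_triangle (y k) (f (u k)) (f (l m))
    rw [div_le_iff₀ hK0]
    linarith
  set ρ : ℝ := (r - 2 * K) / K - D with hρ
  have hr' : ∀ k ≤ (n + 2) * D, ⌊ρ⌋₊ ≤ wordDist S (p k) (l m) := by
    intro k hk
    obtain ⟨k', _, h8⟩ := hpd k hk
    apply Nat.floor_le_of_le
    have a1 := hfar k'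
    have a2 : (wordDist S (u k') (l m) : ℝ) ≤ wordDist S (u k') (p k) + wordDist S (p k) (l m) := by
      exact_mod_cast htri _ _ _
    have a3 : (wordDist S (u k') (p k) : ℝ) ≤ D := by exact_mod_cast h8
    rw [hρ]
    linarith
  have hfin := hb i m j _ p him hmj hp hp0 hp1 ⌊ρ⌋₊ hr'
  have hfin' : ((⌊ρ⌋₊ : ℕ) : ℝ) ^ 3 ≤ C * (((n : ℝ) + 2) * D + 1) ^ 2 := by exact_mod_cast hfin
  have hlt : ρ < (⌊ρ⌋₊ : ℝ) + 1 := Nat.lt_floor_add_one ρ
  set t : ℝ := (⌊ρ⌋₊ : ℝ) with ht
  have ht0 : 0 ≤ t := Nat.cast_nonneg _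
  set A : ℝ := K * (1 + D) + 2 * K with hA
  have hA0 : 0 ≤ A := by positivity
  have hrt : r ≤ K * t + A := by
    have b1 : (r - 2 * K) / K ≤ t + 1 + D := by rw [hρ] at hlt; linarith
    rw [div_le_iff₀ hK0] at b1
    rw [hA]
    linarith
  have hn0 : (0 : ℝ) ≤ n := Nat.cast_nonneg _
  have hD0 : (0 : ℝ) ≤ D := Nat.cast_nonneg _
  have c1 : r ^ 3 ≤ (K * t + A) ^ 3 := pow_le_pow_left₀ hr hrt 3
  have c2 : (K * t + A) ^ 3 ≤ 2 ^ (3 - 1) * ((K * t) ^ 3 + A ^ 3) :=
    add_pow_le (by positivity) hA0 3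
  have c3 : ((n : ℝ) + 2) * D + 1 ≤ (2 * D + 1) * (n + 1) := by nlinarith
  have c4 : (((n : ℝ) + 2) * D + 1) ^ 2 ≤ ((2 * D + 1) * (n + 1)) ^ 2 :=
    pow_le_pow_left₀ (by positivity) c3 2
  have c5 : t ^ 3 ≤ C * ((2 * D + 1) * (n + 1)) ^ 2 :=
    hfin'.trans (mul_le_mul_of_nonneg_left c4 (Nat.cast_nonneg _))
  have c6 : K ^ 3 * t ^ 3 ≤ K ^ 3 * (C * ((2 * D + 1) * (n + 1)) ^ 2) :=
    mul_le_mul_of_nonneg_left c5 (by positivity)
  have c7 : A ^ 3 ≤ A ^ 3 * ((n : ℝ) + 1) ^ 2 := by
    apply le_mul_of_one_le_right (by positivity)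
    nlinarith
  calc r ^ 3 ≤ 2 ^ (3 - 1) * ((K * t) ^ 3 + A ^ 3) := c1.trans c2
    _ = 4 * (K ^ 3 * t ^ 3) + 4 * A ^ 3 := by norm_num; ring
    _ ≤ 4 * (K ^ 3 * (C * ((2 * D + 1) * (n + 1)) ^ 2)) + 4 * (A ^ 3 * ((n : ℝ) + 1) ^ 2) := by
      linarith
    _ = _ := by ring

theorem thm_MA (hW : ClaimW) : ClaimMA := by
  intro G _ S l C hS hb K hK
  refine ⟨fun J => 4 * K ^ 3 * C * (2 * (⌈K * (max J 0 + 3 * K)⌉₊ : ℕ) + 1) ^ 2 +
    4 * (K * (1 + (⌈K * (max J 0 + 3 * K)⌉₊ : ℕ)) + 2 * K) ^ 3, ?_⟩
  intro X _ f hf g J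
  have hf' : IsQIK S K (fun h => f (g * h)) := by
    obtain ⟨h1, h2⟩ := hf
    refine ⟨fun a b => ?_, fun x => ?_⟩
    · have := h1 (g * a) (g * b)
      rwa [ma_wordDist_left] at this
    · obtain ⟨a, ha⟩ := h2 x
      refine ⟨g⁻¹ * a, ?_⟩
      change dist x (f (g * (g⁻¹ * a))) ≤ K
      rwa [mul_inv_cancel_left]
  exact ma_main hW S l C hS hb K hK J _ (Nat.le_ceil _) X _ hf'

end MLTG

end

section

/-!
# MB: bottlenecks imply Morse
-/

open Set

namespace MLTG

section paths

variable {X : Type} [PseudoMetricSpace X]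

/-- There is a discrete path of length `n` from `x` to `y` with jumps at most `J` and points
in `P`. -/
def DP (J : ℝ) (P : X → Prop) (n : ℕ) (x y : X) : Prop :=
  ∃ z : ℕ → X, z 0 = x ∧ z n = y ∧ (∀ k < n, dist (z k) (z (k + 1)) ≤ J) ∧ ∀ k ≤ n, P (z k)

theorem DP.nil {J : ℝ} {P : X → Prop} {x : X} (h : P x) : DP J P 0 x x :=
  ⟨fun _ => x, rfl, rfl, fun k hk => absurd hk (Nat.not_lt_zero k), fun _ _ => h⟩

theorem DP.trans {J : ℝ} {P : X → Prop} {n m : ℕ} {x y w : X} (h1 : DP J P n x y)
    (h2 : DP J P m y w) : DP J P (n + m) x w := by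
  obtain ⟨z, z0, zn, zJ, zP⟩ := h1
  obtain ⟨u, u0, um, uJ, uP⟩ := h2
  refine ⟨fun k => if k ≤ n then z k else u (k - n), ?_, ?_, ?_, ?_⟩
  · simp [z0]
  · dsimp only
    split_ifs with h
    · have : m = 0 := by omega
      subst this
      rw [← um, u0, ← zn]
      simp
    · rw [← um]
      congr 1
      omega
  · intro k hk
    dsimp only
    by_cases h1 : k + 1 ≤ n
    · rw [if_pos (by omega), if_pos h1]
      exact zJ k (by omega)
    · by_cases h2 : k ≤ n
      · have : k = n := by omega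
        subst this
        rw [if_pos le_rfl, if_neg h1, zn, ← u0]
        have := uJ 0 (by omega)
        simpa using this
      · rw [if_neg h2, if_neg h1]
        have := uJ (k - n) (by omega)
        have e : k + 1 - n = k - n + 1 := by omega
        rw [e]
        exact this
  · intro k hk
    dsimp only
    split_ifs with h
    · exact zP k h
    · exact uP _ (by omega)

theorem DP.symm {J : ℝ} {P : X → Prop} {n : ℕ} {x y : X} (h : DP J P n x y) : DP J P n y x := by
  obtain ⟨z, z0, zn, zJ, zP⟩ := h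
  refine ⟨fun k => z (n - k), ?_, ?_, ?_, ?_⟩
  · simpa using zn
  · simpa using z0
  · intro k hk
    dsimp only
    have := zJ (n - (k + 1)) (by omega)
    have e : n - k = n - (k + 1) + 1 := by omega
    rw [dist_comm, e]
    exact this
  · intro k hk
    exact zP _ (by omega)

/-- Parts of a sequence. -/
theorem DP.seq {J : ℝ} {P : X → Prop} (x : ℕ → X) (hJ : ∀ k, dist (x k) (x (k + 1)) ≤ J)
    (hP : ∀ k, P (x k)) (a b : ℕ) : ∃ n : ℕ, (n : ℝ) = |(a : ℝ) - b| ∧ DP J P n (x a) (x b) := by
  rcases le_total a b with h | h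
  · refine ⟨b - a, ?_, fun k => x (a + k), rfl, ?_, fun k _ => ?_, fun k _ => hP _⟩
    · rw [Nat.cast_sub h, abs_sub_comm, abs_of_nonneg]
      have : (a : ℝ) ≤ b := by exact_mod_cast h
      linarith
    · dsimp only; congr 1; omega
    · exact hJ (a + k)
  · refine ⟨a - b, ?_, DP.symm ⟨fun k => x (b + k), rfl, ?_, fun k _ => ?_, fun k _ => hP _⟩⟩
    · rw [Nat.cast_sub h, abs_of_nonneg]
      have : (b : ℝ) ≤ a := by exact_mod_cast h
      linarith
    · dsimp only; congr 1; omega
    · exact hJ (b + k)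

theorem path_dist {K : ℝ} (n : ℕ) (z : ℕ → X) (hz : ∀ k < n, dist (z k) (z (k + 1)) ≤ K) :
    ∀ k ≤ n, dist (z 0) (z k) ≤ K * k := by
  intro k
  induction k with
  | zero => intro _; simp
  | succ k ih =>
    intro hk
    have h1 := ih (by omega)
    have h2 := hz k (by omega)
    have h3 := dist_triangle (z 0) (z k) (z (k + 1))
    push_cast
    linarith

end paths

section samples

variable {X : Type} [PseudoMetricSpace X] {η : ℝ → X} {c d lam eps : ℝ}

/-- Sample times. -/
noncomputable def stime (c d : ℝ) (k : ℕ) : ℝ := min (c + k) d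

theorem stime_mem (hcd : c ≤ d) (k : ℕ) : stime c d k ∈ Icc c d := by
  have : (0 : ℝ) ≤ k := Nat.cast_nonneg k
  exact ⟨le_min (by linarith) hcd, min_le_right _ _⟩

theorem stime_mono {k k' : ℕ} (h : k ≤ k') : stime c d k ≤ stime c d k' := by
  have : (k : ℝ) ≤ k' := by exact_mod_cast h
  exact min_le_min (by linarith) le_rfl

theorem stime_succ (k : ℕ) : |stime c d k - stime c d (k + 1)| ≤ 1 := by
  have h1 : stime c d k ≤ stime c d (k + 1) := stime_mono (Nat.le_succ k)
  rw [abs_sub_comm, abs_of_nonneg (by linarith)]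
  unfold stime
  rcases le_total (c + k) d with h | h
  · rw [min_eq_left h]
    have := min_le_left (c + ((k + 1 : ℕ) : ℝ)) d
    push_cast at this ⊢
    linarith
  · rw [min_eq_right h]
    have := min_le_right (c + ((k + 1 : ℕ) : ℝ)) d
    linarith

theorem stime_zero (hcd : c ≤ d) : stime c d 0 = c := by
  simp [stime, hcd]

theorem stime_last : stime c d ⌈d - c⌉₊ = d := by
  have := Nat.le_ceil (d - c)
  exact min_eq_right (by linarith)

/-- Number of steps between two samples. -/
theorem stime_steps (hcd : c ≤ d) {k k' : ℕ} (hk : k ≤ ⌈d - c⌉₊) (hk' : k' ≤ ⌈d - c⌉₊) :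
    |(k : ℝ) - k'| ≤ |stime c d k - stime c d k'| + 1 := by
  have hN : (⌈d - c⌉₊ : ℝ) < d - c + 1 := Nat.ceil_lt_add_one (by linarith)
  have key : ∀ a b : ℕ, a ≤ b → b ≤ ⌈d - c⌉₊ →
      |(a : ℝ) - b| ≤ |stime c d a - stime c d b| + 1 := by
    intro a b hab hb
    have hb' : (b : ℝ) ≤ ⌈d - c⌉₊ := by exact_mod_cast hb
    have hab' : (a : ℝ) ≤ b := by exact_mod_cast hab
    have h1 : stime c d a ≤ c + a := min_le_left _ _
    have h2 : c + b - 1 ≤ stime c d b := le_min (by linarith) (by linarith)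
    have h3 : stime c d b - stime c d a ≤ |stime c d a - stime c d b| := by
      rw [abs_sub_comm]; exact le_abs_self _
    rw [abs_sub_comm, abs_of_nonneg (by linarith)]
    linarith
  rcases le_total k k' with h | h
  · exact key k k' h hk'
  · have := key k' k h hk
    rw [abs_sub_comm, abs_sub_comm (stime c d k)]
    exact this

theorem IsQG.low (h : IsQG η c d lam eps) (hl : 1 ≤ lam) {s t : ℝ} (hs : s ∈ Icc c d)
    (ht : t ∈ Icc c d) : |s - t| ≤ lam * (dist (η s) (η t) + eps) := by
  have h1 := (h s hs t ht).1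
  have h2 : |s - t| / lam ≤ dist (η s) (η t) + eps := by linarith
  rw [div_le_iff₀ (by linarith)] at h2
  linarith

end samples

/-- Constant for the number of steps. -/
noncomputable def KK (K lam eps : ℝ) : ℝ :=
  4 * K + lam * (2 + 2 * K * (2 * (K + K ^ 3) + 1) + K + eps) + 2

theorem fin_step (D C k : ℝ) (hD : 1 ≤ D) (h : D ^ 3 ≤ C * (k * D) ^ 2) : D ≤ C * k ^ 2 := by
  have h2 : D ^ 2 * D ≤ D ^ 2 * (C * k ^ 2) := by
    have e1 : D ^ 3 = D ^ 2 * D := by ring
    have e2 : C * (k * D) ^ 2 = D ^ 2 * (C * k ^ 2) := by ring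
    rw [e1, e2] at h
    exact h
  exact le_of_mul_le_mul_left h2 (by positivity)

/-- Bound for the length. -/
theorem len_step (K lam eps D R n1 n2 n3 : ℝ) (hK : 1 ≤ K) (hlam : 1 ≤ lam) (heps : 0 ≤ eps)
    (hD1 : 1 ≤ D) (hR2 : R < (K + K ^ 3) * (D + 1) + 1) (hn1 : n1 ≤ K * D + K)
    (hn2 : n2 ≤ K * D + K) (hn3 : n3 ≤ lam * (2 * D + (K * (2 * R) + K) + eps) + 1) :
    n1 + n3 + n2 + 1 ≤ KK K lam eps * D := by
  have c1 : K * (2 * R) ≤ 2 * K * (2 * (K + K ^ 3) + 1) * D := by
    have d1 : R ≤ (2 * (K + K ^ 3) + 1) * D := by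
      have d2 : 0 ≤ K + K ^ 3 := by positivity
      nlinarith
    have := mul_le_mul_of_nonneg_left d1 (by linarith : (0:ℝ) ≤ 2 * K)
    linarith
  have c2 : 2 * D + (K * (2 * R) + K) + eps ≤
      (2 + 2 * K * (2 * (K + K ^ 3) + 1) + K + eps) * D := by
    nlinarith
  have c3 : lam * (2 * D + (K * (2 * R) + K) + eps) ≤
      lam * ((2 + 2 * K * (2 * (K + K ^ 3) + 1) + K + eps) * D) :=
    mul_le_mul_of_nonneg_left c2 (by linarith)
  have c4 : KK K lam eps * D = 4 * K * D +
      lam * ((2 + 2 * K * (2 * (K + K ^ 3) + 1) + K + eps) * D) + 2 * D := by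
    unfold KK; ring
  rw [c4]
  nlinarith

/-- The first part: every point of the line is close to a sample. -/
theorem MB_first (K : ℝ) (CJ : ℝ → ℝ) (lam eps : ℝ) (hK : 1 ≤ K) (hlam : 1 ≤ lam)
    (heps : 0 ≤ eps) (X : Type) [PseudoMetricSpace X] (l : ℤ → X) (hCG : CG X K)
    (hup : ∀ i j : ℤ, dist (l i) (l j) ≤ K * |(i : ℝ) - j| + K)
    (hlow : ∀ i j : ℤ, |(i : ℝ) - j| ≤ K * dist (l i) (l j) + K)
    (hbot : ∀ J, Bot l J (CJ J)) (η : ℝ → X) (c d : ℝ) (hcd : c ≤ d)
    (hη : IsQG η c d lam eps) (i j : ℤ) (hij : i ≤ j) (hi : η c = l i) (hj : η d = l j)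
    (m : ℤ) (him : i ≤ m) (hmj : m ≤ j) :
    ∃ k ≤ ⌈d - c⌉₊, dist (η (stime c d k)) (l m) ≤
      1 + |CJ (K + lam + eps)| * KK K lam eps ^ 2 := by
  classical
  set N0 := ⌈d - c⌉₊ with hN0
  set x : ℕ → X := fun k => η (stime c d k) with hx
  set J := K + lam + eps with hJdef
  have hne : (Finset.range (N0 + 1)).Nonempty := ⟨0, by simp⟩
  -- the distance of `l m` to the samples
  set DD' : ℤ → ℝ := fun m => (Finset.range (N0 + 1)).inf' hne (fun k => dist (x k) (l m))
    with hDD
  have hDle : ∀ m, ∀ k ≤ N0, DD' m ≤ dist (x k) (l m) := fun m k hk =>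
    Finset.inf'_le _ (by simpa using Nat.lt_succ_of_le hk)
  have hDex : ∀ m, ∃ k ≤ N0, dist (x k) (l m) = DD' m := by
    intro m
    obtain ⟨k, hk, h⟩ := Finset.exists_mem_eq_inf' hne (fun k => dist (x k) (l m))
    exact ⟨k, by simpa [Nat.lt_succ_iff] using hk, h.symm⟩
  obtain ⟨m0, hm0, hmax⟩ := Finset.exists_max_image (Finset.Icc i j) DD' ⟨i, by simp [hij]⟩
  rw [Finset.mem_Icc] at hm0
  have hmax' : ∀ m, i ≤ m → m ≤ j → DD' m ≤ DD' m0 := fun m h1 h2 =>
    hmax m (Finset.mem_Icc.mpr ⟨h1, h2⟩)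
  set D := DD' m0 with hD
  obtain ⟨k1, hk1, hk1'⟩ := hDex m
  have hfin : DD' m ≤ D := hmax' m him hmj
  refine ⟨k1, hk1, ?_⟩
  have hgoal : D ≤ 1 + |CJ J| * KK K lam eps ^ 2 := by
    by_contra hcon
    push Not at hcon
    have hCK : 0 ≤ |CJ J| * KK K lam eps ^ 2 := by positivity
    have hD1 : 1 ≤ D := by linarith
    set P : X → Prop := fun y => D ≤ dist y (l m0) with hP
    have hx0 : x 0 = l i := by
      show η (stime c d 0) = l i
      rw [stime_zero hcd, hi]
    have hxN : ∀ k, N0 ≤ k → x k = l j := by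
      intro k hk
      show η (stime c d k) = l j
      have h1 : stime c d N0 ≤ stime c d k := stime_mono hk
      rw [stime_last] at h1
      have h2 : stime c d k = d := le_antisymm (min_le_right _ _) h1
      rw [h2, hj]
    have hxP : ∀ k, P (x k) := by
      intro k
      rcases le_total k N0 with h | h
      · exact hDle m0 k h
      · show D ≤ dist (x k) (l m0)
        rw [hxN k h, ← hxN N0 le_rfl]
        exact hDle m0 N0 le_rfl
    have hxJ : ∀ k, dist (x k) (x (k + 1)) ≤ J := by
      intro k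
      have h1 := (hη _ (stime_mem hcd k) _ (stime_mem hcd (k + 1))).2
      have h2 := stime_succ (c := c) (d := d) k
      have h3 : lam * |stime c d k - stime c d (k + 1)| ≤ lam * 1 :=
        mul_le_mul_of_nonneg_left h2 (by linarith)
      show dist (η (stime c d k)) (η (stime c d (k + 1))) ≤ J
      linarith
    -- paths from the line to samples
    have hends : ∀ m', i ≤ m' → m' ≤ j →
        (m' = i ∨ m' = j ∨ (K + K ^ 3) * (D + 1) ≤ |(m' : ℝ) - m0|) →
        ∃ k ≤ N0, ∃ n : ℕ, (n : ℝ) ≤ K * D + K ∧ dist (x k) (l m') ≤ D ∧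
          DP J P n (l m') (x k) := by
      intro m' h1 h2 h3
      rcases h3 with h3 | h3 | h3
      · refine ⟨0, Nat.zero_le _, 0, ?_, ?_, ?_⟩
        · simp only [Nat.cast_zero]; nlinarith
        · rw [h3, hx0, dist_self]; linarith
        · rw [h3, ← hx0]
          exact DP.nil (hxP 0)
      · refine ⟨N0, le_rfl, 0, ?_, ?_, ?_⟩
        · simp only [Nat.cast_zero]; nlinarith
        · rw [h3, hxN N0 le_rfl, dist_self]; linarith
        · rw [h3, ← hxN N0 le_rfl]
          exact DP.nil (hxP N0)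
      · obtain ⟨k, hk, hk'⟩ := hDex m'
        have hkD : dist (x k) (l m') ≤ D := hk'.le.trans (hmax' m' h1 h2)
        obtain ⟨n, z, hn, hz0, hzn, hzJ⟩ := hCG (l m') (x k)
        have hn' : (n : ℝ) ≤ K * D + K := by
          rw [dist_comm] at hn
          have : K * dist (x k) (l m') ≤ K * D := mul_le_mul_of_nonneg_left hkD (by linarith)
          linarith
        refine ⟨k, hk, n, hn', hkD, z, hz0, hzn, fun a ha => ?_, fun a ha => ?_⟩
        · exact (hzJ a ha).trans (by linarith)
        · show D ≤ dist (z a) (l m0)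
          have e1 := path_dist n z hzJ a ha
          rw [hz0] at e1
          have ha' : (a : ℝ) ≤ n := by exact_mod_cast ha
          have e2 : K * (a : ℝ) ≤ K * (K * D + K) :=
            mul_le_mul_of_nonneg_left (ha'.trans hn') (by linarith)
          have e3 := hlow m' m0
          have e4 := dist_triangle (l m') (z a) (l m0)
          -- `K * dist (l m') (l m0) ≥ (K + K^3) (D + 1) - K`
          have e5 : (K + K ^ 3) * (D + 1) - K ≤ K * dist (l m') (l m0) := by linarith
          have e6 : K * dist (l m') (l m0) ≤ K * (K * (K * D + K) + dist (z a) (l m0)) :=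
            mul_le_mul_of_nonneg_left (by linarith) (by linarith)
          have e7 : K * D ≤ K * dist (z a) (l m0) := by nlinarith
          exact le_of_mul_le_mul_left e7 (by linarith)
    -- the two ends
    set R : ℕ := ⌈(K + K ^ 3) * (D + 1)⌉₊ with hR
    have hA : 0 ≤ (K + K ^ 3) * (D + 1) := by positivity
    have hR1 : (K + K ^ 3) * (D + 1) ≤ R := Nat.le_ceil _
    have hR2 : (R : ℝ) < (K + K ^ 3) * (D + 1) + 1 := Nat.ceil_lt_add_one hA
    have hm1 : ∃ m1, i ≤ m1 ∧ m1 ≤ m0 ∧ (m0 - m1 ≤ R) ∧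
        (m1 = i ∨ m1 = j ∨ (K + K ^ 3) * (D + 1) ≤ |(m1 : ℝ) - m0|) := by
      by_cases h : i ≤ m0 - R
      · refine ⟨m0 - R, h, by omega, by omega, Or.inr (Or.inr ?_)⟩
        push_cast
        have : (m0 : ℝ) - R - m0 = -R := by ring
        rw [this, abs_neg, abs_of_nonneg (Nat.cast_nonneg _)]
        exact hR1
      · exact ⟨i, le_rfl, hm0.1, by omega, Or.inl rfl⟩
    have hm2 : ∃ m2, m2 ≤ j ∧ m0 ≤ m2 ∧ (m2 - m0 ≤ R) ∧
        (m2 = i ∨ m2 = j ∨ (K + K ^ 3) * (D + 1) ≤ |(m2 : ℝ) - m0|) := by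
      by_cases h : m0 + R ≤ j
      · refine ⟨m0 + R, h, by omega, by omega, Or.inr (Or.inr ?_)⟩
        push_cast
        have : (m0 : ℝ) + R - m0 = R := by ring
        rw [this, abs_of_nonneg (Nat.cast_nonneg _)]
        exact hR1
      · exact ⟨j, le_rfl, hm0.2, by omega, Or.inr (Or.inl rfl)⟩
    obtain ⟨m1, a1, a2, a3, a4⟩ := hm1
    obtain ⟨m2, b1, b2, b3, b4⟩ := hm2
    obtain ⟨k1, hk1, n1, hn1, hd1, p1⟩ := hends m1 a1 (by omega) a4
    obtain ⟨k2, hk2, n2, hn2, hd2, p2⟩ := hends m2 (by omega) b1 b4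
    obtain ⟨n3, hn3, p3⟩ := DP.seq x hxJ hxP k1 k2
    have p := (p1.trans p3).trans p2.symm
    obtain ⟨z, hz0, hzn, hzJ, hzP⟩ := p
    have hb := hbot J m1 m0 m2 (n1 + n3 + n2) z a2 b2 hz0 hzn hzJ D (by linarith) hzP
    -- the length
    have hst := stime_steps hcd hk1 hk2
    have hq := hη.low hlam (stime_mem hcd k1) (stime_mem hcd k2)
    have hm12 : |(m1 : ℝ) - m2| ≤ 2 * R := by
      have c1 : (m1 : ℝ) ≤ m2 := by exact_mod_cast (by omega : m1 ≤ m2)
      have c2 : (m2 : ℝ) - m1 ≤ 2 * R := by exact_mod_cast (by omega : m2 - m1 ≤ 2 * R)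
      rw [abs_sub_comm, abs_of_nonneg (by linarith)]
      exact c2
    have hdd : dist (x k1) (x k2) ≤ 2 * D + (K * (2 * R) + K) := by
      have c1 := dist_triangle4 (x k1) (l m1) (l m2) (x k2)
      have c2 := hup m1 m2
      have c3 : K * |(m1 : ℝ) - m2| ≤ K * (2 * R) := mul_le_mul_of_nonneg_left hm12 (by linarith)
      have c4 : dist (l m2) (x k2) = dist (x k2) (l m2) := dist_comm _ _
      linarith
    have hn3' : (n3 : ℝ) ≤ lam * (2 * D + (K * (2 * R) + K) + eps) + 1 := by
      rw [hn3]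
      have c1 : lam * (dist (η (stime c d k1)) (η (stime c d k2)) + eps) ≤
          lam * (2 * D + (K * (2 * R) + K) + eps) :=
        mul_le_mul_of_nonneg_left (by
          have : dist (η (stime c d k1)) (η (stime c d k2)) = dist (x k1) (x k2) := rfl
          linarith) (by linarith)
      linarith
    have hlen : ((n1 + n3 + n2 : ℕ) : ℝ) + 1 ≤ KK K lam eps * D := by
      push_cast
      exact len_step K lam eps D R n1 n2 n3 hK hlam heps hD1 hR2 hn1 hn2 hn3'
    have hlen2 : (((n1 + n3 + n2 : ℕ) : ℝ) + 1) ^ 2 ≤ (KK K lam eps * D) ^ 2 := by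
      have : (0 : ℝ) ≤ ((n1 + n3 + n2 : ℕ) : ℝ) + 1 := by positivity
      exact pow_le_pow_left₀ this hlen 2
    have h1 : D ^ 3 ≤ |CJ J| * (KK K lam eps * D) ^ 2 := by
      calc D ^ 3 ≤ CJ J * (((n1 + n3 + n2 : ℕ) : ℝ) + 1) ^ 2 := by exact_mod_cast hb
        _ ≤ |CJ J| * (((n1 + n3 + n2 : ℕ) : ℝ) + 1) ^ 2 :=
          mul_le_mul_of_nonneg_right (le_abs_self _) (by positivity)
        _ ≤ |CJ J| * (KK K lam eps * D) ^ 2 :=
          mul_le_mul_of_nonneg_left hlen2 (abs_nonneg _)
    have h3 : D ≤ |CJ J| * KK K lam eps ^ 2 := fin_step _ _ _ hD1 h1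
    linarith
  have : dist (η (stime c d k1)) (l m) = DD' m := hk1'
  rw [this]
  exact hfin.trans hgoal

/-- The forward case. -/
theorem MB_forward (K : ℝ) (lam eps : ℝ) (hK : 1 ≤ K) (hlam : 1 ≤ lam)
    (D0 : ℝ) (hD0 : 0 ≤ D0) (X : Type) [PseudoMetricSpace X] (l : ℤ → X)
    (hup : ∀ i j : ℤ, dist (l i) (l j) ≤ K * |(i : ℝ) - j| + K)
    (η : ℝ → X) (c d : ℝ) (hcd : c ≤ d)
    (hη : IsQG η c d lam eps) (i j : ℤ) (hij : i ≤ j) (hi : η c = l i) (hj : η d = l j)
    (hfirst : ∀ m : ℤ, i ≤ m → m ≤ j → ∃ k ≤ ⌈d - c⌉₊, dist (η (stime c d k)) (l m) ≤ D0)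
    (t : ℝ) (ht : t ∈ Icc c d) :
    ∃ m, i ≤ m ∧ m ≤ j ∧
      dist (η t) (l m) ≤ lam * (lam * (2 * D0 + 2 * K + eps) + 1) + eps + D0 := by
  have htc : 0 ≤ t - c := by linarith [ht.1]
  set k0 := ⌊t - c⌋₊ with hk0
  have hk0a : (k0 : ℝ) ≤ t - c := Nat.floor_le htc
  have hk0b : t - c < k0 + 1 := Nat.lt_floor_add_one _
  have hs0 : stime c d k0 = c + k0 := min_eq_left (by linarith [ht.2])
  -- two close samples
  have key : ∃ m m' : ℤ, i ≤ m ∧ m ≤ j ∧ |(m : ℝ) - m'| ≤ 1 ∧ ∃ k k' : ℕ, k ≤ k0 ∧ k0 ≤ k' ∧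
      dist (η (stime c d k)) (l m) ≤ D0 ∧ dist (η (stime c d k')) (l m') ≤ D0 := by
    set low : ℤ → Prop := fun m => ∃ k ≤ k0, dist (η (stime c d k)) (l m) ≤ D0 with hlow
    have hlowi : low i := ⟨0, Nat.zero_le _, by rw [stime_zero hcd, hi, dist_self]; exact hD0⟩
    by_cases hall : ∃ m, i ≤ m ∧ m < j ∧ low m ∧ ¬ low (m + 1)
    · obtain ⟨m, h1, h2, ⟨k, hk, hkd⟩, h4⟩ := hall
      obtain ⟨k', -, hk'd⟩ := hfirst (m + 1) (by omega) (by omega)
      have hk' : k0 ≤ k' := by
        by_contra hlt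
        exact h4 ⟨k', by omega, hk'd⟩
      refine ⟨m, m + 1, h1, by omega, ?_, k, k', hk, hk', hkd, hk'd⟩
      push_cast
      rw [abs_sub_comm]
      simp
    · push Not at hall
      have hind : ∀ m, i ≤ m → m ≤ j → low m := by
        intro m him
        induction m, him using Int.leInduction with
        | base => intro _; exact hlowi
        | succ m hm ih =>
          intro hmj
          exact hall m hm (by omega) (ih (by omega))
      obtain ⟨k, hk, hkd⟩ := hind j hij le_rfl
      have hk0N : k0 ≤ ⌈d - c⌉₊ := by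
        have h1 : (k0 : ℝ) ≤ d - c := by linarith [ht.2]
        have h2 := Nat.le_ceil (d - c)
        exact_mod_cast h1.trans h2
      refine ⟨j, j, hij, le_rfl, by simp, k, ⌈d - c⌉₊, hk, hk0N, hkd, ?_⟩
      rw [stime_last, hj, dist_self]
      exact hD0
  obtain ⟨m, m', h1, h2, h3, k, k', hk, hk', hkd, hk'd⟩ := key
  refine ⟨m, h1, h2, ?_⟩
  have e1 : dist (η (stime c d k)) (η (stime c d k')) ≤ 2 * D0 + 2 * K := by
    have c1 := dist_triangle4 (η (stime c d k)) (l m) (l m') (η (stime c d k'))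
    have c2 := hup m m'
    have c3 : K * |(m : ℝ) - m'| ≤ K * 1 := mul_le_mul_of_nonneg_left h3 (by linarith)
    have c4 : dist (l m') (η (stime c d k')) = dist (η (stime c d k')) (l m') := dist_comm _ _
    linarith
  have e2 := hη.low hlam (stime_mem hcd k) (stime_mem hcd k')
  have e3 : stime c d k' - stime c d k ≤ lam * (2 * D0 + 2 * K + eps) := by
    have c1 : stime c d k' - stime c d k ≤ |stime c d k - stime c d k'| := by
      rw [abs_sub_comm]; exact le_abs_self _
    have c2 : lam * (dist (η (stime c d k)) (η (stime c d k')) + eps) ≤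
        lam * (2 * D0 + 2 * K + eps) := mul_le_mul_of_nonneg_left (by linarith) (by linarith)
    linarith
  have e4 : stime c d k ≤ stime c d k0 := stime_mono hk
  have e5 : stime c d k0 ≤ stime c d k' := stime_mono hk'
  have e6 : |t - stime c d k| ≤ lam * (2 * D0 + 2 * K + eps) + 1 := by
    rw [abs_of_nonneg (by linarith)]
    linarith
  have e7 := (hη t ht _ (stime_mem hcd k)).2
  have e8 : lam * |t - stime c d k| ≤ lam * (lam * (2 * D0 + 2 * K + eps) + 1) :=
    mul_le_mul_of_nonneg_left e6 (by linarith)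
  have e9 := dist_triangle (η t) (η (stime c d k)) (l m)
  linarith

theorem thm_MB : ClaimMB := by
  intro K CJ lam eps hK hlam heps
  set D0 : ℝ := 1 + |CJ (K + lam + eps)| * KK K lam eps ^ 2 with hD0
  have hD0' : 0 ≤ D0 := by positivity
  refine ⟨lam * (lam * (2 * D0 + 2 * K + eps) + 1) + eps + D0, by positivity, ?_⟩
  intro X _ l hCG hup hlow hbot η c d hcd hη i j hij hends t ht
  rcases hends with ⟨hi, hj⟩ | ⟨hj, hi⟩
  · exact MB_forward K lam eps hK hlam D0 hD0' X l hup η c d hcd hη i j hij hi hj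
      (fun m h1 h2 => MB_first K CJ lam eps hK hlam heps X l hCG hup hlow hbot η c d hcd hη i j
        hij hi hj m h1 h2) t ht
  · have hmem : ∀ s ∈ Icc c d, c + d - s ∈ Icc c d := fun s hs =>
      ⟨by linarith [hs.2], by linarith [hs.1]⟩
    have hη' : IsQG (fun s => η (c + d - s)) c d lam eps := by
      intro s hs s' hs'
      have h := hη _ (hmem s hs) _ (hmem s' hs')
      have e : |c + d - s - (c + d - s')| = |s - s'| := by
        rw [abs_sub_comm]; congr 1; ring
      rw [e] at h
      exact h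
    have hi' : (fun s => η (c + d - s)) c = l i := by
      show η (c + d - c) = l i
      rw [← hi]; congr 1; ring
    have hj' : (fun s => η (c + d - s)) d = l j := by
      show η (c + d - d) = l j
      rw [← hj]; congr 1; ring
    obtain ⟨m, h1, h2, h3⟩ := MB_forward K lam eps hK hlam D0 hD0' X l hup
      (fun s => η (c + d - s)) c d hcd hη' i j hij hi' hj'
      (fun m h1 h2 => MB_first K CJ lam eps hK hlam heps X l hCG hup hlow hbot _ c d hcd hη' i j
        hij hi' hj' m h1 h2) (c + d - t) (hmem t ht)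
    refine ⟨m, h1, h2, ?_⟩
    have e : c + d - (c + d - t) = t := by ring
    simp only [e] at h3
    exact h3

end MLTG

end

section

/-!
# The group is finitely presented
-/

namespace MLTG

section FPres

variable {α β : Type} (φ : FreeGroup β →* MulAut (FreeGroup α))

/-- The relator. -/
def relP (p : β × α) : FreeGroup (α ⊕ β) :=
  FreeGroup.of (Sum.inr p.1) * FreeGroup.of (Sum.inl p.2) * (FreeGroup.of (Sum.inr p.1))⁻¹ *
    (FreeGroup.map Sum.inl (φ (FreeGroup.of p.1) (FreeGroup.of p.2)))⁻¹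

/-- The relators. -/
def relsP : Set (FreeGroup (α ⊕ β)) := Set.range (relP φ)

/-- inclusion of the first group. -/
def incA : FreeGroup α →* PresentedGroup (relsP φ) :=
  (PresentedGroup.mk (relsP φ)).comp (FreeGroup.map Sum.inl)

/-- inclusion of the second group. -/
def incB : FreeGroup β →* PresentedGroup (relsP φ) :=
  (PresentedGroup.mk (relsP φ)).comp (FreeGroup.map Sum.inr)

theorem inc_rel (b : β) (a : α) :
    incB φ (FreeGroup.of b) * incA φ (FreeGroup.of a) * (incB φ (FreeGroup.of b))⁻¹ =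
      incA φ (φ (FreeGroup.of b) (FreeGroup.of a)) := by
  have h : PresentedGroup.mk (relsP φ) (relP φ (b, a)) = 1 :=
    PresentedGroup.one_of_mem ⟨(b, a), rfl⟩
  simp only [relP, map_mul, map_inv] at h
  rw [mul_inv_eq_one] at h
  simpa [incA, incB] using h

theorem inc_conj (t : FreeGroup β) (n : FreeGroup α) :
    incB φ t * incA φ n * (incB φ t)⁻¹ = incA φ (φ t n) := by
  induction t using FreeGroup.induction_on generalizing n with
  | C1 => simp
  | of b =>
    have h : (MulAut.conj (incB φ (FreeGroup.of b))).toMonoidHom.comp (incA φ) =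
        (incA φ).comp (φ (FreeGroup.of b)).toMonoidHom := by
      apply FreeGroup.ext_hom
      intro a
      exact inc_rel φ b a
    exact DFunLike.congr_fun h n
  | inv_of b hb =>
    have h := hb ((φ (FreeGroup.of b)⁻¹) n)
    rw [← MulAut.mul_apply, ← map_mul, mul_inv_cancel, map_one, MulAut.one_apply] at h
    rw [← h, map_inv]
    group
  | mul x y hx hy =>
    rw [map_mul, map_mul, MulAut.mul_apply, ← hx, ← hy, mul_inv_rev]
    group

/-- The map from the semidirect product. -/
def fromSD : SemidirectProduct (FreeGroup α) (FreeGroup β) φ →* PresentedGroup (relsP φ) :=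
  SemidirectProduct.lift (incA φ) (incB φ) fun t => by
    apply MonoidHom.ext
    intro n
    exact (inc_conj φ t n).symm

/-- images of the generators. -/
def genSD : α ⊕ β → SemidirectProduct (FreeGroup α) (FreeGroup β) φ :=
  Sum.elim (fun a => SemidirectProduct.inl (FreeGroup.of a))
    (fun b => SemidirectProduct.inr (FreeGroup.of b))

theorem lift_inlSD (n : FreeGroup α) :
    FreeGroup.lift (genSD φ) (FreeGroup.map Sum.inl n) = SemidirectProduct.inl n := by
  have h : (FreeGroup.lift (genSD φ)).comp (FreeGroup.map Sum.inl) = SemidirectProduct.inl := by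
    apply FreeGroup.ext_hom
    intro a
    simp [genSD]
  exact DFunLike.congr_fun h n

theorem lift_inrSD (n : FreeGroup β) :
    FreeGroup.lift (genSD φ) (FreeGroup.map Sum.inr n) = SemidirectProduct.inr n := by
  have h : (FreeGroup.lift (genSD φ)).comp (FreeGroup.map Sum.inr) = SemidirectProduct.inr := by
    apply FreeGroup.ext_hom
    intro a
    simp [genSD]
  exact DFunLike.congr_fun h n

theorem toSD_rel : ∀ r ∈ relsP φ, FreeGroup.lift (genSD φ) r = 1 := by
  rintro r ⟨⟨b, a⟩, rfl⟩
  simp only [relP, map_mul, map_inv, lift_inlSD, FreeGroup.lift_apply_of]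
  rw [mul_inv_eq_one]
  simp only [genSD, Sum.elim_inl, Sum.elim_inr]
  rw [SemidirectProduct.inl_aut, map_inv]

/-- The map to the semidirect product. -/
def toSD : PresentedGroup (relsP φ) →* SemidirectProduct (FreeGroup α) (FreeGroup β) φ :=
  PresentedGroup.toGroup (toSD_rel φ)

theorem toSD_mk (w : FreeGroup (α ⊕ β)) :
    toSD φ (PresentedGroup.mk (relsP φ) w) = FreeGroup.lift (genSD φ) w := rfl

/-- The isomorphism. -/
def equivSD : PresentedGroup (relsP φ) ≃* SemidirectProduct (FreeGroup α) (FreeGroup β) φ :=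
  MonoidHom.toMulEquiv (toSD φ) (fromSD φ)
    (by
      apply PresentedGroup.ext
      intro x
      cases x with
      | inl a =>
        show fromSD φ (FreeGroup.lift (genSD φ) (FreeGroup.of (Sum.inl a))) =
          PresentedGroup.mk (relsP φ) (FreeGroup.of (Sum.inl a))
        rw [FreeGroup.lift_apply_of]
        simp [genSD, fromSD, incA]
      | inr b =>
        show fromSD φ (FreeGroup.lift (genSD φ) (FreeGroup.of (Sum.inr b))) =
          PresentedGroup.mk (relsP φ) (FreeGroup.of (Sum.inr b))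
        rw [FreeGroup.lift_apply_of]
        simp [genSD, fromSD, incB])
    (by
      apply SemidirectProduct.hom_ext
      · apply MonoidHom.ext
        intro n
        show toSD φ (fromSD φ (SemidirectProduct.inl n)) = SemidirectProduct.inl n
        rw [fromSD, SemidirectProduct.lift_inl]
        show toSD φ (PresentedGroup.mk (relsP φ) (FreeGroup.map Sum.inl n)) = _
        rw [toSD_mk, lift_inlSD]
      · apply MonoidHom.ext
        intro n
        show toSD φ (fromSD φ (SemidirectProduct.inr n)) = SemidirectProduct.inr n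
        rw [fromSD, SemidirectProduct.lift_inr]
        show toSD φ (PresentedGroup.mk (relsP φ) (FreeGroup.map Sum.inr n)) = _
        rw [toSD_mk, lift_inrSD])

theorem fpSD [Finite α] [Finite β] :
    Group.IsFinitelyPresented (SemidirectProduct (FreeGroup α) (FreeGroup β) φ) := by
  have : Finite (relsP φ) := Set.finite_range (relP φ)
  exact Group.IsFinitelyPresented.equiv (equivSD φ)

end FPres

/-- Item P. -/
theorem thm_P : ClaimP := fpSD act2

end MLTG

end

section

/-!
# R: the retraction and right multiplications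
-/

open Set

namespace MLTG

section

variable {α : Type} [DecidableEq α] {T : Type} [Group T] (φ : T →* MulAut (FreeGroup α))
  (c : Coc φ)

theorem ret_mk (k : FreeGroup (Option α)) (t : T) :
    ret φ c ⟨k, t⟩ = ⟨if sgn k = some false then pre k * c.u t else pre k, t⟩ := rfl

theorem ret_congr (k k' : FreeGroup (Option α)) (t : T)
    (h : (if sgn k = some false then pre k * c.u t else pre k) =
      if sgn k' = some false then pre k' * c.u t else pre k') :
    ret φ c ⟨k, t⟩ = ret φ c ⟨k', t⟩ := by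
  rw [ret_mk, ret_mk, h]

theorem thm_R (h : ClaimFP) : ClaimR := by
  intro α _ T _ φ c
  obtain ⟨h1, h2, h3, h4, h5, h6, h7⟩ := h α
  refine ⟨?_, ?_, ?_, ?_⟩
  · intro f t
    rw [ret_mk, (h1 f).1, (h1 f).2]
    simp
  · rintro ⟨k, t⟩ f
    have e : (⟨k, t⟩ : SemidirectProduct (FreeGroup (Option α)) T (ext φ c)) *
        SemidirectProduct.inl (ii f) = ⟨k * ii (φ t f), t⟩ := by
      ext
      · simp [ext_ii]
      · simp
    rw [e]
    by_cases hk : sgn k = none
    · simp only [hk, if_true]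
      have e2 : k * ii (φ t f) = ii (pre k * φ t f) := by
        conv_lhs => rw [h2 k hk]
        rw [map_mul]
      rw [e2, ret_mk, ret_mk, (h1 _).1, (h1 _).2, hk]
      ext <;> simp
    · simp only [hk, if_false]
      apply ret_congr
      rw [(h3 k _ hk).1, (h3 k _ hk).2]
  · rintro ⟨k, t⟩ b
    cases b with
    | true =>
      have e : (⟨k, t⟩ : SemidirectProduct (FreeGroup (Option α)) T (ext φ c)) *
          SemidirectProduct.inl (yp true) = ⟨k * yp true * ii (c.u t), t⟩ := by
        ext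
        · simp [yp, ext_yy, mul_assoc]
        · simp
      rw [e, ret_mk, ret_mk]
      have hp := h4 k true
      by_cases hk : sgn k = none
      · have hs := h5 k true hk
        have hs' : sgn (k * yp true) ≠ none := by rw [hs]; simp
        rw [(h3 _ _ hs').1, (h3 _ _ hs').2, hp, hs, hk]
        simp
      · by_cases hs : sgn (k * yp true) = none
        · have hs2 := h6 k true hk hs
          have e2 : k * yp true * ii (c.u t) = ii (pre k * c.u t) := by
            conv_lhs => rw [h2 _ hs]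
            rw [hp, map_mul]
          rw [e2, (h1 _).1, (h1 _).2, hs2]
          simp
        · have hs2 := h7 k true hk hs
          rw [(h3 _ _ hs).1, (h3 _ _ hs).2, hp, hs2]
    | false =>
      have e : (⟨k, t⟩ : SemidirectProduct (FreeGroup (Option α)) T (ext φ c)) *
          SemidirectProduct.inl (yp false) = ⟨k * ii (c.u t)⁻¹ * yp false, t⟩ := by
        ext
        · simp [yp, ext_yy, mul_assoc]
        · simp
      rw [e, ret_mk, ret_mk]
      by_cases hk : sgn k = none
      · have e2 : k * ii (c.u t)⁻¹ = ii (pre k * (c.u t)⁻¹) := by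
          conv_lhs => rw [h2 k hk]
          rw [map_mul]
        have hs0 : sgn (k * ii (c.u t)⁻¹) = none := by rw [e2, (h1 _).2]
        have hs := h5 _ false hs0
        rw [h4, hs, e2, (h1 _).1, hk]
        simp
      · have hs0 : sgn (k * ii (c.u t)⁻¹) ≠ none := by rw [(h3 _ _ hk).2]; exact hk
        have hp0 : pre (k * ii (c.u t)⁻¹) = pre k := (h3 _ _ hk).1
        by_cases hs : sgn (k * ii (c.u t)⁻¹ * yp false) = none
        · have hs2 := h6 _ false hs0 hs
          rw [(h3 _ _ hk).2] at hs2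
          rw [h4, hs, hp0, hs2]
          simp
        · have hs2 := h7 _ false hs0 hs
          rw [h4, hs2, hp0, (h3 _ _ hk).2]
  · rintro ⟨k, t⟩ s
    have e : (⟨k, t⟩ : SemidirectProduct (FreeGroup (Option α)) T (ext φ c)) *
        SemidirectProduct.inr s = ⟨k, t * s⟩ := by
      ext
      · simp
      · simp
    rw [e]
    by_cases hk : sgn k = some false
    · simp only [hk, if_true]
      rw [ret_mk, ret_mk, hk]
      ext
      · simp [sec, c.mul, mul_assoc]
      · simp [sec]
    · simp only [hk, if_false]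
      rw [ret_mk, ret_mk]
      simp only [hk, if_false]
      ext
      · simp
      · simp

end

end MLTG

end

section

/-!
# S: sparseness
-/

open Set

namespace MLTG

/-- `k`-th element of the path from `t` to `t'` through `1`. -/
def S_seq (t t' : TT) (k : ℕ) : TT :=
  if k ≤ t.norm then FreeGroup.mk (t.toWord.take (t.norm - k))
  else FreeGroup.mk (t'.toWord.take (k - t.norm))

theorem S_norm_take (t : TT) (j : ℕ) (hj : j ≤ t.norm) :
    (FreeGroup.mk (t.toWord.take j)).norm = j := by
  have hred : FreeGroup.IsReduced (t.toWord.take j) :=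
    List.IsChain.take (FreeGroup.isReduced_toWord (x := t)) j
  have h : (FreeGroup.mk (t.toWord.take j)).toWord = t.toWord.take j := by
    rw [FreeGroup.toWord_mk]
    exact hred.reduce_eq
  rw [FreeGroup.norm, h, List.length_take]
  exact min_eq_left hj

theorem S_seq_norm (t t' : TT) (k : ℕ) (hk : k ≤ t.norm + t'.norm) :
    ((S_seq t t' k).norm : ℤ) = |(t.norm : ℤ) - k| := by
  unfold S_seq
  split_ifs with h
  · rw [S_norm_take t _ (Nat.sub_le _ _), Nat.cast_sub h, abs_of_nonneg]
    have : (k : ℤ) ≤ t.norm := by exact_mod_cast h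
    linarith
  · push Not at h
    rw [S_norm_take t' _ (by omega), Nat.cast_sub h.le, abs_of_neg]
    · ring
    · have : (t.norm : ℤ) < k := by exact_mod_cast h
      linarith

theorem S_mk_take_succ (t : TT) (j : ℕ) (hj : j < t.norm) :
    ∃ (z : Option Bool) (b : Bool), FreeGroup.mk (t.toWord.take (j + 1)) =
      FreeGroup.mk (t.toWord.take j) * FreeGroup.mk [(z, b)] := by
  have hj' : j < t.toWord.length := hj
  refine ⟨(t.toWord[j]).1, (t.toWord[j]).2, ?_⟩
  rw [FreeGroup.mul_mk, List.take_succ_eq_append_getElem hj']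

theorem S_mk_single (z : Option Bool) (b : Bool) :
    (FreeGroup.mk [(z, b)] : TT) = FreeGroup.of z ∨
      (FreeGroup.mk [(z, b)] : TT) = (FreeGroup.of z)⁻¹ := by
  cases b
  · right
    rw [FreeGroup.of, FreeGroup.inv_mk]
    rfl
  · left; rfl

theorem S_adj (φ : PP) (a b : TT) (z : Option Bool)
    (h : b = a * FreeGroup.of z ∨ b = a * (FreeGroup.of z)⁻¹) :
    Adj SS (⟨φ, a⟩ : MM) ⟨φ, b⟩ := by
  right
  rcases h with h | h
  · refine ⟨gt z, Or.inl (Or.inr ⟨z, rfl⟩), ?_⟩
    apply SemidirectProduct.ext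
    · simp [gt]
    · simp [gt, h]
  · refine ⟨(gt z)⁻¹, Or.inr (by rw [inv_inv]; exact Or.inr ⟨z, rfl⟩), ?_⟩
    apply SemidirectProduct.ext
    · simp [gt]
    · simp [gt, h]

theorem S_path (φ : PP) (t t' : TT) :
    IsPath SS (t.norm + t'.norm) (fun k => (⟨φ, S_seq t t' k⟩ : MM)) := by
  intro k hk
  by_cases h : k < t.norm
  · obtain ⟨z, b, hzb⟩ := S_mk_take_succ t (t.norm - (k + 1)) (by omega)
    have h1 : S_seq t t' k = FreeGroup.mk (t.toWord.take (t.norm - (k + 1) + 1)) := by
      unfold S_seq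
      rw [if_pos h.le]
      congr 2
      omega
    have h2 : S_seq t t' (k + 1) = FreeGroup.mk (t.toWord.take (t.norm - (k + 1))) := by
      unfold S_seq
      rw [if_pos (Nat.succ_le_of_lt h)]
    rw [← h1, ← h2] at hzb
    apply S_adj φ _ _ z
    rcases S_mk_single z b with h3 | h3
    · right; rw [hzb, h3]; group
    · left; rw [hzb, h3]; group
  · push Not at h
    obtain ⟨z, b, hzb⟩ := S_mk_take_succ t' (k - t.norm) (by omega)
    have h1 : S_seq t t' (k + 1) = FreeGroup.mk (t'.toWord.take (k - t.norm + 1)) := by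
      unfold S_seq
      rw [if_neg (by omega)]
      congr 2
      omega
    have h2 : S_seq t t' k = FreeGroup.mk (t'.toWord.take (k - t.norm)) := by
      unfold S_seq
      split_ifs with h4
      · have : k = t.norm := le_antisymm h4 h
        subst this
        simp
      · rfl
    rw [← h1, ← h2] at hzb
    apply S_adj φ _ _ z
    rcases S_mk_single z b with h3 | h3
    · left; rw [hzb, h3]
    · right; rw [hzb, h3]

/-- The numerical part. -/
theorem S_count (R T n m : ℕ) (I : ℕ → ℕ) (_hT : T ≤ R) (hn : n ≤ 2 * R) (hI : I m ≤ n)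
    (hlt : ∀ j < m, I j < I (j + 1))
    (hb : ∀ j < m, |(T : ℤ) - I j| ≤ 6 * ((I (j + 1) : ℤ) - I j)) :
    (m + 1) ^ 2 ≤ 400 * (R + 1) := by
  classical
  set h : ℕ := Nat.sqrt R + 1 with hh
  have hR : R < h * h := Nat.lt_succ_sqrt R
  have hR' : (h - 1) * (h - 1) ≤ R := by
    rw [hh]; exact Nat.sqrt_le R
  have hmono : ∀ j k, j < k → k ≤ m → I j < I k := by
    intro j k hjk
    induction k with
    | zero => omega
    | succ k ih =>
      intro hk
      rcases Nat.lt_succ_iff_lt_or_eq.1 hjk with h1 | h1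
      · exact (ih h1 (by omega)).trans (hlt k (by omega))
      · subst h1; exact hlt j (by omega)
  set A := (Finset.range m).filter (fun j => |(T : ℤ) - I j| < h) with hA
  have hAcard : A.card ≤ 2 * h - 1 := by
    have h1 : A.card ≤ (Finset.Ioo ((T : ℤ) - h) (T + h)).card := by
      apply Finset.card_le_card_of_injOn (fun j => (I j : ℤ))
      · intro j hj
        have hj' := (Finset.mem_filter.1 hj).2
        rw [abs_lt] at hj'
        simp only [Finset.coe_Ioo, mem_Ioo]
        constructor <;> linarith [hj'.1, hj'.2]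
      · intro j hj k hk hjk
        have hj' := Finset.mem_range.1 (Finset.mem_filter.1 hj).1
        have hk' := Finset.mem_range.1 (Finset.mem_filter.1 hk).1
        have hjk' : I j = I k := by
          have h5 : (I j : ℤ) = I k := hjk
          exact_mod_cast h5
        rcases lt_trichotomy j k with h2 | h2 | h2
        · exact absurd hjk' (hmono j k h2 hk'.le).ne
        · exact h2
        · exact absurd hjk' (hmono k j h2 hj'.le).ne'
    rw [Int.card_Ioo] at h1
    omega
  have hsum : ∑ j ∈ Finset.range m, |(T : ℤ) - I j| ≤ 12 * R := by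
    calc ∑ j ∈ Finset.range m, |(T : ℤ) - I j|
        ≤ ∑ j ∈ Finset.range m, 6 * ((I (j + 1) : ℤ) - I j) :=
          Finset.sum_le_sum fun j hj => hb j (Finset.mem_range.1 hj)
      _ = 6 * ((I m : ℤ) - I 0) := by
          rw [← Finset.mul_sum, Finset.sum_range_sub (fun j => (I j : ℤ))]
      _ ≤ 12 * R := by
          have h1 : (I m : ℤ) ≤ n := by exact_mod_cast hI
          have h2 : (n : ℤ) ≤ 2 * R := by exact_mod_cast hn
          have h3 : (0 : ℤ) ≤ I 0 := by positivity
          linarith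
  have hcount : ((m : ℤ) - A.card) * h ≤ 12 * R := by
    refine le_trans ?_ hsum
    have h1 : ((Finset.range m).filter (fun j => ¬ |(T : ℤ) - I j| < h)).card = m - A.card := by
      have := Finset.card_filter_add_card_filter_not (s := Finset.range m)
        (fun j => |(T : ℤ) - I j| < h)
      rw [Finset.card_range] at this
      change A.card + _ = m at this
      omega
    have hAm : A.card ≤ m := by
      have := Finset.card_filter_le (Finset.range m) (fun j => |(T : ℤ) - I j| < h)
      rw [Finset.card_range] at this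
      exact this
    calc ((m : ℤ) - A.card) * h
        = ∑ j ∈ (Finset.range m).filter (fun j => ¬ |(T : ℤ) - I j| < h), (h : ℤ) := by
          rw [Finset.sum_const, h1, nsmul_eq_mul, Nat.cast_sub hAm]
      _ ≤ ∑ j ∈ (Finset.range m).filter (fun j => ¬ |(T : ℤ) - I j| < h), |(T : ℤ) - I j| := by
          apply Finset.sum_le_sum
          intro j hj
          exact not_lt.1 (Finset.mem_filter.1 hj).2
      _ ≤ ∑ j ∈ Finset.range m, |(T : ℤ) - I j| :=
          Finset.sum_le_sum_of_subset_of_nonneg (Finset.filter_subset _ _)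
            fun _ _ _ => abs_nonneg _
  have hAc : (A.card : ℤ) ≤ 2 * h - 1 := by
    have : 1 ≤ 2 * h := by omega
    have h2 : ((2 * h - 1 : ℕ) : ℤ) = 2 * h - 1 := by push_cast [Nat.cast_sub this]; ring
    rw [← h2]
    exact_mod_cast hAcard
  have hRz : (R : ℤ) < h * h := by exact_mod_cast hR
  have hh1 : (1 : ℤ) ≤ h := by exact_mod_cast (by omega : 1 ≤ h)
  have hR'z : ((h : ℤ) - 1) * (h - 1) ≤ R := by
    have h1 : ((h - 1 : ℕ) : ℤ) = (h : ℤ) - 1 := by
      rw [Nat.cast_sub (by omega)]; simp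
    rw [← h1]
    exact_mod_cast hR'
  have hm : (m : ℤ) + 1 ≤ 14 * h := by
    by_contra hcon
    push Not at hcon
    have h1 : (12 : ℤ) * h ≤ (m : ℤ) - A.card := by linarith
    have h2 : (12 : ℤ) * h * h ≤ ((m : ℤ) - A.card) * h :=
      mul_le_mul_of_nonneg_right h1 (by linarith)
    nlinarith
  have hfin : ((m : ℤ) + 1) ^ 2 ≤ 400 * (R + 1) := by
    have h0 : (0 : ℤ) ≤ (m : ℤ) + 1 := by positivity
    have h1 : ((m : ℤ) + 1) ^ 2 ≤ (14 * h) ^ 2 := pow_le_pow_left₀ h0 hm 2
    nlinarith [sq_nonneg ((h : ℤ) - 2), sq_nonneg ((h : ℤ) - 1)]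
  exact_mod_cast hfin

theorem thm_S (hC1 : ClaimC1) (hC2 : ClaimC2) (_hR : ClaimR) (hFP : ClaimFP) : ClaimS := by
  intro f t t' q q' R ht ht' hq hq' hqq
  have hRpos : (0 : ℤ) ≤ 400 * (R + 1) := by positivity
  rcases hqq.eq_or_lt with heq | hlt
  · subst heq; simpa using hRpos
  obtain ⟨hFP1, -, -, hFP4, hFP5, -, -⟩ := hFP (Option Bool)
  obtain ⟨-, -, -, hC14⟩ := hC1
  set φ : PP := ii f * yp false with hφ
  have hpre : pre φ = f := by rw [hφ, hFP4, (hFP1 f).1]
  have hsgn : sgn φ = some false := hFP5 _ _ (hFP1 f).2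
  set n := t.norm + t'.norm with hn
  let p : ℕ → MM := fun k => ⟨φ, S_seq t t' k⟩
  have hrho : ∀ k, rho (p k) = ⟨f * coc1.u (S_seq t t' k), S_seq t t' k⟩ := by
    intro k
    simp only [rho, ret, p, hsgn, hpre, if_true]
  have h0 : S_seq t t' 0 = t := by
    unfold S_seq
    rw [if_pos (Nat.zero_le _), Nat.sub_zero]
    have : t.toWord.take t.norm = t.toWord := List.take_of_length_le le_rfl
    rw [this, FreeGroup.mk_toWord]
  have hnn : S_seq t t' n = t' := by
    unfold S_seq
    split_ifs with h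
    · have h1 : t'.norm = 0 := by omega
      have h2 : t' = 1 := FreeGroup.norm_eq_zero.1 h1
      have h3 : t.norm - n = 0 := by omega
      rw [h3, h2]; rfl
    · have h3 : n - t.norm = t'.norm := by omega
      rw [h3]
      have : t'.toWord.take t'.norm = t'.toWord := List.take_of_length_le le_rfl
      rw [this, FreeGroup.mk_toWord]
  have hpath : IsPath SS n p := S_path φ t t'
  obtain ⟨i, tt, hi1, hi2⟩ := hC2 n p hpath q q' hlt (by
    rw [hrho, h0]
    simp only [hq]
    rw [hC14]; exact lt_irrefl _) (by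
    rw [hrho, hnn]
    simp only [hq']
    rw [hC14]; linarith)
  obtain ⟨m, hm⟩ : ∃ m : ℕ, q' = q + m + 1 := ⟨(q' - q - 1).toNat, by omega⟩
  have htt : ∀ c, q ≤ c → c < q' → ((tt c).norm : ℤ) = |(t.norm : ℤ) - i c| := by
    intro c hc hc'
    obtain ⟨h1, h2, -⟩ := hi1 c hc hc'
    rw [hrho] at h2
    have h3 : S_seq t t' (i c) = tt c := congrArg SemidirectProduct.right h2
    rw [← h3]
    exact S_seq_norm t t' (i c) h1.le
  have key := S_count R t.norm n m (fun j => i (q + j)) ht (by omega)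
    ((hi1 (q + m) (by omega) (by omega)).1.le) (by
      intro j hj
      have := (hi2 (q + j) (by omega) (by omega)).1
      simpa [add_assoc] using this) (by
      intro j hj
      obtain ⟨h1, h2⟩ := hi2 (q + j) (by omega) (by omega)
      have h3 := htt (q + j) (by omega) (by omega)
      have h4 : ((tt (q + j)).norm : ℤ) ≤ 6 * ((i (q + j + 1) : ℤ) - i (q + j)) := by
        rw [← Nat.cast_sub h1.le]
        exact_mod_cast h2
      rw [h3] at h4
      simpa [add_assoc] using h4)
  have hqm : q' - q = m + 1 := by omega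
  rw [hqm]
  exact_mod_cast key

end MLTG

end
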